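import Mathlib

/-!
# MP_31e8d2_nt (Motzkin-Straus pairs): definitions
-/

namespace Pool.Agent.MS

open Finset

/-- the radical -/
def rd (m : ℕ) : ℕ := ∏ p ∈ m.primeFactors, p

/-- the product of the primes which divide `m` exactly `f` times and `n` exactly `e` times -/
def cls (m n f e : ℕ) : ℕ :=
  ∏ p ∈ m.primeFactors.filter fun p => m.factorization p = f ∧ n.factorization p = e, p

/-- the pairs of the problem -/
def Par (m n : ℕ) : Prop :=
  m.primeFactors = (n + 1).primeFactors ∧ n.primeFactors = (m + 1).primeFactors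

/-- the seven classes -/
def sevenClasses : Finset (ℕ × ℕ) :=
  {(1, 1), (1, 2), (1, 3), (1, 4), (2, 1), (3, 1), (4, 1)}

end Pool.Agent.MS
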