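import Mathlib

/-!
# MP_31e8d2_nt (Motzkin-Straus): two relations from quadratic reciprocity

If `m` and `n + 1` have the same prime factors and `n` and `m + 1` have the same prime factors,
then `m` is `-1` modulo the primes of `n`, `n` is `-1` modulo the primes of `m`, `n + 1` is `1`
modulo the primes of `m + 1` and `m + 1` is `1` modulo the primes of `n + 1`.  Quadratic
reciprocity for `(m | n)` and `(n + 1 | m + 1)` then restricts `m` and `n` at the prime `2`.
-/

open scoped NumberTheorySymbols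
open ZMod

namespace Pool.Agent.MS.Jac

/-- The Jacobi symbol only depends on the residues of the numerator modulo the prime
factors of the denominator. -/
theorem jac_congr (a a' : ℤ) (b : ℕ) (hb : b ≠ 0)
    (h : ∀ q : ℕ, q.Prime → q ∣ b → (q : ℤ) ∣ a - a') : J(a | b) = J(a' | b) := by
  induction b using Nat.recOnMul with
  | zero => exact absurd rfl hb
  | one => rw [jacobiSym.one_right, jacobiSym.one_right]
  | prime p hp =>
    exact jacobiSym.mod_left' (Int.ModEq.symm (Int.modEq_iff_dvd.2 (h p hp dvd_rfl)))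
  | mul b₁ b₂ ih₁ ih₂ =>
    have hb₁ : b₁ ≠ 0 := left_ne_zero_of_mul hb
    have hb₂ : b₂ ≠ 0 := right_ne_zero_of_mul hb
    rw [jacobiSym.mul_right' a hb₁ hb₂, jacobiSym.mul_right' a' hb₁ hb₂,
      ih₁ hb₁ (fun q hq hqd => h q hq (Dvd.dvd.mul_right hqd _)),
      ih₂ hb₂ (fun q hq hqd => h q hq (Dvd.dvd.mul_left hqd _))]

theorem chi4_one {n : ℕ} (h : n % 4 = 1) : (χ₄ (n : ZMod 4) : ℤ) = 1 :=
  χ₄_nat_one_mod_four h

theorem chi4_three {n : ℕ} (h : n % 4 = 3) : (χ₄ (n : ZMod 4) : ℤ) = -1 :=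
  χ₄_nat_three_mod_four h

theorem chi8_pos {n : ℕ} (h : n % 8 = 1 ∨ n % 8 = 7) : (χ₈ (n : ZMod 8) : ℤ) = 1 := by
  rw [χ₈_nat_eq_if_mod_eight, if_neg (by omega), if_pos h]

theorem chi8_neg {n : ℕ} (h : n % 8 = 3 ∨ n % 8 = 5) : (χ₈ (n : ZMod 8) : ℤ) = -1 := by
  rw [χ₈_nat_eq_if_mod_eight, if_neg (by omega), if_neg (by omega)]

theorem neg_one_pow_mul_half (u b : ℕ) (hu : u % 2 = 1) :
    ((-1 : ℤ)) ^ (u / 2 * (b / 2)) = (χ₄ (u : ZMod 4) : ℤ) ^ (b / 2) := by
  rw [pow_mul, χ₄_eq_neg_one_pow hu]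

/-- First relation. -/
theorem rel1 (m n i u : ℕ) (hm : 1 ≤ m) (hn : 1 ≤ n)
    (h1 : m.primeFactors = (n + 1).primeFactors)
    (h2 : n.primeFactors = (m + 1).primeFactors)
    (hmu : m = 2 ^ i * u) (hu : Odd u) (hno : Odd n) :
    (χ₄ (n : ZMod 4) : ℤ) = χ₈ (n : ZMod 8) ^ i * (χ₄ (u : ZMod 4) ^ (n / 2) *
      χ₄ (u : ZMod 4)) := by
  have e1 : J((m : ℤ) | n) = J(-1 | n) := by
    apply jac_congr _ _ _ (by omega)
    intro q hq hqn
    have h3 : q ∈ (m + 1).primeFactors := by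
      rw [← h2, Nat.mem_primeFactors]; exact ⟨hq, hqn, by omega⟩
    have h4 : q ∣ m + 1 := Nat.dvd_of_mem_primeFactors h3
    have h5 : ((q : ℕ) : ℤ) ∣ ((m + 1 : ℕ) : ℤ) := Int.natCast_dvd_natCast.2 h4
    simpa using h5
  have e2 : J((n : ℤ) | u) = J(-1 | u) := by
    have hu0 : u ≠ 0 := by
      rintro rfl
      simp at hmu
      omega
    apply jac_congr _ _ _ hu0
    intro q hq hqu
    have h3 : q ∈ (n + 1).primeFactors := by
      rw [← h1, Nat.mem_primeFactors]
      exact ⟨hq, by rw [hmu]; exact Dvd.dvd.mul_left hqu _, by omega⟩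
    have h4 : q ∣ n + 1 := Nat.dvd_of_mem_primeFactors h3
    have h5 : ((q : ℕ) : ℤ) ∣ ((n + 1 : ℕ) : ℤ) := Int.natCast_dvd_natCast.2 h4
    simpa using h5
  have e3 : J((m : ℤ) | n) = J(2 | n) ^ i * J((u : ℤ) | n) := by
    rw [hmu]
    push_cast
    rw [jacobiSym.mul_left, jacobiSym.pow_left]
  rw [e1, jacobiSym.at_neg_one hno, jacobiSym.at_two hno,
    jacobiSym.quadratic_reciprocity hu hno, e2, jacobiSym.at_neg_one hu,
    neg_one_pow_mul_half u n (Nat.odd_iff.1 hu)] at e3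
  exact e3

/-- Second relation. -/
theorem rel2 (m n c w : ℕ) (hm : 1 ≤ m) (hn : 1 ≤ n)
    (h1 : m.primeFactors = (n + 1).primeFactors)
    (h2 : n.primeFactors = (m + 1).primeFactors)
    (hnw : n + 1 = 2 ^ c * w) (hw : Odd w) (hmo : Odd (m + 1)) :
    (1 : ℤ) = χ₈ ((m + 1 : ℕ) : ZMod 8) ^ c * χ₄ (w : ZMod 4) ^ ((m + 1) / 2) := by
  have e1 : J(((n + 1 : ℕ) : ℤ) | (m + 1)) = 1 := by
    rw [← jacobiSym.one_left (m + 1)]
    apply jac_congr _ _ _ (by omega)
    intro q hq hqn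
    have h3 : q ∈ n.primeFactors := by
      rw [h2, Nat.mem_primeFactors]; exact ⟨hq, hqn, by omega⟩
    have h4 : q ∣ n := Nat.dvd_of_mem_primeFactors h3
    have h5 : ((q : ℕ) : ℤ) ∣ ((n : ℕ) : ℤ) := Int.natCast_dvd_natCast.2 h4
    simpa using h5
  have e2 : J(((m + 1 : ℕ) : ℤ) | w) = 1 := by
    have hw0 : w ≠ 0 := by
      rintro rfl
      simp at hnw
    rw [← jacobiSym.one_left w]
    apply jac_congr _ _ _ hw0
    intro q hq hqw
    have h3 : q ∈ m.primeFactors := by
      rw [h1, Nat.mem_primeFactors]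
      exact ⟨hq, by rw [hnw]; exact Dvd.dvd.mul_left hqw _, by omega⟩
    have h4 : q ∣ m := Nat.dvd_of_mem_primeFactors h3
    have h5 : ((q : ℕ) : ℤ) ∣ ((m : ℕ) : ℤ) := Int.natCast_dvd_natCast.2 h4
    simpa using h5
  have e3 : J(((n + 1 : ℕ) : ℤ) | (m + 1)) = J(2 | (m + 1)) ^ c * J((w : ℤ) | (m + 1)) := by
    rw [hnw]
    push_cast
    rw [jacobiSym.mul_left, jacobiSym.pow_left]
  rw [e1, jacobiSym.at_two hmo, jacobiSym.quadratic_reciprocity hw hmo, e2, mul_one,
    neg_one_pow_mul_half w (m + 1) (Nat.odd_iff.1 hw)] at e3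
  exact e3

theorem pair_even (m n i u : ℕ) (hm : 1 ≤ m) (hn : 1 ≤ n)
    (h1 : m.primeFactors = (n + 1).primeFactors)
    (h2 : n.primeFactors = (m + 1).primeFactors)
    (hmu : m = 2 ^ i * u) (hu : Odd u) (hi : 1 ≤ i) :
    (n % 8 = 3 ∧ Odd i ∧ (i = 1 → n % 16 = 3)) ∨
      (n % 8 = 1 ∧ 3 ≤ i ∧ u % 4 = 1) ∨
      (n % 8 = 5 ∧ 3 ≤ i ∧ (u % 4 = 1 ↔ Even i)) := by
  have hme : 2 ∣ m := by
    rw [hmu]
    exact Dvd.dvd.mul_right (dvd_pow_self 2 (by omega)) _
  have hmo : Odd (m + 1) := by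
    rw [Nat.odd_iff]; omega
  have hn1 : 2 ∣ n + 1 := by
    have h3 : 2 ∈ (n + 1).primeFactors := by
      rw [← h1, Nat.mem_primeFactors]; exact ⟨Nat.prime_two, hme, by omega⟩
    exact Nat.dvd_of_mem_primeFactors h3
  have hno : Odd n := by
    rw [Nat.odd_iff]; omega
  obtain ⟨c, w, hw, hnw⟩ := Nat.exists_eq_two_pow_mul_odd (n := n + 1) (by omega)
  have r1 := rel1 m n i u hm hn h1 h2 hmu hu hno
  have r2 := rel2 m n c w hm hn h1 h2 hnw hw hmo
  have hu4 : u % 4 = 1 ∨ u % 4 = 3 := by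
    have := Nat.odd_iff.1 hu
    omega
  have hw4 : w % 4 = 1 ∨ w % 4 = 3 := by
    have := Nat.odd_iff.1 hw
    omega
  have hn8 : n % 8 = 1 ∨ n % 8 = 3 ∨ n % 8 = 5 ∨ n % 8 = 7 := by
    have := Nat.odd_iff.1 hno
    omega
  have hi3 : i = 1 ∨ i = 2 ∨ 3 ≤ i := by omega
  -- the value of `χ₄ u`
  have hsq : (χ₄ (u : ZMod 4) : ℤ) * χ₄ (u : ZMod 4) = 1 := by
    rcases hu4 with h | h
    · rw [chi4_one h]; norm_num
    · rw [chi4_three h]; norm_num
  have hsqw : (χ₄ (w : ZMod 4) : ℤ) * χ₄ (w : ZMod 4) = 1 := by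
    rcases hw4 with h | h
    · rw [chi4_one h]; norm_num
    · rw [chi4_three h]; norm_num
  have oddpow : ∀ (x : ℤ) (k : ℕ), x * x = 1 → k % 2 = 1 → x ^ k = x := by
    intro x k hx hk
    obtain ⟨t, rfl⟩ : ∃ t, k = 2 * t + 1 := ⟨k / 2, by omega⟩
    rw [pow_succ, pow_mul, sq, hx, one_pow, one_mul]
  have evenpow : ∀ (x : ℤ) (k : ℕ), x * x = 1 → k % 2 = 0 → x ^ k = 1 := by
    intro x k hx hk
    obtain ⟨t, rfl⟩ : ∃ t, k = 2 * t := ⟨k / 2, by omega⟩
    rw [pow_mul, sq, hx, one_pow]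
  -- case `n ≡ 1 mod 4`: `c = 1`
  have hc1 : n % 4 = 1 → c = 1 ∧ n + 1 = 2 * w := by
    intro h4
    have hc : c = 1 := by
      have hc0 : c ≠ 0 := by
        rintro rfl
        rw [pow_zero, one_mul] at hnw
        rw [hnw] at hn1
        have := Nat.odd_iff.1 hw
        omega
      by_contra hne
      obtain ⟨c', rfl⟩ : ∃ c', c = c' + 2 := ⟨c - 2, by omega⟩
      have : n + 1 = 4 * (2 ^ c' * w) := by rw [hnw]; ring
      omega
    refine ⟨hc, ?_⟩
    rw [hnw, hc, pow_one]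
  have himp : n % 4 = 1 → 3 ≤ i := by
    intro h4
    obtain ⟨hc, hnw'⟩ := hc1 h4
    rw [hc, pow_one] at r2
    rcases hi3 with h | h | h
    · exfalso
      subst h
      rw [pow_one] at hmu r1
      have hn2 : n / 2 % 2 = 0 := by omega
      rw [evenpow _ _ hsq hn2, one_mul, chi4_one h4] at r1
      rcases hu4 with hu' | hu'
      · have hm8 : (m + 1) % 8 = 3 := by omega
        have hm2 : (m + 1) / 2 % 2 = 1 := by omega
        rw [oddpow _ _ hsqw hm2, chi8_neg (Or.inl hm8)] at r2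
        rw [chi4_one hu'] at r1
        rcases hw4 with hw' | hw'
        · rw [chi4_one hw'] at r2; norm_num at r2
        · have : n % 8 = 5 := by omega
          rw [chi8_neg (Or.inr this)] at r1
          norm_num at r1
      · have hm8 : (m + 1) % 8 = 7 := by omega
        have hm2 : (m + 1) / 2 % 2 = 1 := by omega
        rw [oddpow _ _ hsqw hm2, chi8_pos (Or.inr hm8)] at r2
        rw [chi4_three hu'] at r1
        rcases hw4 with hw' | hw'
        · have : n % 8 = 1 := by omega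
          rw [chi8_pos (Or.inl this)] at r1
          norm_num at r1
        · rw [chi4_three hw'] at r2; norm_num at r2
    · exfalso
      subst h
      have hm8 : (m + 1) % 8 = 5 := by
        have := Nat.odd_iff.1 hu
        omega
      have hm2 : (m + 1) / 2 % 2 = 0 := by omega
      rw [evenpow _ _ hsqw hm2, chi8_neg (Or.inr hm8)] at r2
      norm_num at r2
    · exact h
  rcases hn8 with h8 | h8 | h8 | h8
  · -- `n ≡ 1 mod 8`
    right; left
    refine ⟨h8, himp (by omega), ?_⟩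
    have hn2 : n / 2 % 2 = 0 := by omega
    rw [evenpow _ _ hsq hn2, one_mul, chi4_one (show n % 4 = 1 by omega),
      chi8_pos (Or.inl h8), one_pow, one_mul] at r1
    rcases hu4 with h | h
    · exact h
    · rw [chi4_three h] at r1; norm_num at r1
  · -- `n ≡ 3 mod 8`
    left
    have hn2 : n / 2 % 2 = 1 := by omega
    rw [oddpow _ _ hsq hn2, hsq, mul_one, chi4_three (show n % 4 = 3 by omega),
      chi8_neg (Or.inl h8)] at r1
    have hio : Odd i := by
      rcases Nat.even_or_odd i with h | h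
      · rw [h.neg_one_pow] at r1; norm_num at r1
      · exact h
    refine ⟨h8, hio, ?_⟩
    rintro rfl
    have hc2 : n + 1 = 4 * w ∧ c = 2 := by
      have hc : c = 2 := by
        have hc0 : c ≠ 0 := by
          rintro rfl
          rw [pow_zero, one_mul] at hnw
          rw [hnw] at hn1
          have := Nat.odd_iff.1 hw
          omega
        have hc1' : c ≠ 1 := by
          rintro rfl
          rw [pow_one] at hnw
          have := Nat.odd_iff.1 hw
          omega
        by_contra hne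
        obtain ⟨c', rfl⟩ : ∃ c', c = c' + 3 := ⟨c - 3, by omega⟩
        have : n + 1 = 8 * (2 ^ c' * w) := by rw [hnw]; ring
        omega
      refine ⟨?_, hc⟩
      rw [hnw, hc]; norm_num
    obtain ⟨hnw', hc⟩ := hc2
    rw [pow_one] at hmu
    have hm2 : (m + 1) / 2 % 2 = 1 := by
      have := Nat.odd_iff.1 hu
      omega
    have hchi : (χ₈ ((m + 1 : ℕ) : ZMod 8) : ℤ) * χ₈ ((m + 1 : ℕ) : ZMod 8) = 1 := by
      have h3 : (m + 1) % 8 = 3 ∨ (m + 1) % 8 = 7 := by
        have := Nat.odd_iff.1 hu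
        omega
      rcases h3 with h3 | h3
      · rw [chi8_neg (Or.inl h3)]; norm_num
      · rw [chi8_pos (Or.inr h3)]; norm_num
    rw [hc, sq, hchi, one_mul, oddpow _ _ hsqw hm2] at r2
    rcases hw4 with hw' | hw'
    · omega
    · rw [chi4_three hw'] at r2; norm_num at r2
  · -- `n ≡ 5 mod 8`
    right; right
    refine ⟨h8, himp (by omega), ?_⟩
    have hn2 : n / 2 % 2 = 0 := by omega
    rw [evenpow _ _ hsq hn2, one_mul, chi4_one (show n % 4 = 1 by omega),
      chi8_neg (Or.inr h8)] at r1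
    rcases Nat.even_or_odd i with hi' | hi'
    · rw [hi'.neg_one_pow, one_mul] at r1
      rcases hu4 with h | h
      · exact ⟨fun _ => hi', fun _ => h⟩
      · rw [chi4_three h] at r1; norm_num at r1
    · rw [hi'.neg_one_pow] at r1
      rcases hu4 with h | h
      · rw [chi4_one h] at r1; norm_num at r1
      · constructor
        · intro h'; omega
        · intro h'; exact absurd h' (Nat.not_even_iff_odd.2 hi')
  · -- `n ≡ 7 mod 8`
    exfalso
    have hn2 : n / 2 % 2 = 1 := by omega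
    rw [oddpow _ _ hsq hn2, hsq, mul_one, chi4_three (show n % 4 = 3 by omega),
      chi8_pos (Or.inr h8), one_pow] at r1
    norm_num at r1

theorem classes (m n : ℕ) (hm : 1 ≤ m) (hn : 1 ≤ n)
    (h1 : m.primeFactors = (n + 1).primeFactors)
    (h2 : n.primeFactors = (m + 1).primeFactors) : m % 8 ≠ 4 ∧ m % 8 ≠ 7 := by
  constructor
  · intro h
    have := pair_even m n 2 (m / 4) hm hn h1 h2 (by omega)
      (by rw [Nat.odd_iff]; omega) (by norm_num)
    rcases this with h3 | h3 | h3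
    · exact absurd h3.2.1 (by decide)
    · omega
    · omega
  · intro h
    have hne : 2 ∣ n := by
      have h3 : 2 ∈ n.primeFactors := by
        rw [h2, Nat.mem_primeFactors]; exact ⟨Nat.prime_two, by omega, by omega⟩
      exact Nat.dvd_of_mem_primeFactors h3
    obtain ⟨i, u, hu, hnu⟩ := Nat.exists_eq_two_pow_mul_odd (n := n) (by omega)
    have hi : 1 ≤ i := by
      by_contra h0
      have : i = 0 := by omega
      subst this
      rw [pow_zero, one_mul] at hnu
      rw [hnu] at hne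
      have := Nat.odd_iff.1 hu
      omega
    have := pair_even n m i u hn hm h2 h1 hnu hu hi
    omega

end Pool.Agent.MS.Jac
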