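import Mathlib

namespace Pool.Agent.MS

open Finset

theorem msA_card (m : ℕ) (hm : m ≠ 0) : 2 ^ m.primeFactors.card ≤ m.divisors.card := by
  rw [← Finset.card_powerset]
  apply Finset.card_le_card_of_injOn (fun s => ∏ p ∈ s, p)
  · intro s hs
    have hs' : s ⊆ m.primeFactors := by
      simpa using hs
    simp only [Finset.mem_coe, Nat.mem_divisors]
    refine ⟨?_, hm⟩
    exact (Finset.prod_dvd_prod_of_subset s m.primeFactors (fun p => p) hs').trans
      (Nat.prod_primeFactors_dvd m)
  · intro s hs t ht h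
    have hs' : s ⊆ m.primeFactors := by
      simpa using hs
    have ht' : t ⊆ m.primeFactors := by
      simpa using ht
    have h1 : (∏ p ∈ s, p).primeFactors = s :=
      Nat.primeFactors_prod (fun p hp => Nat.prime_of_mem_primeFactors (hs' hp))
    have h2 : (∏ p ∈ t, p).primeFactors = t :=
      Nat.primeFactors_prod (fun p hp => Nat.prime_of_mem_primeFactors (ht' hp))
    simp only at h
    rw [← h1, ← h2, h]

theorem msA_sum (M : ℕ) : ∑ m ∈ Icc 1 M, m.divisors.card = ∑ k ∈ Icc 1 M, M / k := by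
  have h1 : ∀ m ∈ Icc 1 M, m.divisors.card = ∑ k ∈ Icc 1 M, if k ∣ m then 1 else 0 := by
    intro m hm
    rw [Finset.mem_Icc] at hm
    rw [← Finset.card_filter]
    congr 1
    ext k
    simp only [Nat.mem_divisors, Finset.mem_filter, Finset.mem_Icc]
    constructor
    · rintro ⟨h, h0⟩
      exact ⟨⟨Nat.pos_of_dvd_of_pos h (by omega), (Nat.le_of_dvd (by omega) h).trans hm.2⟩, h⟩
    · rintro ⟨_, h⟩
      exact ⟨h, by omega⟩
  rw [Finset.sum_congr rfl h1, Finset.sum_comm]
  apply Finset.sum_congr rfl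
  intro k hk
  rw [← Finset.card_filter]
  have : (Icc 1 M).filter (fun m => k ∣ m) = (Finset.Ioc 0 M).filter (fun m => k ∣ m) := by
    congr 1
  rw [this]
  exact Nat.Ioc_filter_dvd_card_eq_div M k

theorem many_factors (M S : ℕ) (hM : 1 ≤ M) :
    (((Icc 1 M).filter fun m => S ≤ m.primeFactors.card).card : ℝ) ≤
      M * (1 + Real.log M) / 2 ^ S := by
  rw [le_div_iff₀ (by positivity)]
  have h1 : ((Icc 1 M).filter fun m => S ≤ m.primeFactors.card).card * 2 ^ S ≤
      ∑ m ∈ Icc 1 M, m.divisors.card := by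
    calc ((Icc 1 M).filter fun m => S ≤ m.primeFactors.card).card * 2 ^ S
        = ∑ _m ∈ (Icc 1 M).filter fun m => S ≤ m.primeFactors.card, 2 ^ S := by
          rw [Finset.sum_const, smul_eq_mul]
      _ ≤ ∑ m ∈ (Icc 1 M).filter fun m => S ≤ m.primeFactors.card, m.divisors.card := by
          apply Finset.sum_le_sum
          intro m hm
          rw [Finset.mem_filter, Finset.mem_Icc] at hm
          exact (Nat.pow_le_pow_right (by norm_num) hm.2).trans (msA_card m (by omega))
      _ ≤ ∑ m ∈ Icc 1 M, m.divisors.card :=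
          Finset.sum_le_sum_of_subset (Finset.filter_subset _ _)
  rw [msA_sum] at h1
  have h2 : (∑ k ∈ Icc 1 M, ((M / k : ℕ) : ℝ)) ≤ M * (1 + Real.log M) := by
    calc (∑ k ∈ Icc 1 M, ((M / k : ℕ) : ℝ)) ≤ ∑ k ∈ Icc 1 M, (M : ℝ) * ((k : ℝ))⁻¹ := by
          apply Finset.sum_le_sum
          intro k _
          rw [← div_eq_mul_inv]
          exact Nat.cast_div_le
      _ = M * ((harmonic M : ℚ) : ℝ) := by
          rw [← Finset.mul_sum, harmonic_eq_sum_Icc]
          push_cast
          rfl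
      _ ≤ M * (1 + Real.log M) := by
          apply mul_le_mul_of_nonneg_left (harmonic_le_one_add_log M) (Nat.cast_nonneg _)
  have h3 : (((Icc 1 M).filter fun m => S ≤ m.primeFactors.card).card : ℝ) * 2 ^ S ≤
      ∑ k ∈ Icc 1 M, ((M / k : ℕ) : ℝ) := by
    exact_mod_cast h1
  exact h3.trans h2

end Pool.Agent.MS
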