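import Mathlib

namespace Pool.Agent.MS
open Finset

/-- The candidates for one prime power factor. -/
def MsB_Q (M y : ℕ) : Finset ℕ :=
  insert 1 ((range y ×ˢ range (Nat.log 2 M)).image fun x => (x.1 + 1) ^ (x.2 + 1))

theorem MsB_Q_card (M y : ℕ) : (MsB_Q M y).card ≤ 1 + y * Nat.log 2 M := by
  unfold MsB_Q
  refine (card_insert_le _ _).trans ?_
  have h := (card_image_le (s := range y ×ˢ range (Nat.log 2 M))
    (f := fun x : ℕ × ℕ => (x.1 + 1) ^ (x.2 + 1)))
  rw [card_product, card_range, card_range] at h
  omega

theorem smooth_few (M S y : ℕ) (hM : 1 ≤ M) :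
    ((Icc 1 M).filter fun m => m.primeFactors.card ≤ S ∧ ∀ p ∈ m.primeFactors, p ≤ y).card ≤
      (1 + y * Nat.log 2 M) ^ S := by
  induction S with
  | zero =>
    rw [pow_zero]
    refine (card_le_card (t := {1}) ?_).trans (by simp)
    intro m hm
    rw [mem_filter, mem_Icc] at hm
    obtain ⟨⟨h1, -⟩, h2, -⟩ := hm
    have h3 : m.primeFactors = ∅ := card_eq_zero.1 (Nat.le_zero.1 h2)
    rw [Nat.primeFactors_eq_empty] at h3
    rw [mem_singleton]
    omega
  | succ S ih =>
    rw [pow_succ']
    refine le_trans ?_ (Nat.mul_le_mul (MsB_Q_card M y) ih)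
    rw [← card_product]
    refine (card_le_card (t := ((MsB_Q M y) ×ˢ ((Icc 1 M).filter fun m =>
      m.primeFactors.card ≤ S ∧ ∀ p ∈ m.primeFactors, p ≤ y)).image
        fun x => x.1 * x.2) ?_).trans card_image_le
    intro m hm
    rw [mem_filter, mem_Icc] at hm
    obtain ⟨⟨h1, hmM⟩, h2, h3⟩ := hm
    rw [mem_image]
    by_cases hm1 : m = 1
    · refine ⟨(1, 1), ?_, by simp [hm1]⟩
      rw [mem_product]
      refine ⟨mem_insert_self _ _, ?_⟩
      simp [hM]
    · have hp : (m.minFac).Prime := Nat.minFac_prime hm1
      set p := m.minFac with hpdef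
      have hpm : p ∣ m := Nat.minFac_dvd m
      have hm0 : m ≠ 0 := by omega
      have hpf : p ∈ m.primeFactors := Nat.mem_primeFactors.2 ⟨hp, hpm, hm0⟩
      have ha : 1 ≤ m.factorization p := hp.factorization_pos_of_dvd hm0 hpm
      have hdiv : m / p ^ m.factorization p ∣ m := Nat.ordCompl_dvd m p
      have hle : p ^ m.factorization p ≤ M :=
        (Nat.le_of_dvd (by omega) (Nat.ordProj_dvd m p)).trans hmM
      refine ⟨(p ^ m.factorization p, m / p ^ m.factorization p), ?_,
        Nat.ordProj_mul_ordCompl_eq_self m p⟩
      rw [mem_product]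
      constructor
      · refine mem_insert_of_mem ?_
        rw [mem_image]
        refine ⟨(p - 1, m.factorization p - 1), ?_, ?_⟩
        · rw [mem_product, mem_range, mem_range]
          constructor
          · have := h3 p hpf
            have := hp.two_le
            simp only
            omega
          · have h4 : m.factorization p ≤ Nat.log 2 M := by
              refine Nat.le_log_of_pow_le (by norm_num) ?_
              exact (Nat.pow_le_pow_left hp.two_le _).trans hle
            simp only
            omega
        · have h5 : p - 1 + 1 = p := by have := hp.two_le; omega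
          have h6 : m.factorization p - 1 + 1 = m.factorization p := by omega
          simp only [h5, h6]
      · rw [mem_filter, mem_Icc]
        have hpos : 0 < m / p ^ m.factorization p := Nat.ordCompl_pos p hm0
        have hsub : (m / p ^ m.factorization p).primeFactors = m.primeFactors.erase p := by
          rw [← Nat.support_factorization, Nat.factorization_ordCompl, Finsupp.support_erase,
            Nat.support_factorization]
        refine ⟨⟨hpos, (Nat.div_le_self _ _).trans hmM⟩, ?_, ?_⟩
        · simp only [hsub, card_erase_of_mem hpf]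
          omega
        · intro q hq
          simp only [hsub] at hq
          exact h3 q (mem_of_mem_erase hq)

end Pool.Agent.MS
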