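import Mathlib

namespace Pool.Agent.MS

open Finset

theorem big_square (M y : ℕ) (hy : 1 ≤ y) :
    (Set.ncard {m : ℕ | m ∈ Icc 1 M ∧ ∃ p : ℕ, p.Prime ∧ y < p ∧ p ^ 2 ∣ m} : ℝ) ≤ M / y := by
  have hsub : {m : ℕ | m ∈ Icc 1 M ∧ ∃ p : ℕ, p.Prime ∧ y < p ∧ p ^ 2 ∣ m} ⊆
      ((Ioc y M).biUnion (fun k => (Ioc 0 M).filter (fun m => k ^ 2 ∣ m)) : Finset ℕ) := by
    rintro m ⟨hm, p, hp, hyp, hpm⟩
    rw [Finset.mem_Icc] at hm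
    simp only [Finset.coe_biUnion, Set.mem_iUnion, Finset.mem_coe, Finset.mem_filter,
      Finset.mem_Ioc]
    refine ⟨p, ⟨hyp, ?_⟩, ⟨by omega, hm.2⟩, hpm⟩
    have h1 : p ^ 2 ≤ m := Nat.le_of_dvd (by omega) hpm
    have h2 : p ≤ p ^ 2 := Nat.le_self_pow (by norm_num) p
    omega
  have h1 : Set.ncard {m : ℕ | m ∈ Icc 1 M ∧ ∃ p : ℕ, p.Prime ∧ y < p ∧ p ^ 2 ∣ m} ≤
      ∑ k ∈ Ioc y M, M / k ^ 2 := by
    refine (Set.ncard_le_ncard hsub (Finset.finite_toSet _)).trans ?_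
    rw [Set.ncard_coe_finset]
    refine Finset.card_biUnion_le.trans ?_
    apply Finset.sum_le_sum
    intro k _
    rw [Nat.Ioc_filter_dvd_card_eq_div]
  have h2 : (Set.ncard {m : ℕ | m ∈ Icc 1 M ∧ ∃ p : ℕ, p.Prime ∧ y < p ∧ p ^ 2 ∣ m} : ℝ) ≤
      ∑ k ∈ Ioc y M, ((M / k ^ 2 : ℕ) : ℝ) := by
    exact_mod_cast h1
  have h3 : (∑ k ∈ Ioc y M, ((M / k ^ 2 : ℕ) : ℝ)) ≤ M * ∑ k ∈ Ioc y M, ((k : ℝ) ^ 2)⁻¹ := by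
    rw [Finset.mul_sum]
    apply Finset.sum_le_sum
    intro k _
    rw [← div_eq_mul_inv]
    refine Nat.cast_div_le.trans ?_
    push_cast
    exact le_refl _
  have hy0 : (0 : ℝ) < y := by exact_mod_cast hy
  have h4 : (∑ k ∈ Ioc y M, ((k : ℝ) ^ 2)⁻¹) ≤ (y : ℝ)⁻¹ := by
    rcases le_or_gt y M with h | h
    · have := sum_Ioc_inv_sq_le_sub (α := ℝ) (k := y) (n := M) (by omega) h
      have h5 : (0 : ℝ) ≤ (M : ℝ)⁻¹ := by positivity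
      linarith
    · rw [Finset.Ioc_eq_empty_of_le h.le]
      simp
  calc (Set.ncard {m : ℕ | m ∈ Icc 1 M ∧ ∃ p : ℕ, p.Prime ∧ y < p ∧ p ^ 2 ∣ m} : ℝ)
      ≤ M * ∑ k ∈ Ioc y M, ((k : ℝ) ^ 2)⁻¹ := h2.trans h3
    _ ≤ M * (y : ℝ)⁻¹ := mul_le_mul_of_nonneg_left h4 (Nat.cast_nonneg _)
    _ = M / y := by rw [div_eq_mul_inv]

end Pool.Agent.MS
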