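import Mathlib

namespace Pool.Agent.MS

open Finset

theorem msD_val (N q : ℕ) (hN : N ≠ 0) : N.factorization q ≤ Nat.log 2 N := by
  by_cases hq : q.Prime
  · apply Nat.le_log_of_pow_le (by norm_num)
    have h1 : q ^ N.factorization q ≤ N := Nat.ordProj_le q hN
    have h2 : 2 ^ N.factorization q ≤ q ^ N.factorization q :=
      Nat.pow_le_pow_left hq.two_le _
    omega
  · rw [Nat.factorization_eq_zero_of_not_prime _ hq]
    exact Nat.zero_le _

theorem key (m n p P l : ℕ) (hp : p.Prime) (hm : m = p * l) (hpl : ¬ p ∣ l)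
    (hn : 1 ≤ n) (h1 : m.primeFactors = (n + 1).primeFactors)
    (h2 : n.primeFactors = (m + 1).primeFactors) (hP : P.Prime) (hPm : P ∣ m + 1) (hm3 : 3 ≤ m)
    (hfam : ∀ k : ℕ, m ≠ 2 ^ k + 1) :
    ∃ (e : ℕ) (v : ℕ → ℕ), e ≤ Nat.log 2 (n + 1) ∧ (∀ q, v q ≤ Nat.log 2 (n + 1)) ∧
      (l : ℤ) ^ e - (-1) ^ e * ∏ q ∈ l.primeFactors, (q : ℤ) ^ v q ≠ 0 ∧
      (P : ℤ) ∣ (l : ℤ) ^ e - (-1) ^ e * ∏ q ∈ l.primeFactors, (q : ℤ) ^ v q := by
  have hl0 : l ≠ 0 := by
    rintro rfl
    omega
  have hpf : m.primeFactors = insert p l.primeFactors := by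
    rw [hm, Nat.primeFactors_mul hp.ne_zero hl0, hp.primeFactors]
    rfl
  have hpnot : p ∉ l.primeFactors := fun h => hpl (Nat.dvd_of_mem_primeFactors h)
  have hpn : p ∈ (n + 1).primeFactors := by
    rw [← h1, hpf]
    exact Finset.mem_insert_self _ _
  -- the factorisation of n + 1
  have hfac : n + 1 = p ^ (n + 1).factorization p *
      ∏ q ∈ l.primeFactors, q ^ (n + 1).factorization q := by
    have h3 : ∏ q ∈ (n + 1).primeFactors, q ^ (n + 1).factorization q = n + 1 := by
      have := Nat.prod_factorization_pow_eq_self (n := n + 1) (by omega)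
      simpa [Finsupp.prod, Nat.support_factorization] using this
    rw [← h1, hpf, Finset.prod_insert hpnot] at h3
    exact h3.symm
  set e := (n + 1).factorization p with he
  have he1 : 1 ≤ e := by
    exact (hp.factorization_pos_of_dvd (by omega) (Nat.dvd_of_mem_primeFactors hpn))
  refine ⟨e, fun q => (n + 1).factorization q, msD_val _ _ (by omega),
    fun q => msD_val _ _ (by omega), ?_, ?_⟩
  · intro hzero
    set l1 := ∏ q ∈ l.primeFactors, q ^ (n + 1).factorization q with hl1
    have hl1c : (∏ q ∈ l.primeFactors, (q : ℤ) ^ (n + 1).factorization q) = (l1 : ℤ) := by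
      rw [hl1]
      push_cast
      rfl
    rw [hl1c] at hzero
    have hl1pos : 0 < l1 := by
      rw [hl1]
      apply Finset.prod_pos
      intro q hq
      exact pow_pos (Nat.pos_of_mem_primeFactors hq) _
    have hlpos : (0 : ℤ) < (l : ℤ) ^ e := by
      apply pow_pos
      exact_mod_cast Nat.pos_of_ne_zero hl0
    rcases Nat.even_or_odd e with hev | hodd
    · rw [hev.neg_one_pow, one_mul, sub_eq_zero] at hzero
      have h4 : l ^ e = l1 := by exact_mod_cast hzero
      have h5 : n + 1 = m ^ e := by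
        rw [hfac, ← h4, ← mul_pow, ← hm]
      obtain ⟨j, hj⟩ := hev
      -- m - 1 divides n
      have h6 : m - 1 ∣ n := by
        have : m - 1 ∣ m ^ e - 1 := by
          have := Nat.sub_dvd_pow_sub_pow m 1 e
          simpa using this
        have h7 : n = m ^ e - 1 := by omega
        rw [h7]
        exact this
      have h8 : ∀ q, q.Prime → q ∣ m - 1 → q = 2 := by
        intro q hq hqd
        have hqn : q ∈ n.primeFactors := by
          rw [Nat.mem_primeFactors]
          exact ⟨hq, hqd.trans h6, by omega⟩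
        rw [h2, Nat.mem_primeFactors] at hqn
        have h9 : q ∣ (m + 1) - (m - 1) := Nat.dvd_sub hqn.2.1 hqd
        have h10 : (m + 1) - (m - 1) = 2 := by omega
        rw [h10] at h9
        exact (Nat.prime_dvd_prime_iff_eq hq Nat.prime_two).1 h9
      have h11 : m - 1 = 2 ^ (m - 1).primeFactorsList.length := by
        apply Nat.eq_prime_pow_of_unique_prime_dvd (by omega)
        intro d hd hd'
        exact h8 d hd hd'
      apply hfam (m - 1).primeFactorsList.length
      omega
    · rw [hodd.neg_one_pow] at hzero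
      have : (0 : ℤ) < l1 := by exact_mod_cast hl1pos
      linarith
  · have hPn : P ∣ n := by
      have : P ∈ (m + 1).primeFactors := by
        rw [Nat.mem_primeFactors]
        exact ⟨hP, hPm, by omega⟩
      rw [← h2] at this
      exact Nat.dvd_of_mem_primeFactors this
    have hmod1 : (p : ℤ) * l ≡ -1 [ZMOD P] := by
      rw [Int.modEq_iff_dvd]
      have : ((P : ℕ) : ℤ) ∣ ((m + 1 : ℕ) : ℤ) := by exact_mod_cast hPm
      rw [hm] at this
      push_cast at this
      have h12 : (-1 : ℤ) - p * l = -(p * l + 1) := by ring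
      rw [h12]
      exact (dvd_neg).2 this
    set X : ℤ := ∏ q ∈ l.primeFactors, (q : ℤ) ^ (n + 1).factorization q with hX
    have hmod2 : (p : ℤ) ^ e * X ≡ 1 [ZMOD P] := by
      have h13 : (p : ℤ) ^ e * X = ((n + 1 : ℕ) : ℤ) := by
        rw [hfac, hX]
        push_cast
        rfl
      rw [h13, Int.modEq_iff_dvd]
      have : ((P : ℕ) : ℤ) ∣ ((n : ℕ) : ℤ) := by exact_mod_cast hPn
      push_cast
      have h14 : (1 : ℤ) - (n + 1) = -n := by ring
      rw [h14]
      exact (dvd_neg).2 this
    have hmod3 : (l : ℤ) ^ e ≡ (-1) ^ e * X [ZMOD P] := by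
      calc (l : ℤ) ^ e = (l : ℤ) ^ e * 1 := by ring
        _ ≡ (l : ℤ) ^ e * ((p : ℤ) ^ e * X) [ZMOD P] := hmod2.symm.mul_left _
        _ = ((p : ℤ) * l) ^ e * X := by ring
        _ ≡ (-1) ^ e * X [ZMOD P] := (hmod1.pow e).mul_right _
    exact (Int.modEq_iff_dvd.1 hmod3.symm)

end Pool.Agent.MS
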