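import Pool.Agent.Lib.BAKER.BakL

/-!
# The exponents of a partner are bounded by Baker theorem
-/

namespace Pool.Agent.MS

open Finset

theorem MsE_log (Q : Finset ℕ) (k : ℕ) (hQ : k.primeFactors ⊆ Q) :
    ∑ q ∈ Q, (k.factorization q : ℝ) * Real.log q = Real.log k := by
  rw [Real.log_nat_eq_sum_factorization]
  rw [Finsupp.sum_of_support_subset (s := Q) _ (by rwa [Nat.support_factorization])]
  intro i _
  simp

theorem MsE_fac (k q : ℕ) : k.factorization q ≤ Nat.log 2 k := by
  rcases Nat.eq_zero_or_pos k with h | h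
  · subst h; simp
  by_cases hq : q.Prime
  · apply Nat.le_log_of_pow_le (by norm_num)
    calc 2 ^ k.factorization q ≤ q ^ k.factorization q := Nat.pow_le_pow_left hq.two_le _
      _ ≤ k := Nat.ordProj_le q h.ne'
  · rw [Nat.factorization_eq_zero_of_not_prime _ hq]; exact Nat.zero_le _

theorem MsE_small (n : ℕ) (hn : 1 ≤ n) :
    |Real.log ((n + 1 : ℕ) : ℝ) - Real.log n| ≤ Real.exp (-((Nat.log 2 (n + 1) : ℕ) : ℝ) / 10) := by
  have hn0 : (0 : ℝ) < n := by exact_mod_cast hn
  have hpos : 0 < Real.log ((n + 1 : ℕ) : ℝ) - Real.log n := by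
    have : Real.log (n : ℝ) < Real.log ((n + 1 : ℕ) : ℝ) := by
      apply Real.log_lt_log hn0
      push_cast; linarith
    linarith
  rw [abs_of_pos hpos]
  have hle : Real.log ((n + 1 : ℕ) : ℝ) - Real.log n ≤ 1 / n := by
    rw [← Real.log_div (by positivity) hn0.ne']
    have h1 : (((n + 1 : ℕ) : ℝ) / n) = 1 + 1 / n := by push_cast; field_simp
    rw [h1]
    have := Real.log_le_sub_one_of_pos (x := 1 + 1 / (n : ℝ)) (by positivity)
    linarith
  obtain ⟨H, hH⟩ : ∃ H, H = Nat.log 2 (n + 1) := ⟨_, rfl⟩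
  rw [← hH]
  have h2 : 2 ^ H ≤ n + 1 := by rw [hH]; exact Nat.pow_log_le_self 2 (by omega)
  have h1 : 1 ≤ H := by rw [hH]; exact Nat.le_log_of_pow_le (by norm_num) (by omega)
  rcases Nat.lt_or_ge H 2 with hlt | hge
  · have hH1 : H = 1 := by omega
    have h3 : Real.log ((n + 1 : ℕ) : ℝ) - Real.log n ≤ 0.7 := by
      rcases Nat.lt_or_ge n 2 with hn2 | hn2
      · have : n = 1 := by omega
        subst this
        have := Real.log_two_lt_d9
        norm_num
        linarith
      · have : (1 : ℝ) / n ≤ 1 / 2 := by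
          apply one_div_le_one_div_of_le (by norm_num); exact_mod_cast hn2
        linarith
    have h4 := Real.add_one_le_exp (-(H : ℝ) / 10)
    rw [hH1] at h4 ⊢
    push_cast at h3 h4 ⊢
    linarith
  · have h3 : Real.exp ((H : ℝ) / 10) ≤ 2 ^ (H - 1) := by
      have e1 : (H : ℝ) / 10 ≤ ((H - 1 : ℕ) : ℝ) * (1 / 5) := by
        rw [Nat.cast_sub h1]
        have : (2 : ℝ) ≤ H := by exact_mod_cast hge
        push_cast; linarith
      have e2 : Real.exp (1 / 5) ≤ 2 := by
        have := Real.exp_bound' (x := 1 / 5) (by norm_num) (by norm_num) (n := 2) (by norm_num)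
        norm_num [Finset.sum_range_succ, Nat.factorial] at this
        norm_num
        linarith
      calc Real.exp ((H : ℝ) / 10) ≤ Real.exp (((H - 1 : ℕ) : ℝ) * (1 / 5)) := Real.exp_le_exp.2 e1
        _ = Real.exp (1 / 5) ^ (H - 1) := by rw [Real.exp_nat_mul]
        _ ≤ 2 ^ (H - 1) := pow_le_pow_left₀ (Real.exp_pos _).le e2 _
    have h4 : (2 : ℝ) ^ (H - 1) ≤ n := by
      have : 2 ^ (H - 1) ≤ n := by
        have e : 2 ^ H = 2 * 2 ^ (H - 1) := by rw [← pow_succ']; congr 1; omega
        have : 1 ≤ 2 ^ (H - 1) := Nat.one_le_two_pow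
        omega
      exact_mod_cast this
    calc _ ≤ 1 / (n : ℝ) := hle
      _ ≤ 1 / Real.exp ((H : ℝ) / 10) :=
        one_div_le_one_div_of_le (Real.exp_pos _) (h3.trans h4)
      _ = Real.exp (-(H : ℝ) / 10) := by
        rw [neg_div, Real.exp_neg, one_div]

theorem expo (M m n s : ℕ) (hM : 3 ≤ M) (hm : 2 ≤ m) (hmM : m < M) (hn : 1 ≤ n)
    (h1 : m.primeFactors = (n + 1).primeFactors) (h2 : n.primeFactors = (m + 1).primeFactors)
    (hs : m.primeFactors.card + (m + 1).primeFactors.card ≤ s) :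
    (Nat.log 2 (n + 1) : ℝ) < (10 ^ 7 * s ^ 10 * Real.log M) ^ (24 * s ^ 2) := by
  classical
  obtain ⟨Q, hQ⟩ : ∃ Q, Q = m.primeFactors ∪ (m + 1).primeFactors := ⟨_, rfl⟩
  have hdisj : Disjoint m.primeFactors (m + 1).primeFactors := by
    apply Nat.Coprime.disjoint_primeFactors
    simp
  have hcard : Q.card = m.primeFactors.card + (m + 1).primeFactors.card := by
    rw [hQ, Finset.card_union_of_disjoint hdisj]
  have c1 : 1 ≤ m.primeFactors.card := by
    rw [Nat.one_le_iff_ne_zero, Ne, Finset.card_eq_zero, Nat.primeFactors_eq_empty]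
    omega
  have c2 : 1 ≤ (m + 1).primeFactors.card := by
    rw [Nat.one_le_iff_ne_zero, Ne, Finset.card_eq_zero, Nat.primeFactors_eq_empty]
    omega
  have hprime : ∀ q ∈ Q, q.Prime := by
    intro q hq
    rw [hQ, Finset.mem_union] at hq
    rcases hq with h | h <;> exact Nat.prime_of_mem_primeFactors h
  have hle : ∀ q ∈ Q, q ≤ M := by
    intro q hq
    rw [hQ, Finset.mem_union] at hq
    rcases hq with h | h
    · have := Nat.le_of_dvd (by omega) (Nat.dvd_of_mem_primeFactors h); omega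
    · have := Nat.le_of_dvd (by omega) (Nat.dvd_of_mem_primeFactors h); omega
  obtain ⟨e⟩ : Nonempty (Fin Q.card ≃ Q) := ⟨Q.equivFin.symm⟩
  have hsum : ∀ f : ℕ → ℝ, ∑ i : Fin Q.card, f (e i : ℕ) = ∑ q ∈ Q, f q := by
    intro f
    rw [Equiv.sum_comp e (fun q : Q => f (q : ℕ)), Finset.sum_coe_sort Q f]
  have hLL : BK.LL (fun i => (e i : ℕ))
      (fun i => ((n + 1).factorization (e i : ℕ) : ℤ) - (n.factorization (e i : ℕ) : ℤ)) =
      Real.log ((n + 1 : ℕ) : ℝ) - Real.log n := by
    unfold BK.LL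
    have hh := hsum (fun q => (((n + 1).factorization q : ℝ) - (n.factorization q : ℝ)) *
      Real.log q)
    have h3 : ∑ q ∈ Q, (((n + 1).factorization q : ℝ) - (n.factorization q : ℝ)) *
        Real.log q = Real.log ((n + 1 : ℕ) : ℝ) - Real.log n := by
      rw [← MsE_log Q (n + 1) (by rw [hQ, ← h1]; exact Finset.subset_union_left),
        ← MsE_log Q n (by rw [hQ, h2]; exact Finset.subset_union_right),
        ← Finset.sum_sub_distrib]
      apply Finset.sum_congr rfl
      intro q _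
      ring
    rw [← h3, ← hh]
    apply Finset.sum_congr rfl
    intro i _
    push_cast
    ring
  have hLLpos : 0 < Real.log ((n + 1 : ℕ) : ℝ) - Real.log n := by
    have hn0 : (0 : ℝ) < n := by exact_mod_cast hn
    have : Real.log (n : ℝ) < Real.log ((n + 1 : ℕ) : ℝ) := by
      apply Real.log_lt_log hn0
      push_cast; linarith
    linarith
  have key := BK.baker (s := Q.card) (H := Nat.log 2 (n + 1)) (M := M) (by omega) hM
    (fun i => (e i : ℕ)) (fun i => hprime _ (e i).2)
    (fun i j hij => e.injective (Subtype.ext hij)) (fun i => hle _ (e i).2)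
    (fun i => ((n + 1).factorization (e i : ℕ) : ℤ) - (n.factorization (e i : ℕ) : ℤ))
    (by
      intro h0
      rw [h0] at hLL
      have : BK.LL (fun i => (e i : ℕ)) (0 : Fin Q.card → ℤ) = 0 := by simp [BK.LL]
      rw [this] at hLL
      linarith)
    (by
      intro i
      have a1 := MsE_fac (n + 1) (e i : ℕ)
      have a2 := MsE_fac n (e i : ℕ)
      have a3 : Nat.log 2 n ≤ Nat.log 2 (n + 1) := Nat.log_mono_right (by omega)
      rw [abs_le]
      constructor <;> omega)
    (by rw [hLL]; exact MsE_small n hn)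
  have hlogM : 1 ≤ Real.log M := by
    rw [Real.le_log_iff_exp_le (by positivity)]
    have := Real.exp_one_lt_d9
    have h3 : (3 : ℝ) ≤ M := by exact_mod_cast hM
    linarith
  have hc1 : (1 : ℝ) ≤ (Q.card : ℝ) := by exact_mod_cast (by omega : 1 ≤ Q.card)
  have hc2 : (Q.card : ℝ) ≤ s := by exact_mod_cast (by omega : Q.card ≤ s)
  have hb1 : (1 : ℝ) ≤ 10 ^ 7 * (s : ℝ) ^ 10 * Real.log M := by
    have : (1 : ℝ) ≤ (s : ℝ) ^ 10 := one_le_pow₀ (by linarith)
    nlinarith
  refine key.trans_le ?_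
  calc (10 ^ 7 * (Q.card : ℝ) ^ 10 * Real.log M) ^ (24 * Q.card ^ 2)
      ≤ (10 ^ 7 * (s : ℝ) ^ 10 * Real.log M) ^ (24 * Q.card ^ 2) := by
        apply pow_le_pow_left₀ (by positivity)
        gcongr
    _ ≤ (10 ^ 7 * (s : ℝ) ^ 10 * Real.log M) ^ (24 * s ^ 2) := by
        apply pow_le_pow_right₀ hb1
        have : Q.card ≤ s := by omega
        gcongr

end Pool.Agent.MS
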