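import Mathlib

/-!
# The union bound for the exceptional integers
-/

namespace Pool.Agent.MS

open Finset

theorem msF_class (M l P y : ℕ) (hl : 1 ≤ l) (hy : 1 ≤ y) (hP : P.Prime) (hyP : y < P) :
    (((Icc 1 M).filter fun m => l ∣ m ∧ P ∣ m + 1).card : ℝ) ≤ M / (l * y) + 1 := by
  set B := (Icc 1 M).filter fun m => l ∣ m ∧ P ∣ m + 1 with hB
  have hn : 0 < l * P := Nat.mul_pos hl hP.pos
  have h1 : B.card ≤ M / (l * P) + 1 := by
    by_cases hPl : P ∣ l
    · have h0 : B = ∅ := by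
        rw [Finset.eq_empty_iff_forall_notMem]
        intro m hm
        rw [hB, mem_filter] at hm
        have h2 : P ∣ m := hPl.trans hm.2.1
        have h3 : P ∣ 1 := (Nat.dvd_add_right h2).1 hm.2.2
        exact hP.one_lt.ne' (Nat.dvd_one.1 h3)
      rw [h0]
      simp
    · have hc : Nat.Coprime l P := ((Nat.Prime.coprime_iff_not_dvd hP).2 hPl).symm
      rw [← card_range (M / (l * P) + 1)]
      apply Finset.card_le_card_of_injOn (fun m => m / (l * P))
      · intro m hm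
        rw [hB, coe_filter, Set.mem_ofPred_eq, mem_Icc] at hm
        rw [coe_range, Set.mem_Iio]
        exact Nat.lt_succ_of_le (Nat.div_le_div_right hm.1.2)
      · intro m hm m' hm' h
        rw [hB, coe_filter, Set.mem_ofPred_eq, mem_Icc] at hm hm'
        have e1 : m ≡ m' [MOD l] :=
          ((Nat.modEq_zero_iff_dvd).2 hm.2.1).trans ((Nat.modEq_zero_iff_dvd).2 hm'.2.1).symm
        have e2 : m + 1 ≡ m' + 1 [MOD P] :=
          ((Nat.modEq_zero_iff_dvd).2 hm.2.2).trans ((Nat.modEq_zero_iff_dvd).2 hm'.2.2).symm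
        have e3 : m ≡ m' [MOD P] := Nat.ModEq.add_right_cancel' 1 e2
        have e4 : m ≡ m' [MOD l * P] := (Nat.modEq_and_modEq_iff_modEq_mul hc).1 ⟨e1, e3⟩
        have e5 : m % (l * P) = m' % (l * P) := e4
        have h' : m / (l * P) = m' / (l * P) := h
        rw [← Nat.div_add_mod m (l * P), ← Nat.div_add_mod m' (l * P), h', e5]
  have h2 : ((M / (l * P) : ℕ) : ℝ) ≤ M / (l * y) := by
    refine Nat.cast_div_le.trans ?_
    have hl' : (0 : ℝ) < l := by exact_mod_cast hl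
    have hy' : (0 : ℝ) < y := by exact_mod_cast hy
    have hyP' : (y : ℝ) ≤ P := by exact_mod_cast hyP.le
    push_cast
    apply div_le_div_of_nonneg_left (by positivity) (by positivity)
    exact mul_le_mul_of_nonneg_left hyP' hl'.le
  calc (B.card : ℝ) ≤ ((M / (l * P) + 1 : ℕ) : ℝ) := by exact_mod_cast h1
    _ = ((M / (l * P) : ℕ) : ℝ) + 1 := by push_cast; ring
    _ ≤ _ := by linarith

/-- the integers `D` -/
def msFD (l e : ℕ) (w : ∀ q ∈ l.primeFactors, ℕ) : ℤ :=
  (l : ℤ) ^ e - (-1) ^ e * ∏ q ∈ l.primeFactors.attach, ((q.1 : ℕ) : ℤ) ^ w q.1 q.2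

theorem msF_abs (M l e U : ℕ) (hl : 1 ≤ l) (hlM : l ≤ M) (he : e ≤ U)
    (w : ∀ q ∈ l.primeFactors, ℕ) (hw : ∀ q hq, w q hq ≤ U) :
    (msFD l e w).natAbs ≤ 2 * M ^ U := by
  have hM : 1 ≤ M := hl.trans hlM
  have h1 : l ^ e ≤ M ^ U :=
    (Nat.pow_le_pow_left hlM e).trans (Nat.pow_le_pow_right hM he)
  have h2 : ∏ q ∈ l.primeFactors.attach, (q.1 : ℕ) ^ w q.1 q.2 ≤ M ^ U := by
    calc ∏ q ∈ l.primeFactors.attach, (q.1 : ℕ) ^ w q.1 q.2
        ≤ ∏ q ∈ l.primeFactors.attach, (q.1 : ℕ) ^ U := by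
          apply Finset.prod_le_prod' 
          intro q _
          exact Nat.pow_le_pow_right (Nat.pos_of_mem_primeFactors q.2) (hw _ _)
      _ = (∏ q ∈ l.primeFactors, q) ^ U := by
          rw [Finset.prod_pow, Finset.prod_attach l.primeFactors (fun q => q)]
      _ ≤ M ^ U := by
          apply Nat.pow_le_pow_left
          exact (Nat.le_of_dvd hl (Nat.prod_primeFactors_dvd l)).trans hlM
  have h3 : (msFD l e w).natAbs ≤ l ^ e + ∏ q ∈ l.primeFactors.attach, (q.1 : ℕ) ^ w q.1 q.2 := by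
    unfold msFD
    refine (Int.natAbs_sub_le _ _).trans ?_
    rw [Int.natAbs_pow, Int.natAbs_natCast, Int.natAbs_mul, Int.natAbs_pow, Int.natAbs_neg,
      Int.natAbs_one, one_pow, one_mul]
    have h4 : (∏ q ∈ l.primeFactors.attach, ((q.1 : ℕ) : ℤ) ^ w q.1 q.2) =
        ((∏ q ∈ l.primeFactors.attach, (q.1 : ℕ) ^ w q.1 q.2 : ℕ) : ℤ) := by
      push_cast
      rfl
    rw [h4, Int.natAbs_natCast]
  omega

theorem msF_primes (M l e U : ℕ) (hl : 1 ≤ l) (hlM : l ≤ M) (he : e ≤ U)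
    (w : ∀ q ∈ l.primeFactors, ℕ) (hw : ∀ q hq, w q hq ≤ U) :
    (msFD l e w).natAbs.primeFactors.card ≤ (U + 1) * (Nat.log 2 M + 3) := by
  by_cases h0 : (msFD l e w).natAbs = 0
  · rw [h0]
    simp
  have h1 := msF_abs M l e U hl hlM he w hw
  have h2 : 2 ^ (msFD l e w).natAbs.primeFactors.card ≤ (msFD l e w).natAbs := by
    calc 2 ^ (msFD l e w).natAbs.primeFactors.card
        = ∏ _q ∈ (msFD l e w).natAbs.primeFactors, 2 := by rw [Finset.prod_const]
      _ ≤ ∏ q ∈ (msFD l e w).natAbs.primeFactors, q := by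
          apply Finset.prod_le_prod'
          intro q hq
          exact (Nat.prime_of_mem_primeFactors hq).two_le
      _ ≤ _ := Nat.le_of_dvd (Nat.pos_of_ne_zero h0) (Nat.prod_primeFactors_dvd _)
  have h3 : M ≤ 2 ^ (Nat.log 2 M + 1) := (Nat.lt_pow_succ_log_self (by norm_num) M).le
  have h4 : 2 * M ^ U ≤ 2 ^ (1 + (Nat.log 2 M + 1) * U) := by
    rw [pow_add, pow_one, pow_mul]
    exact Nat.mul_le_mul_left 2 (Nat.pow_le_pow_left h3 U)
  have h5 : (msFD l e w).natAbs.primeFactors.card ≤ 1 + (Nat.log 2 M + 1) * U :=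
    (Nat.pow_le_pow_iff_right (by norm_num)).1 (h2.trans (h1.trans h4))
  refine h5.trans ?_
  nlinarith

theorem msF_sum (M y : ℕ) (hM : 1 ≤ M) (hy : 1 ≤ y) :
    ∑ l ∈ Icc 1 (M / y), ((M : ℝ) / (l * y) + 1) ≤ M / y * (2 + Real.log M) := by
  have hy' : (0 : ℝ) < y := by exact_mod_cast hy
  have hM' : (1 : ℝ) ≤ M := by exact_mod_cast hM
  have h1 : ∑ l ∈ Icc 1 (M / y), ((M : ℝ) / (l * y) + 1) =
      M / y * ∑ l ∈ Icc 1 (M / y), (l : ℝ)⁻¹ + ((M / y : ℕ) : ℝ) := by
    rw [Finset.sum_add_distrib, Finset.mul_sum, Finset.sum_const, Nat.card_Icc,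
      Nat.add_sub_cancel, nsmul_eq_mul, mul_one]
    congr 1
    apply Finset.sum_congr rfl
    intro l _
    rw [mul_comm (l : ℝ), ← div_div, div_eq_mul_inv (M / y : ℝ)]
  have h2 : ∑ l ∈ Icc 1 (M / y), (l : ℝ)⁻¹ ≤ 1 + Real.log M := by
    have h3 := harmonic_le_one_add_log (M / y)
    rw [harmonic_eq_sum_Icc] at h3
    push_cast at h3
    refine h3.trans ?_
    have h4 : Real.log ((M / y : ℕ) : ℝ) ≤ Real.log M := by
      rcases Nat.eq_zero_or_pos (M / y) with h | h
      · rw [h]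
        simpa using Real.log_nonneg hM'
      · apply Real.log_le_log (by exact_mod_cast h)
        exact_mod_cast Nat.div_le_self M y
    linarith
  have h5 : ((M / y : ℕ) : ℝ) ≤ M / y := Nat.cast_div_le
  rw [h1]
  have h6 : (0 : ℝ) ≤ M / y := by positivity
  nlinarith [mul_le_mul_of_nonneg_left h2 h6]

theorem union_bound (M y S U : ℕ) (hM : 2 ≤ M) (hy : 1 ≤ y) (A : Finset ℕ)
    (hA : ∀ m ∈ A, m ∈ Icc 1 M ∧ ∃ l P e : ℕ, ∃ v : ℕ → ℕ, l ∣ m ∧ l * y ≤ M ∧
      l.primeFactors.card ≤ S ∧ P.Prime ∧ y < P ∧ P ∣ m + 1 ∧ e ≤ U ∧ (∀ q, v q ≤ U) ∧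
      (l : ℤ) ^ e - (-1) ^ e * ∏ q ∈ l.primeFactors, (q : ℤ) ^ v q ≠ 0 ∧
      (P : ℤ) ∣ (l : ℤ) ^ e - (-1) ^ e * ∏ q ∈ l.primeFactors, (q : ℤ) ^ v q) :
    (A.card : ℝ) ≤ M / y * (2 + Real.log M) * (U + 1) ^ (S + 2) * (Nat.log 2 M + 3) := by
  classical
  set Lset := (Icc 1 (M / y)).filter fun l => l.primeFactors.card ≤ S with hLset
  let B : ℕ → ℕ → Finset ℕ := fun l P => (Icc 1 M).filter fun m => l ∣ m ∧ P ∣ m + 1
  have hsub : A ⊆ Lset.biUnion fun l => (range (U + 1)).biUnion fun e =>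
      (l.primeFactors.pi fun _ => range (U + 1)).biUnion fun w =>
        ((msFD l e w).natAbs.primeFactors.filter fun P => y < P).biUnion fun P => B l P := by
    intro m hm
    obtain ⟨hmM, l, P, e, v, hlm, hly, hlS, hP, hyP, hPm, heU, hvU, hD0, hDP⟩ := hA m hm
    have hm' := mem_Icc.1 hmM
    have hl1 : 1 ≤ l := Nat.pos_of_dvd_of_pos hlm hm'.1
    have hDeq : msFD l e (fun q _ => v q) =
        (l : ℤ) ^ e - (-1) ^ e * ∏ q ∈ l.primeFactors, (q : ℤ) ^ v q := by
      unfold msFD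
      rw [Finset.prod_attach l.primeFactors (fun q => ((q : ℕ) : ℤ) ^ v q)]
    rw [mem_biUnion]
    refine ⟨l, ?_, ?_⟩
    · rw [hLset, mem_filter, mem_Icc]
      exact ⟨⟨hl1, (Nat.le_div_iff_mul_le hy).2 hly⟩, hlS⟩
    rw [mem_biUnion]
    refine ⟨e, mem_range.2 (Nat.lt_succ_of_le heU), ?_⟩
    rw [mem_biUnion]
    refine ⟨fun q _ => v q, ?_, ?_⟩
    · rw [mem_pi]
      intro q _
      exact mem_range.2 (Nat.lt_succ_of_le (hvU q))
    rw [mem_biUnion]
    refine ⟨P, ?_, ?_⟩
    · rw [mem_filter, Nat.mem_primeFactors]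
      refine ⟨⟨hP, ?_, ?_⟩, hyP⟩
      · rw [hDeq]
        exact Int.natCast_dvd.1 hDP
      · rw [hDeq]
        exact Int.natAbs_ne_zero.2 hD0
    · rw [mem_filter]
      exact ⟨hmM, hlm, hPm⟩
  have hcast : (A.card : ℝ) ≤ ∑ l ∈ Lset, ∑ e ∈ range (U + 1),
      ∑ w ∈ l.primeFactors.pi fun _ => range (U + 1),
        ∑ P ∈ (msFD l e w).natAbs.primeFactors.filter fun P => y < P, ((B l P).card : ℝ) := by
    have h1 : A.card ≤ ∑ l ∈ Lset, ∑ e ∈ range (U + 1),
        ∑ w ∈ l.primeFactors.pi fun _ => range (U + 1),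
          ∑ P ∈ (msFD l e w).natAbs.primeFactors.filter fun P => y < P, (B l P).card := by
      refine (card_le_card hsub).trans (card_biUnion_le.trans ?_)
      apply Finset.sum_le_sum
      intro l _
      refine card_biUnion_le.trans ?_
      apply Finset.sum_le_sum
      intro e _
      refine card_biUnion_le.trans ?_
      apply Finset.sum_le_sum
      intro w _
      exact card_biUnion_le
    exact_mod_cast h1
  refine hcast.trans ?_
  set NP : ℝ := (U + 1) * (Nat.log 2 M + 3) with hNP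
  have hNP0 : 0 ≤ NP := by positivity
  have hy' : (0 : ℝ) < y := by exact_mod_cast hy
  have hU1 : (1 : ℝ) ≤ (U : ℝ) + 1 := by
    have := Nat.cast_nonneg (α := ℝ) U
    linarith
  have hin : ∀ l ∈ Lset, ∑ e ∈ range (U + 1),
      ∑ w ∈ l.primeFactors.pi fun _ => range (U + 1),
        ∑ P ∈ (msFD l e w).natAbs.primeFactors.filter fun P => y < P, ((B l P).card : ℝ) ≤
      (U + 1) * ((U + 1) ^ S * (NP * ((M : ℝ) / (l * y) + 1))) := by
    intro l hl
    rw [hLset, mem_filter, mem_Icc] at hl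
    obtain ⟨⟨hl1, hl2⟩, hlS⟩ := hl
    have hlM : l ≤ M := hl2.trans (Nat.div_le_self M y)
    have hpos : (0 : ℝ) ≤ (M : ℝ) / (l * y) + 1 := by positivity
    calc ∑ e ∈ range (U + 1), ∑ w ∈ l.primeFactors.pi fun _ => range (U + 1),
          ∑ P ∈ (msFD l e w).natAbs.primeFactors.filter fun P => y < P, ((B l P).card : ℝ)
        ≤ ∑ e ∈ range (U + 1), ∑ w ∈ l.primeFactors.pi fun _ => range (U + 1),
          (NP * ((M : ℝ) / (l * y) + 1)) := by
          apply Finset.sum_le_sum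
          intro e he
          apply Finset.sum_le_sum
          intro w hw
          have he' : e ≤ U := Nat.le_of_lt_succ (mem_range.1 he)
          have hw' : ∀ q hq, w q hq ≤ U := fun q hq =>
            Nat.le_of_lt_succ (mem_range.1 (mem_pi.1 hw q hq))
          calc ∑ P ∈ (msFD l e w).natAbs.primeFactors.filter fun P => y < P, ((B l P).card : ℝ)
              ≤ ∑ P ∈ (msFD l e w).natAbs.primeFactors.filter fun P => y < P,
                ((M : ℝ) / (l * y) + 1) := by
                apply Finset.sum_le_sum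
                intro P hP
                rw [mem_filter] at hP
                exact msF_class M l P y hl1 hy (Nat.prime_of_mem_primeFactors hP.1) hP.2
            _ = (((msFD l e w).natAbs.primeFactors.filter fun P => y < P).card : ℝ) *
                ((M : ℝ) / (l * y) + 1) := by
                rw [Finset.sum_const, nsmul_eq_mul]
            _ ≤ NP * ((M : ℝ) / (l * y) + 1) := by
                apply mul_le_mul_of_nonneg_right _ hpos
                have h1 := (card_filter_le (msFD l e w).natAbs.primeFactors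
                  (fun P => y < P)).trans (msF_primes M l e U hl1 hlM he' w hw')
                rw [hNP]
                exact_mod_cast h1
      _ = (U + 1) * ((U + 1) ^ l.primeFactors.card * (NP * ((M : ℝ) / (l * y) + 1))) := by
          rw [Finset.sum_const, Finset.sum_const, card_range, card_pi, Finset.prod_const,
            card_range, nsmul_eq_mul, nsmul_eq_mul]
          push_cast
          ring
      _ ≤ (U + 1) * ((U + 1) ^ S * (NP * ((M : ℝ) / (l * y) + 1))) := by
          apply mul_le_mul_of_nonneg_left _ (by linarith)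
          apply mul_le_mul_of_nonneg_right _ (mul_nonneg hNP0 hpos)
          exact pow_le_pow_right₀ hU1 hlS
  calc ∑ l ∈ Lset, ∑ e ∈ range (U + 1), ∑ w ∈ l.primeFactors.pi fun _ => range (U + 1),
        ∑ P ∈ (msFD l e w).natAbs.primeFactors.filter fun P => y < P, ((B l P).card : ℝ)
      ≤ ∑ l ∈ Lset, (U + 1) * ((U + 1) ^ S * (NP * ((M : ℝ) / (l * y) + 1))) :=
        Finset.sum_le_sum hin
    _ ≤ ∑ l ∈ Icc 1 (M / y), (U + 1) * ((U + 1) ^ S * (NP * ((M : ℝ) / (l * y) + 1))) := by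
        apply Finset.sum_le_sum_of_subset_of_nonneg (filter_subset _ _)
        intro l _ _
        positivity
    _ = (U + 1) * ((U + 1) ^ S * NP) * ∑ l ∈ Icc 1 (M / y), ((M : ℝ) / (l * y) + 1) := by
        rw [Finset.mul_sum]
        apply Finset.sum_congr rfl
        intro l _
        ring
    _ ≤ (U + 1) * ((U + 1) ^ S * NP) * (M / y * (2 + Real.log M)) := by
        apply mul_le_mul_of_nonneg_left (msF_sum M y (by omega) hy)
        positivity
    _ = _ := by
        rw [hNP]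
        ring

end Pool.Agent.MS
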