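import Pool.Agent.Lib.BAKER.Defs
import Pool.Agent.Lib.MP_31e8d2_nt.MsA
import Pool.Agent.Lib.MP_31e8d2_nt.MsB
import Pool.Agent.Lib.MP_31e8d2_nt.MsC
import Pool.Agent.Lib.MP_31e8d2_nt.MsD
import Pool.Agent.Lib.MP_31e8d2_nt.MsE
import Pool.Agent.Lib.MP_31e8d2_nt.MsF

/-!
# Motzkin–Straus pairs, module CG: counting
-/

namespace Pool.Agent.MS

open Finset

/-- the members of the set which are treated by `union_bound` -/
theorem CG_main (M S y U : ℕ) (hM : 3 ≤ M)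
    (hU : (10 ^ 7 * (2 * S) ^ 10 * Real.log (M + 2)) ^ (24 * (2 * S) ^ 2) ≤ (U : ℝ))
    (m n : ℕ) (hm3 : 3 ≤ m) (hmM : m ≤ M) (hn : 1 ≤ n)
    (h1 : m.primeFactors = (n + 1).primeFactors) (h2 : n.primeFactors = (m + 1).primeFactors)
    (hfam : ∀ k : ℕ, m ≠ 2 ^ k + 1) (hS1 : m.primeFactors.card ≤ S)
    (hS2 : (m + 1).primeFactors.card ≤ S)
    (hp : ∃ p ∈ m.primeFactors, y < p) (hP : ∃ p ∈ (m + 1).primeFactors, y < p)
    (hsq : ∀ p : ℕ, p.Prime → y < p → ¬ p ^ 2 ∣ m) :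
    ∃ l P e : ℕ, ∃ v : ℕ → ℕ, l ∣ m ∧ l * y ≤ M ∧
      l.primeFactors.card ≤ S ∧ P.Prime ∧ y < P ∧ P ∣ m + 1 ∧ e ≤ U ∧ (∀ q, v q ≤ U) ∧
      (l : ℤ) ^ e - (-1) ^ e * ∏ q ∈ l.primeFactors, (q : ℤ) ^ v q ≠ 0 ∧
      (P : ℤ) ∣ (l : ℤ) ^ e - (-1) ^ e * ∏ q ∈ l.primeFactors, (q : ℤ) ^ v q := by
  obtain ⟨p, hp1, hp2⟩ := hp
  obtain ⟨P, hP1, hP2⟩ := hP
  have hpp : p.Prime := Nat.prime_of_mem_primeFactors hp1
  have hPP : P.Prime := Nat.prime_of_mem_primeFactors hP1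
  obtain ⟨l, hl⟩ := Nat.dvd_of_mem_primeFactors hp1
  have hpl : ¬ p ∣ l := by
    rintro ⟨t, ht⟩
    refine hsq p hpp hp2 ⟨t, ?_⟩
    rw [hl, ht]
    ring
  obtain ⟨e, v, he, hv, hne, hdvd⟩ := key m n p P l hpp hl hpl hn h1 h2 hPP
    (Nat.dvd_of_mem_primeFactors hP1) hm3 hfam
  have hex := expo (M + 2) m n (2 * S) (by omega) (by omega) (by omega) hn h1 h2 (by omega)
  have hlog : Nat.log 2 (n + 1) ≤ U := by
    have h3 : (Nat.log 2 (n + 1) : ℝ) < U := by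
      refine lt_of_lt_of_le hex ?_
      push_cast
      exact hU
    exact_mod_cast h3.le
  have hm0 : m ≠ 0 := by omega
  refine ⟨l, P, e, v, ⟨p, by rw [hl]; ring⟩, ?_, ?_, hPP, hP2, Nat.dvd_of_mem_primeFactors hP1,
    he.trans hlog, fun q => (hv q).trans hlog, hne, hdvd⟩
  · calc l * y ≤ l * p := Nat.mul_le_mul_left l hp2.le
      _ = m := by rw [hl]; ring
      _ ≤ M := hmM
  · exact (card_le_card (Nat.primeFactors_mono ⟨p, by rw [hl]; ring⟩ hm0)).trans hS1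

/-- counting by a shift -/
theorem CG_shift (M : ℕ) (Q : ℕ → Prop) [DecidablePred Q] :
    ((Icc 1 M).filter fun m => Q (m + 1)).card ≤ ((Icc 1 (M + 1)).filter fun m => Q m).card := by
  refine card_le_card_of_injOn (fun m => m + 1) ?_ ?_
  · intro m hm
    rw [mem_coe, mem_filter, mem_Icc] at hm
    show m + 1 ∈ _
    rw [mem_coe, mem_filter, mem_Icc]
    exact ⟨by omega, hm.2⟩
  · intro a _ b _ hab
    simpa using hab

theorem count (M S y U : ℕ) (hM : 3 ≤ M) (hy : 1 ≤ y)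
    (hU : (10 ^ 7 * (2 * S) ^ 10 * Real.log (M + 2)) ^ (24 * (2 * S) ^ 2) ≤ (U : ℝ)) :
    (Set.ncard {m : ℕ | 1 ≤ m ∧ m ≤ M ∧ ∃ n : ℕ, 1 ≤ n ∧
      m.primeFactors = (n + 1).primeFactors ∧ n.primeFactors = (m + 1).primeFactors} : ℝ) ≤
      4 + Real.log (M + 1) / Real.log 2 + 2 * ((M + 1) * (1 + Real.log (M + 1)) / 2 ^ (S + 1)) +
      2 * (1 + y * Nat.log 2 (M + 1)) ^ S + M / y +
      M / y * (2 + Real.log M) * (U + 1) ^ (S + 2) * (Nat.log 2 M + 3) := by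
  classical
  let E : Set ℕ := {m : ℕ | 1 ≤ m ∧ m ≤ M ∧ ∃ n : ℕ, 1 ≤ n ∧
      m.primeFactors = (n + 1).primeFactors ∧ n.primeFactors = (m + 1).primeFactors}
  let A1 : Finset ℕ := {1, 2} ∪ (range (Nat.log 2 M + 1)).image (fun k => 2 ^ k + 1)
  let A2 : Finset ℕ := (Icc 1 M).filter fun m => S + 1 ≤ m.primeFactors.card
  let A3 : Finset ℕ := (Icc 1 M).filter fun m => S + 1 ≤ (m + 1).primeFactors.card
  let A4 : Finset ℕ := (Icc 1 M).filter fun m => m.primeFactors.card ≤ S ∧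
    ∀ p ∈ m.primeFactors, p ≤ y
  let A5 : Finset ℕ := (Icc 1 M).filter fun m => (m + 1).primeFactors.card ≤ S ∧
    ∀ p ∈ (m + 1).primeFactors, p ≤ y
  let A6 : Set ℕ := {m : ℕ | m ∈ Icc 1 M ∧ ∃ p : ℕ, p.Prime ∧ y < p ∧ p ^ 2 ∣ m}
  let A7 : Finset ℕ := (Icc 1 M).filter fun m => ∃ l P e : ℕ, ∃ v : ℕ → ℕ, l ∣ m ∧ l * y ≤ M ∧
      l.primeFactors.card ≤ S ∧ P.Prime ∧ y < P ∧ P ∣ m + 1 ∧ e ≤ U ∧ (∀ q, v q ≤ U) ∧
      (l : ℤ) ^ e - (-1) ^ e * ∏ q ∈ l.primeFactors, (q : ℤ) ^ v q ≠ 0 ∧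
      (P : ℤ) ∣ (l : ℤ) ^ e - (-1) ^ e * ∏ q ∈ l.primeFactors, (q : ℤ) ^ v q
  have hcover : E ⊆ ((A1 ∪ A2 ∪ A3 ∪ A4 ∪ A5 ∪ A7 : Finset ℕ) : Set ℕ) ∪ A6 := by
    rintro m ⟨hm1, hmM, n, hn, h1, h2⟩
    have hmI : m ∈ Icc 1 M := mem_Icc.2 ⟨hm1, hmM⟩
    by_cases c1 : m ∈ A1
    · left
      simp only [coe_union, Set.mem_union, mem_coe]
      tauto
    by_cases c2 : m ∈ A2
    · left
      simp only [coe_union, Set.mem_union, mem_coe]
      tauto
    by_cases c3 : m ∈ A3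
    · left
      simp only [coe_union, Set.mem_union, mem_coe]
      tauto
    by_cases c4 : m ∈ A4
    · left
      simp only [coe_union, Set.mem_union, mem_coe]
      tauto
    by_cases c5 : m ∈ A5
    · left
      simp only [coe_union, Set.mem_union, mem_coe]
      tauto
    by_cases c6 : m ∈ A6
    · right
      exact c6
    left
    have hS1 : m.primeFactors.card ≤ S := by
      by_contra hc
      exact c2 (mem_filter.2 ⟨hmI, by omega⟩)
    have hS2 : (m + 1).primeFactors.card ≤ S := by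
      by_contra hc
      exact c3 (mem_filter.2 ⟨hmI, by omega⟩)
    have hm3 : 3 ≤ m := by
      by_contra hc
      apply c1
      refine mem_union_left _ ?_
      rw [mem_insert, mem_singleton]
      omega
    have hfam : ∀ k : ℕ, m ≠ 2 ^ k + 1 := by
      intro k hk
      apply c1
      refine mem_union_right _ (mem_image.2 ⟨k, ?_, hk.symm⟩)
      rw [mem_range]
      have h3 : k ≤ Nat.log 2 M := Nat.le_log_of_pow_le (by norm_num) (by omega)
      omega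
    have hp : ∃ p ∈ m.primeFactors, y < p := by
      by_contra hc
      push Not at hc
      exact c4 (mem_filter.2 ⟨hmI, hS1, hc⟩)
    have hP : ∃ p ∈ (m + 1).primeFactors, y < p := by
      by_contra hc
      push Not at hc
      refine c5 ?_
      simp only [A5, mem_filter]
      exact ⟨hmI, hS2, hc⟩
    have hsq : ∀ p : ℕ, p.Prime → y < p → ¬ p ^ 2 ∣ m := by
      intro p hp1 hp2 hp3
      exact c6 ⟨hmI, p, hp1, hp2, hp3⟩
    have h7 : m ∈ A7 := mem_filter.2 ⟨hmI,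
      CG_main M S y U hM hU m n hm3 hmM hn h1 h2 hfam hS1 hS2 hp hP hsq⟩
    simp only [coe_union, Set.mem_union, mem_coe]
    tauto
  have hfin6 : A6.Finite := (Icc 1 M).finite_toSet.subset fun m hm => mem_coe.2 hm.1
  have hcard : (Set.ncard E : ℝ) ≤ (A1.card : ℝ) + A2.card + A3.card + A4.card + A5.card +
      A7.card + (Set.ncard A6 : ℝ) := by
    have k1 : Set.ncard E ≤
        Set.ncard (((A1 ∪ A2 ∪ A3 ∪ A4 ∪ A5 ∪ A7 : Finset ℕ) : Set ℕ) ∪ A6) :=
      Set.ncard_le_ncard hcover ((finite_toSet _).union hfin6)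
    have k2 := Set.ncard_union_le ((A1 ∪ A2 ∪ A3 ∪ A4 ∪ A5 ∪ A7 : Finset ℕ) : Set ℕ) A6
    rw [Set.ncard_coe_finset] at k2
    have k3 := card_union_le (A1 ∪ A2 ∪ A3 ∪ A4 ∪ A5) A7
    have k4 := card_union_le (A1 ∪ A2 ∪ A3 ∪ A4) A5
    have k5 := card_union_le (A1 ∪ A2 ∪ A3) A4
    have k6 := card_union_le (A1 ∪ A2) A3
    have k7 := card_union_le A1 A2
    have k8 : Set.ncard E ≤ A1.card + A2.card + A3.card + A4.card + A5.card + A7.card +
        Set.ncard A6 := by omega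
    exact_mod_cast k8
  have hM1 : (1 : ℝ) ≤ M := by exact_mod_cast (by omega : 1 ≤ M)
  have hlogM : Real.log M ≤ Real.log (M + 1) := Real.log_le_log (by linarith) (by linarith)
  have hlogM0 : 0 ≤ Real.log M := Real.log_nonneg hM1
  -- bounds
  have b1 : (A1.card : ℝ) ≤ 4 + Real.log (M + 1) / Real.log 2 := by
    have k1 : A1.card ≤ 2 + (Nat.log 2 M + 1) := by
      refine (card_union_le _ _).trans (Nat.add_le_add ?_ ?_)
      · exact (card_insert_le _ _).trans (by simp)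
      · exact card_image_le.trans (by simp)
    have k2 : (Nat.log 2 M : ℝ) ≤ Real.log M / Real.log 2 := by
      have k3 : 2 ^ Nat.log 2 M ≤ M := Nat.pow_log_le_self 2 (by omega)
      have k4 : (2 : ℝ) ^ Nat.log 2 M ≤ M := by exact_mod_cast k3
      have k5 := Real.log_le_log (by positivity) k4
      rw [Real.log_pow] at k5
      rw [le_div_iff₀ (Real.log_pos (by norm_num))]
      exact k5
    have k6 : Real.log M / Real.log 2 ≤ Real.log (M + 1) / Real.log 2 :=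
      div_le_div_of_nonneg_right hlogM (Real.log_pos (by norm_num)).le
    have k7 : (A1.card : ℝ) ≤ 2 + (Nat.log 2 M + 1) := by exact_mod_cast k1
    linarith
  have b2 : (A2.card : ℝ) ≤ (M + 1) * (1 + Real.log (M + 1)) / 2 ^ (S + 1) := by
    refine (many_factors M (S + 1) (by omega)).trans ?_
    refine div_le_div_of_nonneg_right ?_ (by positivity)
    exact mul_le_mul (by linarith) (by linarith) (by linarith) (by linarith)
  have b3 : (A3.card : ℝ) ≤ (M + 1) * (1 + Real.log (M + 1)) / 2 ^ (S + 1) := by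
    have k1 := CG_shift M (fun m => S + 1 ≤ m.primeFactors.card)
    have k2 := many_factors (M + 1) (S + 1) (by omega)
    push_cast at k2
    refine le_trans ?_ k2
    exact_mod_cast k1
  have b4 : (A4.card : ℝ) ≤ (1 + y * Nat.log 2 (M + 1)) ^ S := by
    have k1 := smooth_few M S y (by omega)
    have k2 : Nat.log 2 M ≤ Nat.log 2 (M + 1) := Nat.log_mono_right (by omega)
    have k3 : (1 + y * Nat.log 2 M) ^ S ≤ (1 + y * Nat.log 2 (M + 1)) ^ S :=
      Nat.pow_le_pow_left (Nat.add_le_add_left (Nat.mul_le_mul_left y k2) 1) S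
    exact_mod_cast k1.trans k3
  have b5 : (A5.card : ℝ) ≤ (1 + y * Nat.log 2 (M + 1)) ^ S := by
    have k1 := CG_shift M (fun m => m.primeFactors.card ≤ S ∧ ∀ p ∈ m.primeFactors, p ≤ y)
    have k2 := smooth_few (M + 1) S y (by omega)
    have k0 : A5.card ≤ ((Icc 1 M).filter fun m => (m + 1).primeFactors.card ≤ S ∧
        ∀ p ∈ (m + 1).primeFactors, p ≤ y).card := by
      refine card_le_card ?_
      intro m hm
      simp only [A5, mem_filter] at hm ⊢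
      exact hm
    exact_mod_cast k0.trans (k1.trans k2)
  have b6 : (Set.ncard A6 : ℝ) ≤ M / y := big_square M y hy
  have b7 : (A7.card : ℝ) ≤
      M / y * (2 + Real.log M) * (U + 1) ^ (S + 2) * (Nat.log 2 M + 3) := by
    refine union_bound M y S U (by omega) hy A7 ?_
    intro m hm
    exact mem_filter.1 hm
  have hE : (Set.ncard {m : ℕ | 1 ≤ m ∧ m ≤ M ∧ ∃ n : ℕ, 1 ≤ n ∧
      m.primeFactors = (n + 1).primeFactors ∧ n.primeFactors = (m + 1).primeFactors} : ℝ) =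
      (Set.ncard E : ℝ) := rfl
  rw [hE]
  linarith

end Pool.Agent.MS
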