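import Mathlib

/-!
# BAKER, module CH: asymptotics of the parameters (MP_31e8d2_nt)
-/

namespace Pool.Agent.MS

open Finset

/-- Growth of `log` against powers of the basic parameter `t`. -/
theorem MsH_pow_le_exp {t : ℝ} (ht : 1000 ≤ t) (hlog : 40 * Real.log t ≤ t) (k : ℕ) :
    t ^ k ≤ Real.exp (k * t / 40) := by
  have ht0 : 0 < t := by linarith
  have h1 : t ^ k = Real.exp (k * Real.log t) := by
    rw [mul_comm, Real.exp_mul, Real.exp_log ht0, Real.rpow_natCast]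
  rw [h1]
  apply Real.exp_le_exp.2
  have : (0 : ℝ) ≤ k := Nat.cast_nonneg k
  nlinarith

theorem MsH_natlog (m : ℕ) : ((Nat.log 2 m : ℕ) : ℝ) ≤ 2 * Real.log m := by
  rcases Nat.eq_zero_or_pos m with h | h
  · subst h; simp
  · have h1 : 2 ^ Nat.log 2 m ≤ m := Nat.pow_log_le_self 2 h.ne'
    have h2 : ((2 : ℝ)) ^ Nat.log 2 m ≤ m := by exact_mod_cast h1
    have h3 := Real.log_le_log (by positivity) h2
    rw [Real.log_pow] at h3
    have h4 : (1 : ℝ) / 2 ≤ Real.log 2 := by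
      have := Real.log_two_gt_d9; linarith
    have h5 : (0 : ℝ) ≤ (Nat.log 2 m : ℕ) := Nat.cast_nonneg _
    nlinarith

theorem MsH_core (M : ℕ) (x t : ℝ) (hx : x = Real.log M) (htx : t ^ 40 = x) (ht : 1000 ≤ t)
    (hlog : 40 * Real.log t ≤ t) (hM : 1 ≤ M) : ∃ S y U : ℕ, 1 ≤ y ∧
    (10 ^ 7 * (2 * S) ^ 10 * Real.log (M + 2)) ^ (24 * (2 * S) ^ 2) ≤ (U : ℝ) ∧
      4 + Real.log (M + 1) / Real.log 2 + 2 * ((M + 1) * (1 + Real.log (M + 1)) / 2 ^ (S + 1)) +
      2 * (1 + y * Nat.log 2 (M + 1)) ^ S + M / y +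
      M / y * (2 + Real.log M) * (U + 1) ^ (S + 2) * (Nat.log 2 M + 3) ≤
      M * Real.exp (-(t ^ 8)) := by
  have ht0 : 0 < t := by linarith
  have ht1 : 1 ≤ t := by linarith
  have hpow := fun k => MsH_pow_le_exp ht hlog k
  have hMpos : (0 : ℝ) < M := by exact_mod_cast hM
  have hM1 : (1 : ℝ) ≤ M := by exact_mod_cast hM
  have hMx : (M : ℝ) = Real.exp x := by rw [hx, Real.exp_log hMpos]
  have hxt : x = t ^ 40 := htx.symm
  have hx1 : 1 ≤ x := by rw [hxt]; exact one_le_pow₀ ht1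
  have hx0 : 0 < x := by linarith
  have he1 : (2 : ℝ) ≤ Real.exp 1 := by have := Real.add_one_le_exp (1 : ℝ); linarith
  have he2 : (3 : ℝ) ≤ Real.exp 2 := by have := Real.add_one_le_exp (2 : ℝ); linarith
  have he5 : (5 : ℝ) ≤ Real.exp 2 := by
    have h := Real.exp_one_gt_d9
    have h2 : Real.exp 2 = Real.exp 1 * Real.exp 1 := by rw [← Real.exp_add]; norm_num
    rw [h2]; nlinarith
  have hlog2 : (1 : ℝ) / 2 ≤ Real.log 2 := by have := Real.log_two_gt_d9; linarith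
  -- log (M+1), log (M+2)
  have hL1 : Real.log (M + 1) ≤ x + 1 := by
    rw [Real.log_le_iff_le_exp (by positivity), Real.exp_add, ← hMx]
    nlinarith
  have hL10 : 0 ≤ Real.log (M + 1) := Real.log_nonneg (by linarith)
  have hL2 : Real.log (M + 2) ≤ x + 2 := by
    rw [Real.log_le_iff_le_exp (by positivity), Real.exp_add, ← hMx]
    nlinarith
  have hL20 : 0 ≤ Real.log (M + 2) := Real.log_nonneg (by linarith)
  -- powers of t
  have hp1 : ∀ a b : ℕ, a ≤ b → t ^ a ≤ t ^ b := fun a b h => pow_le_pow_right₀ ht1 h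
  have hpp : ∀ a : ℕ, 1 ≤ t ^ a := fun a => one_le_pow₀ ht1
  have hx41a : 2 * x + 6 ≤ t ^ 41 := by
    rw [hxt]
    have : t ^ 41 = t * t ^ 40 := by ring
    rw [this]; nlinarith [hpp 40]
  set S : ℕ := ⌊t ^ 9⌋₊ with hS
  have hS1 : (S : ℝ) ≤ t ^ 9 := Nat.floor_le (by positivity)
  have hS2 : t ^ 9 < S + 1 := Nat.lt_floor_add_one _
  have hS3 : 1 ≤ S := by
    rw [hS]; exact Nat.le_floor (by simpa using hpp 9)
  have hS3' : (1 : ℝ) ≤ S := by exact_mod_cast hS3
  have hS0 : (0 : ℝ) < S := by linarith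
  set y : ℕ := ⌊Real.exp (x / (2 * S))⌋₊ with hy
  have hy1 : (y : ℝ) ≤ Real.exp (x / (2 * S)) := Nat.floor_le (by positivity)
  have hy2 : Real.exp (x / (2 * S)) < y + 1 := Nat.lt_floor_add_one _
  have hy3 : 1 ≤ y := by
    rw [hy]; apply Nat.le_floor
    have : 0 ≤ x / (2 * S) := by positivity
    simpa using Real.one_le_exp this
  have hy3' : (1 : ℝ) ≤ y := by exact_mod_cast hy3
  have hy0 : (0 : ℝ) < y := by linarith
  -- 1/y
  have hxS : t ^ 31 / 2 ≤ x / (2 * S) := by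
    rw [le_div_iff₀ (by positivity), hxt]
    have : t ^ 40 = t ^ 31 * t ^ 9 := by ring
    rw [this]
    have h31 : 0 ≤ t ^ 31 := by positivity
    nlinarith
  have hyinv : 1 / (y : ℝ) ≤ Real.exp (1 - t ^ 31 / 2) := by
    rw [Real.exp_sub, div_le_div_iff₀ hy0 (Real.exp_pos _)]
    have h1 : Real.exp (t ^ 31 / 2) ≤ Real.exp (x / (2 * S)) := Real.exp_le_exp.2 hxS
    nlinarith
  set W : ℝ := (10 ^ 7 * (2 * S) ^ 10 * Real.log (M + 2)) ^ (24 * (2 * S) ^ 2) with hW
  have hB0 : 0 ≤ 10 ^ 7 * (2 * (S : ℝ)) ^ 10 * Real.log (M + 2) := by positivity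
  have hB1 : 10 ^ 7 * (2 * (S : ℝ)) ^ 10 * Real.log (M + 2) ≤ Real.exp (4 * t) := by
    have h1 : (2 * (S : ℝ)) ^ 10 ≤ (2 * t ^ 9) ^ 10 := by gcongr
    have h2 : Real.log (M + 2) ≤ t ^ 41 := by linarith
    calc 10 ^ 7 * (2 * (S : ℝ)) ^ 10 * Real.log (M + 2)
        ≤ 10 ^ 7 * (2 * t ^ 9) ^ 10 * t ^ 41 := by gcongr
      _ = (10 ^ 7 * 2 ^ 10) * t ^ 131 := by ring
      _ ≤ t ^ 4 * t ^ 131 := by
          apply mul_le_mul_of_nonneg_right _ (by positivity)
          calc (10 ^ 7 * 2 ^ 10 : ℝ) ≤ 1000 ^ 4 := by norm_num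
            _ ≤ t ^ 4 := by gcongr
      _ = t ^ 135 := by ring
      _ ≤ Real.exp ((135 : ℕ) * t / 40) := hpow 135
      _ ≤ Real.exp (4 * t) := by
          apply Real.exp_le_exp.2; push_cast; linarith
  have hW0 : 0 ≤ W := by rw [hW]; exact pow_nonneg hB0 _
  have hW1 : W ≤ Real.exp (384 * t ^ 19) := by
    have hSS : ((S : ℝ)) ^ 2 ≤ t ^ 18 := by
      calc ((S : ℝ)) ^ 2 ≤ (t ^ 9) ^ 2 := by gcongr
        _ = t ^ 18 := by ring
    calc W ≤ (Real.exp (4 * t)) ^ (24 * (2 * S) ^ 2) := by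
            rw [hW]; exact pow_le_pow_left₀ hB0 hB1 _
      _ = Real.exp ((24 * (2 * S) ^ 2 : ℕ) * (4 * t)) := by rw [← Real.exp_nat_mul]
      _ ≤ Real.exp (384 * t ^ 19) := by
          apply Real.exp_le_exp.2
          push_cast
          have : 384 * t ^ 19 = 384 * t * t ^ 18 := by ring
          rw [this]
          nlinarith
  set U : ℕ := ⌈W⌉₊ with hU
  have hU1 : W ≤ U := Nat.le_ceil _
  have hU2 : (U : ℝ) < W + 1 := Nat.ceil_lt_add_one hW0
  have hUexp : ((U : ℝ) + 1) ≤ Real.exp (385 * t ^ 19) := by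
    have h1 : Real.exp (384 * t ^ 19 + 2) = Real.exp (384 * t ^ 19) * Real.exp 2 := Real.exp_add _ _
    have h2 : 1 ≤ Real.exp (384 * t ^ 19) := Real.one_le_exp (by positivity)
    have h3 : Real.exp (384 * t ^ 19 + 2) ≤ Real.exp (385 * t ^ 19) := by
      apply Real.exp_le_exp.2
      have : t ^ 1 ≤ t ^ 19 := hp1 1 19 (by norm_num)
      rw [pow_one] at this
      linarith
    nlinarith
  have hUpow : ((U : ℝ) + 1) ^ (S + 2) ≤ Real.exp (770 * t ^ 28) := by
    calc ((U : ℝ) + 1) ^ (S + 2) ≤ (Real.exp (385 * t ^ 19)) ^ (S + 2) := by gcongr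
      _ = Real.exp ((S + 2 : ℕ) * (385 * t ^ 19)) := by rw [← Real.exp_nat_mul]
      _ ≤ Real.exp (770 * t ^ 28) := by
          apply Real.exp_le_exp.2
          push_cast
          have h1 : (S : ℝ) + 2 ≤ 2 * t ^ 9 := by
            have : t ^ 1 ≤ t ^ 9 := hp1 1 9 (by norm_num)
            rw [pow_one] at this
            linarith
          have h2 : 770 * t ^ 28 = (2 * t ^ 9) * (385 * t ^ 19) := by ring
          rw [h2]
          exact mul_le_mul_of_nonneg_right h1 (by positivity)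
  set E : ℝ := Real.exp (-(t ^ 8) - 2) with hE
  have hE0 : 0 < E := Real.exp_pos _
  have hE5 : 5 * E ≤ Real.exp (-(t ^ 8)) := by
    have : Real.exp (-(t ^ 8)) = E * Real.exp 2 := by
      rw [hE, ← Real.exp_add]; congr 1; ring
    rw [this]; nlinarith
  -- comparison of powers
  have c9 : 1000 * t ^ 8 ≤ t ^ 9 := by
    have : t ^ 9 = t * t ^ 8 := by ring
    rw [this]; nlinarith [hpp 8]
  have c31 : 10 ^ 9 * t ^ 28 ≤ t ^ 31 := by
    have h1 : t ^ 31 = t ^ 3 * t ^ 28 := by ring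
    have h2 : (10 : ℝ) ^ 9 ≤ t ^ 3 := by
      calc (10 : ℝ) ^ 9 = 1000 ^ 3 := by norm_num
        _ ≤ t ^ 3 := by gcongr
    rw [h1]; exact mul_le_mul_of_nonneg_right h2 (by positivity)
  have c1_8 : t ≤ t ^ 8 := by simpa using hp1 1 8 (by norm_num)
  have c1_28 : t ≤ t ^ 28 := by simpa using hp1 1 28 (by norm_num)
  have c8_28 : t ^ 8 ≤ t ^ 28 := hp1 8 28 (by norm_num)
  have c10_28 : t ^ 10 ≤ t ^ 28 := hp1 10 28 (by norm_num)
  have c31_40 : t ^ 31 ≤ t ^ 40 := hp1 31 40 (by norm_num)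
  -- term 1
  have T1 : 4 + Real.log (M + 1) / Real.log 2 ≤ M * E := by
    have h1 : Real.log (M + 1) / Real.log 2 ≤ 2 * (x + 1) := by
      rw [div_le_iff₀ (by linarith)]
      nlinarith
    have h2 : 4 + Real.log (M + 1) / Real.log 2 ≤ t ^ 41 := by linarith
    refine h2.trans ((hpow 41).trans ?_)
    rw [hMx, hE, ← Real.exp_add]
    apply Real.exp_le_exp.2
    push_cast
    rw [hxt]
    linarith
  -- term 2
  have T2 : 2 * ((M + 1) * (1 + Real.log (M + 1)) / 2 ^ (S + 1)) ≤ M * E := by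
    have h1 : Real.exp (t ^ 9 / 2) ≤ (2 : ℝ) ^ (S + 1) := by
      have : (2 : ℝ) ^ (S + 1) = Real.exp ((S + 1 : ℕ) * Real.log 2) := by
        rw [Real.exp_nat_mul, Real.exp_log (by norm_num)]
      rw [this]
      apply Real.exp_le_exp.2
      push_cast
      nlinarith
    have h2 : (M + 1) * (1 + Real.log (M + 1)) / 2 ^ (S + 1) ≤
        (2 * M) * (2 + x) / Real.exp (t ^ 9 / 2) := by
      have h2a : 1 + Real.log (M + 1) ≤ 2 + x := by linarith
      have h2b : (M : ℝ) + 1 ≤ 2 * M := by linarith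
      exact div_le_div₀ (by positivity) (mul_le_mul h2b h2a (by positivity) (by positivity))
        (Real.exp_pos _) h1
    have h3 : 4 * (2 + x) ≤ t ^ 42 := by
      have : t ^ 42 = t * t ^ 41 := by ring
      rw [this]; nlinarith [hpp 41]
    calc 2 * ((M + 1) * (1 + Real.log (M + 1)) / 2 ^ (S + 1))
        ≤ 2 * ((2 * M) * (2 + x) / Real.exp (t ^ 9 / 2)) := by linarith
      _ = M * (4 * (2 + x) * Real.exp (-(t ^ 9 / 2))) := by
          rw [Real.exp_neg]; ring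
      _ ≤ M * E := by
          apply mul_le_mul_of_nonneg_left _ hMpos.le
          calc 4 * (2 + x) * Real.exp (-(t ^ 9 / 2))
              ≤ Real.exp ((42 : ℕ) * t / 40) * Real.exp (-(t ^ 9 / 2)) := by
                gcongr; exact h3.trans (hpow 42)
            _ = Real.exp ((42 : ℕ) * t / 40 + -(t ^ 9 / 2)) := by rw [Real.exp_add]
            _ ≤ E := by
                rw [hE]; apply Real.exp_le_exp.2; push_cast; linarith
  -- term 3
  have T3 : 2 * (1 + (y : ℝ) * Nat.log 2 (M + 1)) ^ S ≤ M * E := by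
    have h1 : ((Nat.log 2 (M + 1) : ℕ) : ℝ) ≤ 2 * (x + 1) := by
      have := MsH_natlog (M + 1)
      push_cast at this
      linarith
    have h2 : 1 + (y : ℝ) * Nat.log 2 (M + 1) ≤ y * t ^ 41 := by
      have h3 : (y : ℝ) * Nat.log 2 (M + 1) ≤ y * (2 * (x + 1)) :=
        mul_le_mul_of_nonneg_left h1 hy0.le
      have h4 : (y : ℝ) * (2 * x + 6) ≤ y * t ^ 41 := mul_le_mul_of_nonneg_left hx41a hy0.le
      nlinarith
    have h5 : (1 + (y : ℝ) * Nat.log 2 (M + 1)) ^ S ≤ (y * t ^ 41) ^ S := by gcongr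
    have h6 : ((y : ℝ)) ^ S ≤ Real.exp (x / 2) := by
      calc ((y : ℝ)) ^ S ≤ (Real.exp (x / (2 * S))) ^ S := by gcongr
        _ = Real.exp (S * (x / (2 * S))) := by rw [← Real.exp_nat_mul]
        _ = Real.exp (x / 2) := by congr 1; field_simp
    have h7 : (t ^ 41) ^ S ≤ Real.exp (2 * t ^ 10) := by
      calc (t ^ 41) ^ S ≤ (Real.exp ((41 : ℕ) * t / 40)) ^ S := by gcongr; exact hpow 41
        _ = Real.exp (S * ((41 : ℕ) * t / 40)) := by rw [← Real.exp_nat_mul]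
        _ ≤ Real.exp (2 * t ^ 10) := by
            apply Real.exp_le_exp.2
            push_cast
            have : t ^ 10 = t ^ 9 * t := by ring
            rw [this]
            have h8 : (S : ℝ) * t ≤ t ^ 9 * t := mul_le_mul_of_nonneg_right hS1 ht0.le
            nlinarith
    calc 2 * (1 + (y : ℝ) * Nat.log 2 (M + 1)) ^ S ≤ 2 * ((y : ℝ) * t ^ 41) ^ S := by linarith
      _ = 2 * (((y : ℝ)) ^ S * (t ^ 41) ^ S) := by rw [mul_pow]
      _ ≤ Real.exp 1 * (Real.exp (x / 2) * Real.exp (2 * t ^ 10)) := by gcongr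
      _ = Real.exp (1 + (x / 2 + 2 * t ^ 10)) := by rw [Real.exp_add, Real.exp_add]
      _ ≤ M * E := by
          rw [hMx, hE, ← Real.exp_add]
          apply Real.exp_le_exp.2
          rw [hxt]
          linarith
  -- term 4
  have T4 : (M : ℝ) / y ≤ M * E := by
    rw [div_eq_mul_one_div]
    apply mul_le_mul_of_nonneg_left _ hMpos.le
    refine hyinv.trans ?_
    rw [hE]; apply Real.exp_le_exp.2; linarith
  -- term 5
  have T5 : (M : ℝ) / y * (2 + Real.log M) * (U + 1) ^ (S + 2) * (Nat.log 2 M + 3) ≤ M * E := by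
    have h1 : ((Nat.log 2 M : ℕ) : ℝ) ≤ 2 * x := by rw [hx]; exact MsH_natlog M
    have h2 : (2 : ℝ) + Real.log M ≤ t ^ 41 := by rw [← hx]; linarith
    have h3 : ((Nat.log 2 M : ℕ) : ℝ) + 3 ≤ t ^ 41 := by linarith
    have hlM : 0 ≤ Real.log M := by rw [← hx]; exact hx0.le
    calc (M : ℝ) / y * (2 + Real.log M) * (U + 1) ^ (S + 2) * (Nat.log 2 M + 3)
        = M * ((1 / y) * (2 + Real.log M) * (U + 1) ^ (S + 2) * (Nat.log 2 M + 3)) := by ring
      _ ≤ M * (Real.exp (1 - t ^ 31 / 2) * t ^ 41 * Real.exp (770 * t ^ 28) * t ^ 41) := by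
          gcongr
      _ = M * (Real.exp (1 - t ^ 31 / 2) * Real.exp (770 * t ^ 28) * t ^ 82) := by ring
      _ ≤ M * (Real.exp (1 - t ^ 31 / 2) * Real.exp (770 * t ^ 28) *
            Real.exp ((82 : ℕ) * t / 40)) := by gcongr; exact hpow 82
      _ = M * Real.exp (1 - t ^ 31 / 2 + 770 * t ^ 28 + (82 : ℕ) * t / 40) := by
          rw [Real.exp_add, Real.exp_add]
      _ ≤ M * E := by
          apply mul_le_mul_of_nonneg_left _ hMpos.le
          rw [hE]; apply Real.exp_le_exp.2; push_cast; linarith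
  refine ⟨S, y, U, hy3, hU1, ?_⟩
  have hfin : (M : ℝ) * (5 * E) ≤ M * Real.exp (-(t ^ 8)) :=
    mul_le_mul_of_nonneg_left hE5 hMpos.le
  linarith

theorem asymp : ∀ᶠ M : ℕ in Filter.atTop, ∃ S y U : ℕ, 1 ≤ y ∧
    (10 ^ 7 * (2 * S) ^ 10 * Real.log (M + 2)) ^ (24 * (2 * S) ^ 2) ≤ (U : ℝ) ∧
      4 + Real.log (M + 1) / Real.log 2 + 2 * ((M + 1) * (1 + Real.log (M + 1)) / 2 ^ (S + 1)) +
      2 * (1 + y * Nat.log 2 (M + 1)) ^ S + M / y +
      M / y * (2 + Real.log M) * (U + 1) ^ (S + 2) * (Nat.log 2 M + 3) ≤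
      M * Real.exp (-(Real.log M) ^ ((1 : ℝ) / 5)) := by
  have hlogM : Filter.Tendsto (fun M : ℕ => Real.log (M : ℝ)) Filter.atTop Filter.atTop :=
    Real.tendsto_log_atTop.comp tendsto_natCast_atTop_atTop
  have h40 : Filter.Tendsto (fun x : ℝ => x ^ ((1 : ℝ) / 40)) Filter.atTop Filter.atTop :=
    tendsto_rpow_atTop (by norm_num)
  have hlo : ∀ᶠ x : ℝ in Filter.atTop, Real.log x ≤ x ^ ((1 : ℝ) / 40) := by
    have h := (isLittleO_log_rpow_atTop (r := (1 : ℝ) / 40) (by norm_num)).bound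
      (c := 1) (by norm_num)
    filter_upwards [h, Filter.eventually_ge_atTop (1 : ℝ)] with x hx h1
    rw [one_mul, Real.norm_of_nonneg (Real.log_nonneg h1),
      Real.norm_of_nonneg (Real.rpow_nonneg (by linarith) _)] at hx
    exact hx
  have e1 := hlogM.eventually ((h40.eventually (Filter.eventually_ge_atTop (1000 : ℝ))).and
    (hlo.and (Filter.eventually_ge_atTop (1 : ℝ))))
  filter_upwards [e1, Filter.eventually_ge_atTop 1] with M hM hM1
  obtain ⟨ha, hb, hc⟩ := hM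
  have hx0 : 0 ≤ Real.log (M : ℝ) := by linarith
  set x : ℝ := Real.log (M : ℝ) with hxdef
  set t : ℝ := x ^ ((1 : ℝ) / 40) with htdef
  have ht0 : 0 < t := by linarith
  have h1 : t ^ 40 = x := by
    rw [htdef, ← Real.rpow_natCast, ← Real.rpow_mul hx0]; norm_num
  have h8 : t ^ 8 = x ^ ((1 : ℝ) / 5) := by
    rw [htdef, ← Real.rpow_natCast, ← Real.rpow_mul hx0]; norm_num
  have h2 : 40 * Real.log t ≤ t := by
    have : Real.log x = 40 * Real.log t := by rw [← h1, Real.log_pow]; norm_num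
    rw [← this]; exact hb
  have hcore := MsH_core M x t hxdef h1 ha h2 hM1
  rw [h8] at hcore
  exact hcore

end Pool.Agent.MS
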