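import Pool.Agent.Lib.MP_31e8d2_nt.Defs

/-!
MP_31e8d2_nt, project MS2, module DA (helper81): the number of integers `k ≤ X` supported on the
primes of `D` is at most `C (D X) ^ ε` (Rankin's trick).
-/

namespace Pool.Agent.MS

open Finset

/-- The multiplicative function `n ↦ n ^ (-ε)`. -/
noncomputable def mtaF (ε : ℝ) : ℕ →* ℝ where
  toFun n := (n : ℝ) ^ (-ε)
  map_one' := by simp
  map_mul' m n := by
    push_cast
    exact Real.mul_rpow (Nat.cast_nonneg m) (Nat.cast_nonneg n)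

theorem mtaF_apply (ε : ℝ) (n : ℕ) : mtaF ε n = (n : ℝ) ^ (-ε) := rfl

theorem mtaF_nonneg (ε : ℝ) (n : ℕ) : 0 ≤ mtaF ε n := by
  rw [mtaF_apply]; positivity

theorem mtaF_lt_one {ε : ℝ} (hε : 0 < ε) {p : ℕ} (hp : p.Prime) : ‖mtaF ε p‖ < 1 := by
  rw [Real.norm_of_nonneg (mtaF_nonneg ε p), mtaF_apply]
  apply Real.rpow_lt_one_of_one_lt_of_neg
  · exact_mod_cast hp.one_lt
  · linarith

theorem mta_rankin {ε : ℝ} (hε : 0 < ε) (D X : ℕ) (hX : 1 ≤ X) :
    (((Icc 1 X).filter fun k => k.primeFactors ⊆ D.primeFactors).card : ℝ) ≤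
      (X : ℝ) ^ ε * ∏ p ∈ D.primeFactors, (1 - (p : ℝ) ^ (-ε))⁻¹ := by
  classical
  set S := (Icc 1 X).filter fun k => k.primeFactors ⊆ D.primeFactors with hS
  have hX0 : (0 : ℝ) < X := by exact_mod_cast hX
  obtain ⟨hsum, hhas⟩ :=
    EulerProduct.summable_and_hasSum_factoredNumbers_prod_filter_prime_geometric
      (f := mtaF ε) (fun {p} hp => mtaF_lt_one hε hp) D.primeFactors
  have hfil : (D.primeFactors.filter fun p => p.Prime) = D.primeFactors := by
    apply Finset.filter_true_of_mem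
    intro p hp
    exact Nat.prime_of_mem_primeFactors hp
  rw [hfil] at hhas
  have h1 : ∀ k ∈ S, (1 : ℝ) ≤ (X : ℝ) ^ ε * mtaF ε k := by
    intro k hk
    rw [hS, Finset.mem_filter, Finset.mem_Icc] at hk
    have hk0 : (0 : ℝ) < k := by exact_mod_cast hk.1.1
    have hkX : (k : ℝ) ≤ X := by exact_mod_cast hk.1.2
    rw [mtaF_apply, Real.rpow_neg hk0.le, ← div_eq_mul_inv, one_le_div (by positivity)]
    exact Real.rpow_le_rpow hk0.le hkX hε.le
  have h2 : (S.card : ℝ) ≤ (X : ℝ) ^ ε * ∑ k ∈ S, mtaF ε k := by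
    rw [Finset.mul_sum]
    calc (S.card : ℝ) = ∑ k ∈ S, (1 : ℝ) := by simp
      _ ≤ _ := Finset.sum_le_sum h1
  have h3 : ∑ k ∈ S, mtaF ε k ≤ ∏ p ∈ D.primeFactors, (1 - mtaF ε p)⁻¹ := by
    have hmem : ∀ k ∈ S, k ∈ Nat.factoredNumbers D.primeFactors := by
      intro k hk
      rw [hS, Finset.mem_filter, Finset.mem_Icc] at hk
      exact Nat.mem_factoredNumbers_of_primeFactors_subset (by omega) hk.2
    rw [← hhas.tsum_eq, ← Finset.sum_coe_sort S (fun k => mtaF ε k)]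
    let e : S → Nat.factoredNumbers D.primeFactors := fun k => ⟨k.1, hmem k.1 k.2⟩
    have he : Function.Injective e := by
      intro a b hab
      apply Subtype.ext
      have := congrArg Subtype.val hab
      exact this
    have h4 : ∑ k : S, mtaF ε (k : ℕ) = ∑ m ∈ Finset.univ.image e, mtaF ε (m : ℕ) := by
      rw [Finset.sum_image (fun a _ b _ h => he h)]
    rw [h4]
    exact hhas.summable.sum_le_tsum _ (fun m _ => mtaF_nonneg ε m)
  calc (S.card : ℝ) ≤ (X : ℝ) ^ ε * ∑ k ∈ S, mtaF ε k := h2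
    _ ≤ (X : ℝ) ^ ε * ∏ p ∈ D.primeFactors, (1 - mtaF ε p)⁻¹ :=
        mul_le_mul_of_nonneg_left h3 (by positivity)
    _ = _ := rfl

theorem supp_count (ε : ℝ) (hε : 0 < ε) : ∃ C : ℝ, 0 < C ∧ ∀ D X : ℕ, 1 ≤ D → 1 ≤ X →
    (((Icc 1 X).filter fun k => k.primeFactors ⊆ D.primeFactors).card : ℝ) ≤
      C * ((D : ℝ) * X) ^ ε := by
  classical
  set Q : ℝ := (1 - (2 : ℝ) ^ (-ε))⁻¹ with hQ
  have h2lt : (2 : ℝ) ^ (-ε) < 1 :=
    Real.rpow_lt_one_of_one_lt_of_neg (by norm_num) (by linarith)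
  have h2pos : (0 : ℝ) < (2 : ℝ) ^ (-ε) := by positivity
  have hQ1 : 1 ≤ Q := by
    rw [hQ]
    apply (one_le_inv₀ (by linarith)).2
    linarith
  have hQ0 : 0 < Q := by linarith
  set B : ℕ := ⌈Q ^ (1 / ε)⌉₊ with hB
  refine ⟨Q ^ B, by positivity, ?_⟩
  intro D X hD hX
  have hX0 : (0 : ℝ) < X := by exact_mod_cast hX
  have hD0 : (0 : ℝ) < D := by exact_mod_cast hD
  -- the pointwise bound
  have hpt : ∀ p ∈ D.primeFactors, (1 - (p : ℝ) ^ (-ε))⁻¹ ≤
      (p : ℝ) ^ ε * (if (p : ℝ) ^ ε < Q then Q else 1) := by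
    intro p hp
    have hpp : p.Prime := Nat.prime_of_mem_primeFactors hp
    have hp2 : (2 : ℝ) ≤ p := by exact_mod_cast hpp.two_le
    have hp0 : (0 : ℝ) < p := by linarith
    have hle : (p : ℝ) ^ (-ε) ≤ (2 : ℝ) ^ (-ε) :=
      Real.rpow_le_rpow_of_nonpos (by norm_num) hp2 (by linarith)
    have hq : (1 - (p : ℝ) ^ (-ε))⁻¹ ≤ Q := by
      rw [hQ]
      apply inv_anti₀ (by linarith)
      linarith
    have hpe : 1 ≤ (p : ℝ) ^ ε := Real.one_le_rpow (by linarith) hε.le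
    by_cases h : (p : ℝ) ^ ε < Q
    · rw [if_pos h]
      nlinarith
    · rw [if_neg h, mul_one]
      exact hq.trans (not_lt.1 h)
  have hprod : ∏ p ∈ D.primeFactors, (1 - (p : ℝ) ^ (-ε))⁻¹ ≤ (D : ℝ) ^ ε * Q ^ B := by
    have hnn : ∀ p ∈ D.primeFactors, (0 : ℝ) ≤ (1 - (p : ℝ) ^ (-ε))⁻¹ := by
      intro p hp
      have hpp : p.Prime := Nat.prime_of_mem_primeFactors hp
      have : (p : ℝ) ^ (-ε) < 1 :=
        Real.rpow_lt_one_of_one_lt_of_neg (by exact_mod_cast hpp.one_lt) (by linarith)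
      exact inv_nonneg.2 (by linarith)
    refine (Finset.prod_le_prod hnn hpt).trans ?_
    rw [Finset.prod_mul_distrib]
    apply mul_le_mul
    · rw [Real.finsetProd_rpow _ _ (fun p _ => Nat.cast_nonneg p)]
      apply Real.rpow_le_rpow (Finset.prod_nonneg fun p _ => Nat.cast_nonneg p) _ hε.le
      have h6 : ∏ p ∈ D.primeFactors, p ≤ D :=
        Nat.le_of_dvd (by omega) (Nat.prod_primeFactors_dvd D)
      have h7 : ((∏ p ∈ D.primeFactors, p : ℕ) : ℝ) ≤ (D : ℝ) := Nat.cast_le.2 h6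
      rw [Nat.cast_prod] at h7
      exact h7
    · rw [← Finset.prod_filter]
      rw [Finset.prod_const]
      apply pow_le_pow_right₀ hQ1
      calc (D.primeFactors.filter fun p : ℕ => (p : ℝ) ^ ε < Q).card
          ≤ (Finset.range B).card := by
            apply Finset.card_le_card
            intro p hp
            rw [Finset.mem_filter] at hp
            rw [Finset.mem_range, hB, Nat.lt_ceil]
            have hp0 : (0 : ℝ) ≤ p := Nat.cast_nonneg p
            have h5 : ((p : ℝ) ^ ε) ^ (1 / ε) < Q ^ (1 / ε) :=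
              Real.rpow_lt_rpow (by positivity) hp.2 (by positivity)
            rw [← Real.rpow_mul hp0, mul_one_div_cancel hε.ne', Real.rpow_one] at h5
            exact h5
        _ = B := Finset.card_range B
    · apply Finset.prod_nonneg
      intro p _
      split_ifs
      · exact hQ0.le
      · norm_num
    · positivity
  calc (((Icc 1 X).filter fun k => k.primeFactors ⊆ D.primeFactors).card : ℝ)
      ≤ (X : ℝ) ^ ε * ∏ p ∈ D.primeFactors, (1 - (p : ℝ) ^ (-ε))⁻¹ := mta_rankin hε D X hX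
    _ ≤ (X : ℝ) ^ ε * ((D : ℝ) ^ ε * Q ^ B) := mul_le_mul_of_nonneg_left hprod (by positivity)
    _ = Q ^ B * ((D : ℝ) * X) ^ ε := by
        rw [Real.mul_rpow hD0.le hX0.le]; ring

end Pool.Agent.MS
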