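import Pool.Agent.Lib.MP_31e8d2_nt.Defs
import Pool.Agent.Lib.MP_31e8d2_nt.MtA

namespace Pool.Agent.MS

open Finset

theorem mtB_rd_pos (m : ℕ) : 1 ≤ rd m :=
  Finset.prod_pos fun p hp => (Nat.prime_of_mem_primeFactors hp).pos

theorem mtB_rd_dvd (m : ℕ) : rd m ∣ m := Nat.prod_primeFactors_dvd m

theorem mtB_rd_le {m : ℕ} (hm : 1 ≤ m) : rd m ≤ m := Nat.le_of_dvd hm (mtB_rd_dvd m)

theorem mtB_rd_pf (m : ℕ) : (rd m).primeFactors = m.primeFactors := by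
  unfold rd
  exact Nat.primeFactors_prod (fun p hp => Nat.prime_of_mem_primeFactors hp)

theorem pair_count (ε : ℝ) (hε : 0 < ε) : ∃ C : ℝ, 0 < C ∧ ∀ X N Z : ℕ, 1 ≤ X → 1 ≤ N → 1 ≤ Z →
    (((Icc 1 X ×ˢ Icc 1 N).filter fun x => rd x.1 ≤ Z ∧ x.1.primeFactors = x.2.primeFactors).card :
      ℝ) ≤ C * Z * ((X : ℝ) * N) ^ ε := by
  obtain ⟨C, hC, h⟩ := supp_count (ε / 2) (by linarith)
  refine ⟨C * C, by positivity, ?_⟩
  intro X N Z hX hN hZ
  set S : ℕ → ℕ → Finset ℕ := fun Y r => (Icc 1 Y).filter fun k => k.primeFactors ⊆ r.primeFactors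
    with hS
  set I : Finset ℕ := (Icc 1 Z).filter fun r => r ≤ X ∧ r ≤ N with hI
  have hsub : ((Icc 1 X ×ˢ Icc 1 N).filter fun x => rd x.1 ≤ Z ∧
      x.1.primeFactors = x.2.primeFactors) ⊆ I.biUnion fun r => S X r ×ˢ S N r := by
    intro x hx
    simp only [mem_filter, mem_product, mem_Icc] at hx
    obtain ⟨⟨⟨hx1, hx2⟩, hx3, hx4⟩, hx5, hx6⟩ := hx
    have h12 : rd x.1 = rd x.2 := by unfold rd; rw [hx6]
    simp only [mem_biUnion, hI, hS, mem_filter, mem_Icc, mem_product]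
    refine ⟨rd x.1, ⟨⟨mtB_rd_pos _, hx5⟩, (mtB_rd_le hx1).trans hx2, ?_⟩, ⟨⟨hx1, hx2⟩, ?_⟩,
      ⟨hx3, hx4⟩, ?_⟩
    · rw [h12]; exact (mtB_rd_le hx3).trans hx4
    · rw [mtB_rd_pf]
    · rw [h12, mtB_rd_pf]
  have hXr : (1 : ℝ) ≤ X := by exact_mod_cast hX
  have hNr : (1 : ℝ) ≤ N := by exact_mod_cast hN
  have hterm : ∀ r ∈ I, (((S X r ×ˢ S N r).card : ℕ) : ℝ) ≤ C * C * ((X : ℝ) * N) ^ ε := by
    intro r hr
    simp only [hI, mem_filter, mem_Icc] at hr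
    obtain ⟨⟨hr1, hr2⟩, hr3, hr4⟩ := hr
    have hr3' : (r : ℝ) ≤ X := by exact_mod_cast hr3
    have hr4' : (r : ℝ) ≤ N := by exact_mod_cast hr4
    have hr0 : (0 : ℝ) ≤ r := Nat.cast_nonneg _
    have h1 : ((S X r).card : ℝ) ≤ C * (X : ℝ) ^ ε := by
      refine (h r X hr1 hX).trans (mul_le_mul_of_nonneg_left ?_ hC.le)
      calc ((r : ℝ) * X) ^ (ε / 2) ≤ ((X : ℝ) * X) ^ (ε / 2) :=
            Real.rpow_le_rpow (by positivity) (by nlinarith) (by linarith)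
        _ = (X : ℝ) ^ ε := by
            rw [Real.mul_rpow (by linarith) (by linarith), ← Real.rpow_add (by linarith)]
            congr 1
            ring
    have h2 : ((S N r).card : ℝ) ≤ C * (N : ℝ) ^ ε := by
      refine (h r N hr1 hN).trans (mul_le_mul_of_nonneg_left ?_ hC.le)
      calc ((r : ℝ) * N) ^ (ε / 2) ≤ ((N : ℝ) * N) ^ (ε / 2) :=
            Real.rpow_le_rpow (by positivity) (by nlinarith) (by linarith)
        _ = (N : ℝ) ^ ε := by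
            rw [Real.mul_rpow (by linarith) (by linarith), ← Real.rpow_add (by linarith)]
            congr 1
            ring
    rw [card_product, Nat.cast_mul, Real.mul_rpow (by linarith) (by linarith)]
    calc ((S X r).card : ℝ) * (S N r).card ≤ (C * (X : ℝ) ^ ε) * (C * (N : ℝ) ^ ε) :=
          mul_le_mul h1 h2 (Nat.cast_nonneg _) (by positivity)
      _ = _ := by ring
  have hIc : (I.card : ℝ) ≤ Z := by
    have h1 : I.card ≤ (Icc 1 Z).card := card_filter_le _ _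
    rw [Nat.card_Icc, Nat.add_sub_cancel] at h1
    exact_mod_cast h1
  calc ((((Icc 1 X ×ˢ Icc 1 N).filter fun x => rd x.1 ≤ Z ∧
        x.1.primeFactors = x.2.primeFactors).card : ℕ) : ℝ)
      ≤ ((I.biUnion fun r => S X r ×ˢ S N r).card : ℝ) := by exact_mod_cast card_le_card hsub
    _ ≤ ((∑ r ∈ I, (S X r ×ˢ S N r).card : ℕ) : ℝ) := by exact_mod_cast card_biUnion_le
    _ = ∑ r ∈ I, (((S X r ×ˢ S N r).card : ℕ) : ℝ) := by push_cast; rfl
    _ ≤ ∑ _r ∈ I, C * C * ((X : ℝ) * N) ^ ε := sum_le_sum hterm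
    _ = I.card * (C * C * ((X : ℝ) * N) ^ ε) := by rw [sum_const, nsmul_eq_mul]
    _ ≤ Z * (C * C * ((X : ℝ) * N) ^ ε) := mul_le_mul_of_nonneg_right hIc (by positivity)
    _ = _ := by ring

theorem rad_count (ε : ℝ) (hε : 0 < ε) : ∃ C : ℝ, 0 < C ∧ ∀ X Z : ℕ, 1 ≤ X → 1 ≤ Z →
    (((Icc 1 X).filter fun m => rd m ≤ Z).card : ℝ) ≤ C * Z * (X : ℝ) ^ ε := by
  obtain ⟨C, hC, h⟩ := supp_count (ε / 2) (by linarith)
  refine ⟨C, hC, ?_⟩
  intro X Z hX hZ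
  set S : ℕ → Finset ℕ := fun r => (Icc 1 X).filter fun k => k.primeFactors ⊆ r.primeFactors
    with hS
  set I : Finset ℕ := (Icc 1 Z).filter fun r => r ≤ X with hI
  have hsub : ((Icc 1 X).filter fun m => rd m ≤ Z) ⊆ I.biUnion S := by
    intro x hx
    simp only [mem_filter, mem_Icc] at hx
    obtain ⟨⟨hx1, hx2⟩, hx5⟩ := hx
    simp only [mem_biUnion, hI, hS, mem_filter, mem_Icc]
    exact ⟨rd x, ⟨⟨mtB_rd_pos _, hx5⟩, (mtB_rd_le hx1).trans hx2⟩, ⟨hx1, hx2⟩,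
      by rw [mtB_rd_pf]⟩
  have hXr : (1 : ℝ) ≤ X := by exact_mod_cast hX
  have hterm : ∀ r ∈ I, ((S r).card : ℝ) ≤ C * (X : ℝ) ^ ε := by
    intro r hr
    simp only [hI, mem_filter, mem_Icc] at hr
    obtain ⟨⟨hr1, hr2⟩, hr3⟩ := hr
    have hr3' : (r : ℝ) ≤ X := by exact_mod_cast hr3
    have hr0 : (0 : ℝ) ≤ r := Nat.cast_nonneg _
    refine (h r X hr1 hX).trans (mul_le_mul_of_nonneg_left ?_ hC.le)
    calc ((r : ℝ) * X) ^ (ε / 2) ≤ ((X : ℝ) * X) ^ (ε / 2) :=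
          Real.rpow_le_rpow (by positivity) (by nlinarith) (by linarith)
      _ = (X : ℝ) ^ ε := by
          rw [Real.mul_rpow (by linarith) (by linarith), ← Real.rpow_add (by linarith)]
          congr 1
          ring
  have hIc : (I.card : ℝ) ≤ Z := by
    have h1 : I.card ≤ (Icc 1 Z).card := card_filter_le _ _
    rw [Nat.card_Icc, Nat.add_sub_cancel] at h1
    exact_mod_cast h1
  calc ((((Icc 1 X).filter fun m => rd m ≤ Z).card : ℕ) : ℝ)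
      ≤ ((I.biUnion S).card : ℝ) := by exact_mod_cast card_le_card hsub
    _ ≤ ((∑ r ∈ I, (S r).card : ℕ) : ℝ) := by exact_mod_cast card_biUnion_le
    _ = ∑ r ∈ I, ((S r).card : ℝ) := by push_cast; rfl
    _ ≤ ∑ _r ∈ I, C * (X : ℝ) ^ ε := sum_le_sum hterm
    _ = I.card * (C * (X : ℝ) ^ ε) := by rw [sum_const, nsmul_eq_mul]
    _ ≤ Z * (C * (X : ℝ) ^ ε) := mul_le_mul_of_nonneg_right hIc (by positivity)
    _ = _ := by ring

end Pool.Agent.MS
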