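import Pool.Agent.Lib.MP_31e8d2_nt.Defs

/-! # MP_31e8d2_nt, MS2 module DC: the key congruence for a class -/

namespace Pool.Agent.MS

open Finset

lemma MtC_primeFactors (T : Finset ℕ) (k : ℕ → ℕ) (hT : ∀ p ∈ T, p.Prime)
    (hk : ∀ p ∈ T, k p ≠ 0) : (∏ p ∈ T, p ^ k p).primeFactors = T := by
  have h0 : (∏ p ∈ T, p ^ k p) ≠ 0 :=
    Finset.prod_ne_zero_iff.2 fun p hp => pow_ne_zero _ (hT p hp).ne_zero
  ext q
  rw [Nat.mem_primeFactors]
  constructor
  · rintro ⟨hq, hd, -⟩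
    obtain ⟨p, hp, hqp⟩ := (Prime.dvd_finsetProd_iff hq.prime _).1 hd
    have := hq.dvd_of_dvd_pow hqp
    rw [Nat.prime_dvd_prime_iff_eq hq (hT p hp)] at this
    rw [this]; exact hp
  · intro hq
    refine ⟨hT q hq, ?_, h0⟩
    exact dvd_trans (dvd_pow_self q (hk q hq)) (Finset.dvd_prod_of_mem (fun p => p ^ k p) hq)

lemma MtC_split (m : ℕ) (hm : m ≠ 0) (C : Finset ℕ) (hC : C ⊆ m.primeFactors) (f : ℕ)
    (hf : ∀ p ∈ C, m.factorization p = f) :
    m = (∏ p ∈ C, p) ^ f * ∏ p ∈ m.primeFactors \ C, p ^ m.factorization p := by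
  have h1 : (∏ p ∈ C, p) ^ f = ∏ p ∈ C, p ^ m.factorization p := by
    rw [← Finset.prod_pow]
    exact Finset.prod_congr rfl fun p hp => by rw [hf p hp]
  rw [h1, mul_comm, Finset.prod_sdiff hC]
  exact (Nat.prod_factorization_pow_eq_self hm).symm

theorem class_key (m n f e : ℕ) (hm : 1 ≤ m) (hf : 1 ≤ f) (he : 1 ≤ e)
    (h : m.primeFactors = (n + 1).primeFactors) (hn : n.primeFactors = (m + 1).primeFactors)
    (hne : ¬ (Even e ∧ m ^ e = (n + 1) ^ f)) :
    ∃ l l1 : ℕ, m = cls m (n + 1) f e ^ f * l ∧ n + 1 = cls m (n + 1) f e ^ e * l1 ∧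
      l.primeFactors = l1.primeFactors ∧ rd m = cls m (n + 1) f e * rd l ∧
      (l : ℤ) ^ e - (-1) ^ e * (l1 : ℤ) ^ f ≠ 0 ∧
      (m + 1).primeFactors ⊆ ((l : ℤ) ^ e - (-1) ^ e * (l1 : ℤ) ^ f).natAbs.primeFactors := by
  classical
  have _ := hf
  have _ := he
  set C := m.primeFactors.filter fun p => m.factorization p = f ∧ (n + 1).factorization p = e
    with hCdef
  have hu : cls m (n + 1) f e = ∏ p ∈ C, p := rfl
  rw [hu]
  set u := ∏ p ∈ C, p with hudef
  have hC : C ⊆ m.primeFactors := Finset.filter_subset _ _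
  have hC1 : C ⊆ (n + 1).primeFactors := h ▸ hC
  have hCf : ∀ p ∈ C, m.factorization p = f := fun p hp => (Finset.mem_filter.1 hp).2.1
  have hCe : ∀ p ∈ C, (n + 1).factorization p = e := fun p hp => (Finset.mem_filter.1 hp).2.2
  set l := ∏ p ∈ m.primeFactors \ C, p ^ m.factorization p with hl
  set l1 := ∏ p ∈ (n + 1).primeFactors \ C, p ^ (n + 1).factorization p with hl1
  have hm0 : m ≠ 0 := by omega
  have e1 : m = u ^ f * l := MtC_split m hm0 C hC f hCf
  have e2 : n + 1 = u ^ e * l1 := MtC_split (n + 1) (by omega) C hC1 e hCe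
  have hlp : l.primeFactors = m.primeFactors \ C := by
    refine MtC_primeFactors _ _ (fun p hp => ?_) (fun p hp => ?_)
    · exact Nat.prime_of_mem_primeFactors (Finset.sdiff_subset hp)
    · have := Finset.sdiff_subset hp
      exact (Nat.Prime.factorization_pos_of_dvd (Nat.prime_of_mem_primeFactors this) hm0
        (Nat.dvd_of_mem_primeFactors this)).ne'
  have hl1p : l1.primeFactors = (n + 1).primeFactors \ C := by
    refine MtC_primeFactors _ _ (fun p hp => ?_) (fun p hp => ?_)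
    · exact Nat.prime_of_mem_primeFactors (Finset.sdiff_subset hp)
    · have := Finset.sdiff_subset hp
      exact (Nat.Prime.factorization_pos_of_dvd (Nat.prime_of_mem_primeFactors this) (by omega)
        (Nat.dvd_of_mem_primeFactors this)).ne'
  have hlpos : 0 < l := Nat.pos_of_ne_zero fun h0 => by rw [h0, mul_zero] at e1; exact hm0 e1
  have hl1pos : 0 < l1 := Nat.pos_of_ne_zero fun h0 => by rw [h0, mul_zero] at e2; omega
  refine ⟨l, l1, e1, e2, by rw [hlp, hl1p, h], ?_, ?_, ?_⟩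
  · unfold rd
    rw [hlp, mul_comm, Finset.prod_sdiff hC]
  · intro h0
    have hlz : (0 : ℤ) < (l : ℤ) ^ e := pow_pos (by exact_mod_cast hlpos) _
    have hl1z : (0 : ℤ) < (l1 : ℤ) ^ f := pow_pos (by exact_mod_cast hl1pos) _
    rcases Nat.even_or_odd e with hev | hod
    · rw [hev.neg_one_pow, one_mul] at h0
      apply hne
      refine ⟨hev, ?_⟩
      have h2 : (l : ℤ) ^ e = (l1 : ℤ) ^ f := by linarith
      have h3 : l ^ e = l1 ^ f := by exact_mod_cast h2
      calc m ^ e = (u ^ f * l) ^ e := by rw [← e1]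
        _ = u ^ (f * e) * l ^ e := by rw [mul_pow, ← pow_mul]
        _ = u ^ (e * f) * l1 ^ f := by rw [h3, mul_comm f e]
        _ = (u ^ e * l1) ^ f := by rw [mul_pow, ← pow_mul]
        _ = (n + 1) ^ f := by rw [← e2]
    · rw [hod.neg_one_pow] at h0
      linarith
  · intro P hP
    have hPp : P.Prime := Nat.prime_of_mem_primeFactors hP
    haveI : Fact P.Prime := ⟨hPp⟩
    have hPn : P ∣ n := Nat.dvd_of_mem_primeFactors (hn ▸ hP)
    have hPm : P ∣ m + 1 := Nat.dvd_of_mem_primeFactors hP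
    have z1 : ((m + 1 : ℕ) : ZMod P) = 0 := (ZMod.natCast_eq_zero_iff _ _).2 hPm
    have z2 : (n : ZMod P) = 0 := (ZMod.natCast_eq_zero_iff _ _).2 hPn
    have z3 : (u : ZMod P) ^ f * (l : ZMod P) = -1 := by
      have : ((u ^ f * l : ℕ) : ZMod P) = (m : ZMod P) := by rw [← e1]
      push_cast at this z1
      rw [this]
      exact eq_neg_of_add_eq_zero_left z1
    have z4 : (u : ZMod P) ^ e * (l1 : ZMod P) = 1 := by
      have : ((u ^ e * l1 : ℕ) : ZMod P) = ((n + 1 : ℕ) : ZMod P) := by rw [← e2]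
      push_cast at this
      rw [this, z2, zero_add]
    have z5 : (u : ZMod P) ≠ 0 := by
      intro hz
      rw [hz, zero_pow (by omega), zero_mul] at z4
      exact zero_ne_one z4
    have z6 : (u : ZMod P) ^ (f * e) * ((l : ZMod P) ^ e - (-1) ^ e * (l1 : ZMod P) ^ f) = 0 := by
      have a1 : (u : ZMod P) ^ (f * e) * (l : ZMod P) ^ e = (-1) ^ e := by
        rw [pow_mul, ← mul_pow, z3]
      have a2 : (u : ZMod P) ^ (f * e) * (l1 : ZMod P) ^ f = 1 := by
        rw [mul_comm f e, pow_mul, ← mul_pow, z4, one_pow]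
      rw [mul_sub, a1, mul_left_comm, a2, mul_one, sub_self]
    have z7 : ((l : ZMod P) ^ e - (-1) ^ e * (l1 : ZMod P) ^ f) = 0 :=
      (mul_eq_zero.1 z6).resolve_left (pow_ne_zero _ z5)
    have z8 : (((l : ℤ) ^ e - (-1) ^ e * (l1 : ℤ) ^ f : ℤ) : ZMod P) = 0 := by
      push_cast
      exact z7
    rw [ZMod.intCast_zmod_eq_zero_iff_dvd] at z8
    rw [Nat.mem_primeFactors]
    refine ⟨hPp, Int.natCast_dvd.1 z8, ?_⟩
    rw [Int.natAbs_ne_zero]
    -- nonvanishing, repeated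
    intro h0
    have hlz : (0 : ℤ) < (l : ℤ) ^ e := pow_pos (by exact_mod_cast hlpos) _
    have hl1z : (0 : ℤ) < (l1 : ℤ) ^ f := pow_pos (by exact_mod_cast hl1pos) _
    rcases Nat.even_or_odd e with hev | hod
    · rw [hev.neg_one_pow, one_mul] at h0
      apply hne
      refine ⟨hev, ?_⟩
      have h2 : (l : ℤ) ^ e = (l1 : ℤ) ^ f := by linarith
      have h3 : l ^ e = l1 ^ f := by exact_mod_cast h2
      calc m ^ e = (u ^ f * l) ^ e := by rw [← e1]
        _ = u ^ (f * e) * l ^ e := by rw [mul_pow, ← pow_mul]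
        _ = u ^ (e * f) * l1 ^ f := by rw [h3, mul_comm f e]
        _ = (u ^ e * l1) ^ f := by rw [mul_pow, ← pow_mul]
        _ = (n + 1) ^ f := by rw [← e2]
    · rw [hod.neg_one_pow] at h0
      linarith

end Pool.Agent.MS
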