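import Pool.Agent.Lib.MP_31e8d2_nt.MtA
import Pool.Agent.Lib.MP_31e8d2_nt.MtB
import Pool.Agent.Lib.MP_31e8d2_nt.MtC

/-!
# MP_31e8d2_nt, project MS2, module DD: counting the pairs of one class
-/

namespace Pool.Agent.MS

open Finset

/-- the number whose primes contain those of `m + 1` -/
def mtdD (e f : ℕ) (w : ℕ × ℕ) : ℕ := ((w.1 : ℤ) ^ e - (-1) ^ e * (w.2 : ℤ) ^ f).natAbs

lemma mtd_D_le (e f : ℕ) (w : ℕ × ℕ) : mtdD e f w ≤ w.1 ^ e + w.2 ^ f := by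
  unfold mtdD
  have h1 := Int.natAbs_sub_le ((w.1 : ℤ) ^ e) ((-1) ^ e * (w.2 : ℤ) ^ f)
  have h2 : ((w.1 : ℤ) ^ e).natAbs = w.1 ^ e := by
    rw [Int.natAbs_pow, Int.natAbs_natCast]
  have h3 : ((-1) ^ e * (w.2 : ℤ) ^ f).natAbs = w.2 ^ f := by
    rw [Int.natAbs_mul, Int.natAbs_pow, Int.natAbs_pow, Int.natAbs_natCast]
    simp
  rw [h2, h3] at h1
  exact h1

lemma mtd_cls_pos (m n f e : ℕ) : 1 ≤ cls m n f e := by
  have h : 0 < cls m n f e := by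
    unfold cls
    refine Finset.prod_pos fun p hp => ?_
    exact (Nat.prime_of_mem_primeFactors (Finset.mem_filter.1 hp).1).pos
  exact h

/-- the shifted form of a support count -/
lemma mtd_shift (D X : ℕ) :
    ((Icc 1 X).filter fun k => (k + 1).primeFactors ⊆ D.primeFactors).card ≤
      ((Icc 1 (X + 1)).filter fun k => k.primeFactors ⊆ D.primeFactors).card := by
  refine Finset.card_le_card_of_injOn (fun k => k + 1) ?_ ?_
  · intro k hk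
    simp only [Finset.coe_filter, Finset.mem_Icc, Set.mem_ofPred_eq] at hk ⊢
    exact ⟨⟨by omega, by omega⟩, hk.2⟩
  · intro a _ b _ hab
    simpa using hab

theorem class_count (f e : ℕ) (hf : 1 ≤ f) (he : 1 ≤ e) (ε : ℝ) (hε : 0 < ε) :
    ∃ C : ℝ, 0 < C ∧ ∀ X N Z : ℕ, 1 ≤ X → 1 ≤ N → 1 ≤ Z →
    (Set.ncard {x : ℕ × ℕ | 1 ≤ x.1 ∧ x.1 ≤ X ∧ 1 ≤ x.2 ∧ x.2 ≤ N ∧ Par x.1 x.2 ∧
      ¬ (Even e ∧ x.1 ^ e = (x.2 + 1) ^ f) ∧ rd x.1 ≤ Z * cls x.1 (x.2 + 1) f e} : ℝ) ≤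
      C * Z * ((X : ℝ) * N) ^ ε := by
  classical
  set q : ℝ := ((e + f + 3 : ℕ) : ℝ) with hq
  have hq0 : 0 < q := by
    rw [hq]
    positivity
  set δ : ℝ := ε / q with hδ
  have hδ0 : 0 < δ := div_pos hε hq0
  obtain ⟨C₁, hC₁, h1⟩ := supp_count δ hδ0
  obtain ⟨C₂, hC₂, h2⟩ := pair_count δ hδ0
  refine ⟨C₁ * C₁ * C₂ * 4 ^ δ * 2 ^ ε, by positivity, ?_⟩
  intro X N Z hX hN hZ
  set W := ((Icc 1 X ×ˢ Icc 1 (N + 1)).filter fun x : ℕ × ℕ =>
    rd x.1 ≤ Z ∧ x.1.primeFactors = x.2.primeFactors) with hW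
  set W' := W.filter fun w => mtdD e f w ≠ 0 with hW'
  set A : ℕ × ℕ → Finset ℕ := fun w =>
    (Icc 1 X).filter fun m => (m + 1).primeFactors ⊆ (mtdD e f w).primeFactors with hA
  set B : ℕ → Finset ℕ := fun m =>
    (Icc 1 N).filter fun n => (n + 1).primeFactors ⊆ m.primeFactors with hB
  set U : Finset (ℕ × ℕ) := W'.biUnion fun w => (A w).biUnion fun m =>
    (B m).image fun n => (m, n) with hU
  have hcov : {x : ℕ × ℕ | 1 ≤ x.1 ∧ x.1 ≤ X ∧ 1 ≤ x.2 ∧ x.2 ≤ N ∧ Par x.1 x.2 ∧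
      ¬ (Even e ∧ x.1 ^ e = (x.2 + 1) ^ f) ∧ rd x.1 ≤ Z * cls x.1 (x.2 + 1) f e} ⊆
      (U : Set (ℕ × ℕ)) := by
    rintro ⟨m, n⟩ ⟨hm1, hmX, hn1, hnN, hpar, hne, hr⟩
    simp only at hm1 hmX hn1 hnN hpar hne hr
    obtain ⟨l, l₁, hl, hl₁, hll, hrd, hD, hsub⟩ := class_key m n f e hm1 hf he hpar.1 hpar.2 hne
    have hc := mtd_cls_pos m (n + 1) f e
    set c := cls m (n + 1) f e with hcdef
    have hl0 : 1 ≤ l := by
      rcases Nat.eq_zero_or_pos l with h | h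
      · rw [h, mul_zero] at hl
        omega
      · exact h
    have hl10 : 1 ≤ l₁ := by
      rcases Nat.eq_zero_or_pos l₁ with h | h
      · rw [h, mul_zero] at hl₁
        omega
      · exact h
    have hlX : l ≤ X := by
      refine le_trans ?_ hmX
      calc l = 1 * l := (one_mul l).symm
        _ ≤ c ^ f * l := Nat.mul_le_mul_right _ (Nat.one_le_pow _ _ hc)
        _ = m := hl.symm
    have hl1N : l₁ ≤ N + 1 := by
      refine le_trans ?_ (Nat.succ_le_succ hnN)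
      calc l₁ = 1 * l₁ := (one_mul l₁).symm
        _ ≤ c ^ e * l₁ := Nat.mul_le_mul_right _ (Nat.one_le_pow _ _ hc)
        _ = n + 1 := hl₁.symm
    have hrl : rd l ≤ Z := by
      rw [hrd, mul_comm Z] at hr
      exact Nat.le_of_mul_le_mul_left hr hc
    have hw : (l, l₁) ∈ W' := by
      rw [hW', Finset.mem_filter, hW, Finset.mem_filter, Finset.mem_product, Finset.mem_Icc,
        Finset.mem_Icc]
      exact ⟨⟨⟨⟨hl0, hlX⟩, ⟨hl10, hl1N⟩⟩, hrl, hll⟩, by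
        unfold mtdD
        simpa [Int.natAbs_eq_zero] using hD⟩
    have hmA : m ∈ A (l, l₁) := by
      rw [hA]
      simp only [Finset.mem_filter, Finset.mem_Icc]
      exact ⟨⟨hm1, hmX⟩, hsub⟩
    have hnB : n ∈ B m := by
      rw [hB]
      simp only [Finset.mem_filter, Finset.mem_Icc]
      exact ⟨⟨hn1, hnN⟩, hpar.1.symm.subset⟩
    rw [hU, Finset.mem_coe, Finset.mem_biUnion]
    refine ⟨(l, l₁), hw, ?_⟩
    rw [Finset.mem_biUnion]
    exact ⟨m, hmA, Finset.mem_image.2 ⟨n, hnB, rfl⟩⟩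
  have hcard : Set.ncard {x : ℕ × ℕ | 1 ≤ x.1 ∧ x.1 ≤ X ∧ 1 ≤ x.2 ∧ x.2 ≤ N ∧ Par x.1 x.2 ∧
      ¬ (Even e ∧ x.1 ^ e = (x.2 + 1) ^ f) ∧ rd x.1 ≤ Z * cls x.1 (x.2 + 1) f e} ≤
      ∑ w ∈ W', ∑ m ∈ A w, (B m).card := by
    refine (Set.ncard_le_ncard hcov U.finite_toSet).trans ?_
    rw [Set.ncard_coe_finset, hU]
    refine Finset.card_biUnion_le.trans (Finset.sum_le_sum fun w _ => ?_)
    refine Finset.card_biUnion_le.trans (Finset.sum_le_sum fun m _ => ?_)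
    exact Finset.card_image_le
  -- real estimates
  set T : ℝ := (X : ℝ) * (N + 1 : ℕ) with hT
  have hX' : (1:ℝ) ≤ X := by exact_mod_cast hX
  have hN' : (1:ℝ) ≤ N := by exact_mod_cast hN
  have hN1 : (1:ℝ) ≤ (N + 1 : ℕ) := by push_cast; linarith
  have hT1 : 1 ≤ T := one_le_mul_of_one_le_of_one_le hX' hN1
  have hT0 : 0 < T := by linarith
  have hXT : (X:ℝ) ≤ T := by
    rw [hT]
    nlinarith
  have hNT : ((N + 1 : ℕ):ℝ) ≤ T := by
    rw [hT]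
    nlinarith
  have hBb : ∀ m, 1 ≤ m → m ≤ X → ((B m).card : ℝ) ≤ C₁ * T ^ δ := by
    intro m hm hmX
    have h3 := h1 m (N + 1) hm (by omega)
    have h4 : ((B m).card : ℝ) ≤
        (((Icc 1 (N + 1)).filter fun k => k.primeFactors ⊆ m.primeFactors).card : ℝ) := by
      exact_mod_cast mtd_shift m N
    refine (h4.trans h3).trans ?_
    refine mul_le_mul_of_nonneg_left ?_ hC₁.le
    refine Real.rpow_le_rpow (by positivity) ?_ hδ0.le
    rw [hT]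
    refine mul_le_mul_of_nonneg_right ?_ (by linarith)
    exact_mod_cast hmX
  have hAb : ∀ w ∈ W', ((A w).card : ℝ) ≤ C₁ * (4 * T ^ (e + f + 1)) ^ δ := by
    intro w hw
    rw [hW', Finset.mem_filter, hW, Finset.mem_filter, Finset.mem_product, Finset.mem_Icc,
      Finset.mem_Icc] at hw
    obtain ⟨⟨⟨⟨hw1, hw2⟩, hw3, hw4⟩, -, -⟩, hw5⟩ := hw
    have h3 := h1 (mtdD e f w) (X + 1) (Nat.one_le_iff_ne_zero.2 hw5) (by omega)
    have h4 : ((A w).card : ℝ) ≤ (((Icc 1 (X + 1)).filter fun k =>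
        k.primeFactors ⊆ (mtdD e f w).primeFactors).card : ℝ) := by
      exact_mod_cast mtd_shift (mtdD e f w) X
    refine (h4.trans h3).trans ?_
    refine mul_le_mul_of_nonneg_left ?_ hC₁.le
    refine Real.rpow_le_rpow (by positivity) ?_ hδ0.le
    have h5 : (mtdD e f w : ℝ) ≤ (w.1 : ℝ) ^ e + (w.2 : ℝ) ^ f := by
      exact_mod_cast mtd_D_le e f w
    have hw2' : (w.1 : ℝ) ≤ T := le_trans (by exact_mod_cast hw2) hXT
    have hw4' : (w.2 : ℝ) ≤ T := le_trans (by exact_mod_cast hw4) hNT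
    have h6 : (w.1 : ℝ) ^ e ≤ T ^ (e + f) := by
      refine (pow_le_pow_left₀ (by positivity) hw2' e).trans ?_
      exact pow_le_pow_right₀ hT1 (by omega)
    have h7 : (w.2 : ℝ) ^ f ≤ T ^ (e + f) := by
      refine (pow_le_pow_left₀ (by positivity) hw4' f).trans ?_
      exact pow_le_pow_right₀ hT1 (by omega)
    have h8 : ((X + 1 : ℕ) : ℝ) ≤ 2 * T := by
      push_cast
      linarith
    calc (mtdD e f w : ℝ) * ((X + 1 : ℕ) : ℝ) ≤ (2 * T ^ (e + f)) * (2 * T) := by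
          refine mul_le_mul (by linarith) h8 (by positivity) (by positivity)
      _ = 4 * T ^ (e + f + 1) := by ring
  have hWb : (W'.card : ℝ) ≤ C₂ * Z * T ^ δ := by
    have h3 := h2 X (N + 1) Z hX (by omega) hZ
    refine le_trans ?_ h3
    exact_mod_cast Finset.card_filter_le _ _
  have hsum : (∑ w ∈ W', ∑ m ∈ A w, ((B m).card : ℝ)) ≤
      (C₂ * Z * T ^ δ) * ((C₁ * (4 * T ^ (e + f + 1)) ^ δ) * (C₁ * T ^ δ)) := by
    have hb : ∀ w ∈ W', ∑ m ∈ A w, ((B m).card : ℝ) ≤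
        (C₁ * (4 * T ^ (e + f + 1)) ^ δ) * (C₁ * T ^ δ) := by
      intro w hw
      have h3 : ∑ m ∈ A w, ((B m).card : ℝ) ≤ ∑ m ∈ A w, C₁ * T ^ δ := by
        refine Finset.sum_le_sum fun m hm => ?_
        rw [hA] at hm
        simp only [Finset.mem_filter, Finset.mem_Icc] at hm
        exact hBb m hm.1.1 hm.1.2
      refine h3.trans ?_
      rw [Finset.sum_const, nsmul_eq_mul]
      exact mul_le_mul_of_nonneg_right (hAb w hw) (by positivity)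
    refine (Finset.sum_le_sum hb).trans ?_
    rw [Finset.sum_const, nsmul_eq_mul]
    exact mul_le_mul_of_nonneg_right hWb (by positivity)
  have hfin : (C₂ * Z * T ^ δ) * ((C₁ * (4 * T ^ (e + f + 1)) ^ δ) * (C₁ * T ^ δ)) =
      C₁ * C₁ * C₂ * 4 ^ δ * Z * T ^ ε := by
    have h3 : (4 * T ^ (e + f + 1)) ^ δ = 4 ^ δ * T ^ ((e + f + 1 : ℕ) * δ) := by
      rw [Real.mul_rpow (by norm_num) (by positivity), ← Real.rpow_natCast, ← Real.rpow_mul hT0.le]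
    have h4 : T ^ ε = T ^ δ * T ^ ((e + f + 1 : ℕ) * δ) * T ^ δ := by
      rw [← Real.rpow_add hT0, ← Real.rpow_add hT0]
      congr 1
      have h5 : q * δ = ε := by
        rw [hδ]
        field_simp
      rw [← h5, hq]
      push_cast
      ring
    rw [h3, h4]
    ring
  have hTe : T ^ ε ≤ 2 ^ ε * ((X : ℝ) * N) ^ ε := by
    rw [← Real.mul_rpow (by norm_num) (by positivity)]
    refine Real.rpow_le_rpow hT0.le ?_ hε.le
    rw [hT]
    push_cast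
    nlinarith
  calc (Set.ncard {x : ℕ × ℕ | 1 ≤ x.1 ∧ x.1 ≤ X ∧ 1 ≤ x.2 ∧ x.2 ≤ N ∧ Par x.1 x.2 ∧
      ¬ (Even e ∧ x.1 ^ e = (x.2 + 1) ^ f) ∧ rd x.1 ≤ Z * cls x.1 (x.2 + 1) f e} : ℝ)
      ≤ ((∑ w ∈ W', ∑ m ∈ A w, (B m).card : ℕ) : ℝ) := by exact_mod_cast hcard
    _ = ∑ w ∈ W', ∑ m ∈ A w, ((B m).card : ℝ) := by push_cast; rfl
    _ ≤ C₁ * C₁ * C₂ * 4 ^ δ * Z * T ^ ε := by rw [← hfin]; exact hsum
    _ ≤ C₁ * C₁ * C₂ * 4 ^ δ * Z * (2 ^ ε * ((X : ℝ) * N) ^ ε) :=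
        mul_le_mul_of_nonneg_left hTe (by positivity)
    _ = C₁ * C₁ * C₂ * 4 ^ δ * 2 ^ ε * Z * ((X : ℝ) * N) ^ ε := by ring

end Pool.Agent.MS
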