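import Pool.Agent.Lib.MP_31e8d2_nt.Defs

/-!
# MP_31e8d2_nt, module DE: one of the fourteen classes is large
-/

namespace Pool.Agent.MS

open Finset

theorem mtE_prod (m : ℕ) (hm : m ≠ 0) : ∏ p ∈ m.primeFactors, p ^ m.factorization p = m :=
  Nat.prod_factorization_pow_eq_self hm

theorem mtE_prod' (m N : ℕ) (hN : N ≠ 0) (h : m.primeFactors = N.primeFactors) :
    ∏ p ∈ m.primeFactors, p ^ N.factorization p = N := by
  rw [h]
  exact mtE_prod N hN

theorem mtE_gcd (m N : ℕ) (hm : m ≠ 0) (hN : N ≠ 0) (h : m.primeFactors = N.primeFactors) :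
    ∏ p ∈ m.primeFactors, p ^ min (m.factorization p) (N.factorization p) = m.gcd N := by
  have h1 : (m.gcd N).primeFactors = m.primeFactors := by
    rw [Nat.primeFactors_gcd hm hN, ← h, inter_self]
  have h2 := mtE_prod (m.gcd N) (Nat.gcd_ne_zero_left hm)
  rw [h1] at h2
  conv_rhs => rw [← h2]
  refine prod_congr rfl fun p _ => ?_
  rw [Nat.factorization_gcd hm hN]
  rfl

theorem mtE_cls (m N f e k : ℕ) : cls m N f e ^ k = ∏ p ∈ m.primeFactors,
    p ^ (if m.factorization p = f ∧ N.factorization p = e then k else 0) := by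
  unfold cls
  rw [prod_filter, ← prod_pow]
  refine prod_congr rfl fun p _ => ?_
  split_ifs
  · rfl
  · rw [one_pow, pow_zero]

theorem mtE_exp (f e : ℕ) (hf : 1 ≤ f) (he : 1 ≤ e) : 16 ≤ f + e + 10 * min f e +
    ((if f = 1 ∧ e = 1 then 4 else 0) + (if f = 1 ∧ e = 2 then 3 else 0) +
      (if f = 1 ∧ e = 3 then 2 else 0) + (if f = 1 ∧ e = 4 then 1 else 0) +
      (if f = 2 ∧ e = 1 then 3 else 0) + (if f = 3 ∧ e = 1 then 2 else 0) +
      (if f = 4 ∧ e = 1 then 1 else 0)) := by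
  rcases Nat.lt_or_ge 1 f with h1 | h1
  · rcases Nat.lt_or_ge 1 e with h2 | h2
    · have : 2 ≤ min f e := le_min h1 h2
      omega
    · obtain rfl : e = 1 := le_antisymm h2 he
      split_ifs <;> omega
  · obtain rfl : f = 1 := le_antisymm h1 hf
    split_ifs <;> omega

theorem mtE_key (m N : ℕ) (hm : m ≠ 0) (hN : N ≠ 0) (h : m.primeFactors = N.primeFactors) :
    rd m ^ 16 ≤ m * N * (m.gcd N) ^ 10 * (cls m N 1 1 ^ 4 * cls m N 1 2 ^ 3 * cls m N 1 3 ^ 2 *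
      cls m N 1 4 ^ 1 * cls m N 2 1 ^ 3 * cls m N 3 1 ^ 2 * cls m N 4 1 ^ 1) := by
  have e1 : m * N * (m.gcd N) ^ 10 = ∏ p ∈ m.primeFactors, p ^ (m.factorization p +
      N.factorization p + 10 * min (m.factorization p) (N.factorization p)) := by
    calc m * N * (m.gcd N) ^ 10 = (∏ p ∈ m.primeFactors, p ^ m.factorization p) *
          (∏ p ∈ m.primeFactors, p ^ N.factorization p) *
          (∏ p ∈ m.primeFactors, p ^ min (m.factorization p) (N.factorization p)) ^ 10 := by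
          rw [mtE_gcd m N hm hN h, mtE_prod m hm, mtE_prod' m N hN h]
      _ = _ := by
          rw [← prod_pow, ← prod_mul_distrib, ← prod_mul_distrib]
          refine prod_congr rfl fun p _ => ?_
          rw [pow_add, pow_add, mul_comm 10, pow_mul]
  have e2 : cls m N 1 1 ^ 4 * cls m N 1 2 ^ 3 * cls m N 1 3 ^ 2 *
      cls m N 1 4 ^ 1 * cls m N 2 1 ^ 3 * cls m N 3 1 ^ 2 * cls m N 4 1 ^ 1 =
      ∏ p ∈ m.primeFactors, p ^
        ((if m.factorization p = 1 ∧ N.factorization p = 1 then 4 else 0) +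
        (if m.factorization p = 1 ∧ N.factorization p = 2 then 3 else 0) +
        (if m.factorization p = 1 ∧ N.factorization p = 3 then 2 else 0) +
        (if m.factorization p = 1 ∧ N.factorization p = 4 then 1 else 0) +
        (if m.factorization p = 2 ∧ N.factorization p = 1 then 3 else 0) +
        (if m.factorization p = 3 ∧ N.factorization p = 1 then 2 else 0) +
        (if m.factorization p = 4 ∧ N.factorization p = 1 then 1 else 0)) := by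
    simp only [mtE_cls, ← prod_mul_distrib, ← pow_add]
  have e3 : rd m ^ 16 = ∏ p ∈ m.primeFactors, p ^ 16 := by
    unfold rd
    rw [prod_pow]
  rw [e1, e2, e3, ← prod_mul_distrib]
  refine prod_le_prod' fun p hp => ?_
  rw [← pow_add]
  have hp' := Nat.prime_of_mem_primeFactors hp
  refine Nat.pow_le_pow_right hp'.pos (mtE_exp _ _ ?_ ?_)
  · exact hp'.factorization_pos_of_dvd hm (Nat.dvd_of_mem_primeFactors hp)
  · exact hp'.factorization_pos_of_dvd hN (Nat.dvd_of_mem_primeFactors (h ▸ hp))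

theorem mtE_cls_pos (m N f e : ℕ) : 0 < cls m N f e := by
  unfold cls
  exact prod_pos fun p hp => (Nat.prime_of_mem_primeFactors (mem_filter.1 hp).1).pos

/-- if all the seven classes are small -/
theorem mtE_small (m N : ℕ) (hm : m ≠ 0) (hN : N ≠ 0) (h : m.primeFactors = N.primeFactors)
    (A : ℝ) (hA : 0 < A) (hc : ∀ c ∈ sevenClasses, A * cls m N c.1 c.2 < rd m) :
    A ^ 16 < (m : ℝ) * N * ((m.gcd N : ℕ) : ℝ) ^ 10 := by
  have hk : ((rd m : ℝ)) ^ 16 ≤ (m : ℝ) * N * ((m.gcd N : ℕ) : ℝ) ^ 10 *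
      ((cls m N 1 1 : ℝ) ^ 4 * (cls m N 1 2 : ℝ) ^ 3 * (cls m N 1 3 : ℝ) ^ 2 *
      (cls m N 1 4 : ℝ) ^ 1 * (cls m N 2 1 : ℝ) ^ 3 * (cls m N 3 1 : ℝ) ^ 2 *
      (cls m N 4 1 : ℝ) ^ 1) := by
    exact_mod_cast mtE_key m N hm hN h
  have p : ∀ f e, (0 : ℝ) < cls m N f e := fun f e => by exact_mod_cast mtE_cls_pos m N f e
  have q : ∀ f e, (0 : ℝ) < A * cls m N f e := fun f e => mul_pos hA (p f e)
  have c11 := hc (1, 1) (by decide)
  have c12 := hc (1, 2) (by decide)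
  have c13 := hc (1, 3) (by decide)
  have c14 := hc (1, 4) (by decide)
  have c21 := hc (2, 1) (by decide)
  have c31 := hc (3, 1) (by decide)
  have c41 := hc (4, 1) (by decide)
  simp only at c11 c12 c13 c14 c21 c31 c41
  set R : ℝ := (rd m : ℝ) with hR
  have hRpos : 0 < R := (q 1 1).trans c11
  have h1 : A ^ 16 * ((cls m N 1 1 : ℝ) ^ 4 * (cls m N 1 2 : ℝ) ^ 3 * (cls m N 1 3 : ℝ) ^ 2 *
      (cls m N 1 4 : ℝ) ^ 1 * (cls m N 2 1 : ℝ) ^ 3 * (cls m N 3 1 : ℝ) ^ 2 *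
      (cls m N 4 1 : ℝ) ^ 1) < R ^ 16 := by
    have a1 : (A * cls m N 1 1) ^ 4 < R ^ 4 := pow_lt_pow_left₀ c11 (q 1 1).le (by norm_num)
    have a2 : (A * cls m N 1 2) ^ 3 < R ^ 3 := pow_lt_pow_left₀ c12 (q 1 2).le (by norm_num)
    have a3 : (A * cls m N 1 3) ^ 2 < R ^ 2 := pow_lt_pow_left₀ c13 (q 1 3).le (by norm_num)
    have a4 : (A * cls m N 1 4) ^ 1 < R ^ 1 := pow_lt_pow_left₀ c14 (q 1 4).le (by norm_num)
    have a5 : (A * cls m N 2 1) ^ 3 < R ^ 3 := pow_lt_pow_left₀ c21 (q 2 1).le (by norm_num)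
    have a6 : (A * cls m N 3 1) ^ 2 < R ^ 2 := pow_lt_pow_left₀ c31 (q 3 1).le (by norm_num)
    have a7 : (A * cls m N 4 1) ^ 1 < R ^ 1 := pow_lt_pow_left₀ c41 (q 4 1).le (by norm_num)
    calc _ = (A * cls m N 1 1) ^ 4 * (A * cls m N 1 2) ^ 3 * (A * cls m N 1 3) ^ 2 *
        (A * cls m N 1 4) ^ 1 * (A * cls m N 2 1) ^ 3 * (A * cls m N 3 1) ^ 2 *
        (A * cls m N 4 1) ^ 1 := by ring
      _ < R ^ 4 * R ^ 3 * R ^ 2 * R ^ 1 * R ^ 3 * R ^ 2 * R ^ 1 := by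
        have := q 1 1
        have := q 1 2
        have := q 1 3
        have := q 1 4
        have := q 2 1
        have := q 3 1
        have := q 4 1
        gcongr
      _ = R ^ 16 := by ring
  have h2 := h1.trans_le hk
  exact lt_of_mul_lt_mul_right h2 (by positivity)

theorem weights (X m n : ℕ) (hm : 1 ≤ m) (hn : 1 ≤ n) (hmX : m ≤ X) (hnX : n ≤ X)
    (h : Par m n) : ∃ c ∈ sevenClasses,
      (rd m : ℝ) ≤ 3 * (X : ℝ) ^ ((7 : ℝ) / 16) * cls m (n + 1) c.1 c.2 ∨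
      (rd n : ℝ) ≤ 3 * (X : ℝ) ^ ((7 : ℝ) / 16) * cls n (m + 1) c.1 c.2 := by
  by_contra hcon
  push Not at hcon
  have hX : 1 ≤ X := hm.trans hmX
  have hX0 : (0 : ℝ) < X := by exact_mod_cast hX
  set A : ℝ := 3 * (X : ℝ) ^ ((7 : ℝ) / 16) with hA
  have hApos : 0 < A := by positivity
  have h1 := mtE_small m (n + 1) (by omega) (by omega) h.1 A hApos fun c hc => (hcon c hc).1
  have h2 := mtE_small n (m + 1) (by omega) (by omega) h.2 A hApos fun c hc => (hcon c hc).2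
  have hA16 : A ^ 16 = 3 ^ 16 * (X : ℝ) ^ 7 := by
    rw [hA, mul_pow, ← Real.rpow_natCast ((X : ℝ) ^ ((7 : ℝ) / 16)) 16, ← Real.rpow_mul hX0.le]
    norm_num
  have hg : m.gcd (n + 1) * n.gcd (m + 1) ≤ 3 * X := by
    have hco : Nat.Coprime (m.gcd (n + 1)) (n.gcd (m + 1)) := by
      have h3 : Nat.Coprime m (m + 1) := by simp
      exact (h3.coprime_dvd_left (Nat.gcd_dvd_left _ _)).coprime_dvd_right (Nat.gcd_dvd_right _ _)
    have d1 : m.gcd (n + 1) ∣ m + n + 1 := by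
      rw [add_assoc]
      exact dvd_add (Nat.gcd_dvd_left _ _) (Nat.gcd_dvd_right _ _)
    have d2 : n.gcd (m + 1) ∣ m + n + 1 := by
      rw [show m + n + 1 = n + (m + 1) by ring]
      exact dvd_add (Nat.gcd_dvd_left _ _) (Nat.gcd_dvd_right _ _)
    have := Nat.le_of_dvd (by omega) (hco.mul_dvd_of_dvd_of_dvd d1 d2)
    omega
  have hg' : ((m.gcd (n + 1) : ℕ) : ℝ) * ((n.gcd (m + 1) : ℕ) : ℝ) ≤ 3 * X := by
    exact_mod_cast hg
  have hmX' : (m : ℝ) ≤ X := by exact_mod_cast hmX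
  have hnX' : (n : ℝ) ≤ X := by exact_mod_cast hnX
  have hm1 : ((m + 1 : ℕ) : ℝ) ≤ 2 * X := by
    have : m + 1 ≤ 2 * X := by omega
    exact_mod_cast this
  have hn1 : ((n + 1 : ℕ) : ℝ) ≤ 2 * X := by
    have : n + 1 ≤ 2 * X := by omega
    exact_mod_cast this
  have h3 : A ^ 16 * A ^ 16 < ((m : ℝ) * (n + 1 : ℕ) * ((m.gcd (n + 1) : ℕ) : ℝ) ^ 10) *
      ((n : ℝ) * (m + 1 : ℕ) * ((n.gcd (m + 1) : ℕ) : ℝ) ^ 10) :=
    mul_lt_mul'' h1 h2 (by positivity) (by positivity)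
  have h4 : ((m : ℝ) * (n + 1 : ℕ) * ((m.gcd (n + 1) : ℕ) : ℝ) ^ 10) *
      ((n : ℝ) * (m + 1 : ℕ) * ((n.gcd (m + 1) : ℕ) : ℝ) ^ 10) ≤
      (X * (2 * X)) * (X * (2 * X)) * (3 * X) ^ 10 := by
    calc _ = ((m : ℝ) * (n + 1 : ℕ)) * ((n : ℝ) * (m + 1 : ℕ)) *
        (((m.gcd (n + 1) : ℕ) : ℝ) * ((n.gcd (m + 1) : ℕ) : ℝ)) ^ 10 := by ring
      _ ≤ _ := by gcongr
  have h5 := h3.trans_le h4
  rw [hA16] at h5
  have h6 : (X * (2 * X)) * (X * (2 * X)) * (3 * X) ^ 10 = 4 * 3 ^ 10 * (X : ℝ) ^ 14 := by ring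
  have h7 : 3 ^ 16 * (X : ℝ) ^ 7 * (3 ^ 16 * (X : ℝ) ^ 7) = 3 ^ 32 * (X : ℝ) ^ 14 := by ring
  rw [h6, h7] at h5
  have h8 := lt_of_mul_lt_mul_right h5 (by positivity)
  norm_num at h8

end Pool.Agent.MS
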