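import Pool.Agent.Lib.MP_31e8d2_nt.Defs

/-!
# MP_31e8d2_nt, module DF (MtF): the degenerate cases
-/

namespace Pool.Agent.MS

open Finset

/-- a positive integer all of whose prime factors are `2` is a power of `2` -/
theorem MtF_pow (a : ℕ) (ha : a ≠ 0) (h : ∀ q : ℕ, q.Prime → q ∣ a → q = 2) :
    ∃ k : ℕ, a = 2 ^ k :=
  ⟨a.primeFactorsList.length, Nat.eq_prime_pow_of_unique_prime_dvd ha fun {q} hq hd => h q hq hd⟩

/-- a prime of `n` divides `m + 1` -/
theorem MtF_dvd (m n q : ℕ) (hn : 1 ≤ n) (h : Par m n) (hq : q.Prime) (hd : q ∣ n) : q ∣ m + 1 := by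
  have h1 : q ∈ n.primeFactors := Nat.mem_primeFactors.2 ⟨hq, hd, by omega⟩
  rw [h.2] at h1
  exact Nat.dvd_of_mem_primeFactors h1

theorem no_four (m n : ℕ) (hn : 1 ≤ n) (h : Par m n) : m ^ 4 ≠ n + 1 := by
  intro he
  have hm : 2 ≤ m := by
    by_contra hc
    have h01 : m = 0 ∨ m = 1 := by omega
    rcases h01 with h0 | h0
    · subst h0
      simp at he
    · subst h0
      simp at he
      omega
  have hprod : n = (m ^ 2 + 1) * (m ^ 2 - 1) := by
    have h1 : 1 ≤ m ^ 2 := Nat.one_le_pow _ _ (by omega)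
    zify [h1]
    have h2 : (m : ℤ) ^ 4 = n + 1 := by exact_mod_cast he
    linear_combination -h2
  have hpow : ∀ q : ℕ, q.Prime → q ∣ m ^ 2 + 1 → q = 2 := by
    intro q hq hd
    have hqn : q ∣ n := by
      rw [hprod]
      exact Dvd.dvd.mul_right hd _
    have hqm := MtF_dvd m n q hn h hq hqn
    have h3 : q ∣ 2 := by
      have h4 : (q : ℤ) ∣ 2 := by
        have h5 : (q : ℤ) ∣ (m : ℤ) ^ 2 + 1 := by exact_mod_cast hd
        have h6 : (q : ℤ) ∣ (m : ℤ) + 1 := by exact_mod_cast hqm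
        have h7 : (2 : ℤ) = ((m : ℤ) ^ 2 + 1) - ((m : ℤ) + 1) * ((m : ℤ) - 1) := by ring
        rw [h7]
        exact dvd_sub h5 (Dvd.dvd.mul_right h6 _)
      exact_mod_cast h4
    exact (Nat.prime_dvd_prime_iff_eq hq Nat.prime_two).1 h3
  obtain ⟨k, hk⟩ := MtF_pow (m ^ 2 + 1) (by positivity) hpow
  have hm2 : 4 ≤ m ^ 2 := by nlinarith
  have hk2 : 2 ≤ k := by
    by_contra hc
    have h01 : k = 0 ∨ k = 1 := by omega
    rcases h01 with h0 | h0
    · subst h0
      omega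
    · subst h0
      omega
  obtain ⟨j, rfl⟩ := Nat.exists_eq_add_of_le hk2
  rw [pow_add] at hk
  have h4 : (m ^ 2 + 1) % 4 = 0 := by omega
  have h5 : m % 4 = 0 ∨ m % 4 = 1 ∨ m % 4 = 2 ∨ m % 4 = 3 := by omega
  rcases h5 with h5 | h5 | h5 | h5 <;> simp [Nat.add_mod, Nat.pow_mod, h5] at h4

theorem family (m n j : ℕ) (hj : 1 ≤ j) (hn : 1 ≤ n) (h : Par m n) (hs : m ^ (2 * j) = n + 1) :
    ∃ k : ℕ, m = 2 ^ k + 1 := by
  have hm : 2 ≤ m := by
    by_contra hc
    have h01 : m = 0 ∨ m = 1 := by omega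
    rcases h01 with h0 | h0
    · subst h0
      rw [zero_pow (by omega)] at hs
      omega
    · subst h0
      rw [one_pow] at hs
      omega
  obtain ⟨k, hk⟩ := MtF_pow (m - 1) (by omega) (by
    intro q hq hd
    have hqn : q ∣ n := by
      have h1 : m - 1 ∣ m ^ (2 * j) - 1 := by
        simpa using Nat.sub_dvd_pow_sub_pow m 1 (2 * j)
      rw [hs, Nat.add_sub_cancel] at h1
      exact hd.trans h1
    have hqm := MtF_dvd m n q hn h hq hqn
    have h3 : q ∣ 2 := by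
      have h4 : q ∣ (m + 1) - (m - 1) := Nat.dvd_sub hqm hd
      have h5 : (m + 1) - (m - 1) = 2 := by omega
      rwa [h5] at h4
    exact (Nat.prime_dvd_prime_iff_eq hq Nat.prime_two).1 h3)
  exact ⟨k, by omega⟩

end Pool.Agent.MS
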