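import Pool.Agent.Lib.MP_31e8d2_nt.Defs
import Pool.Agent.Lib.MP_31e8d2_nt.MtD
import Pool.Agent.Lib.MP_31e8d2_nt.MtE
import Pool.Agent.Lib.MP_31e8d2_nt.MtF

/-!
# Motzkin–Straus pairs, module DG: the number of pairs up to `X`
-/

namespace Pool.Agent.MS

open Finset

/-- the exceptional condition does not occur for the seven classes -/
theorem MtG_excl (m n : ℕ) (hn : 1 ≤ n) (h : Par m n) (h2 : m ^ 2 ≠ n + 1) (c : ℕ × ℕ)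
    (hc : c ∈ sevenClasses) : ¬ (Even c.2 ∧ m ^ c.2 = (n + 1) ^ c.1) := by
  have h4 := no_four m n hn h
  simp only [sevenClasses, mem_insert, mem_singleton] at hc
  rintro ⟨he, heq⟩
  rcases hc with rfl | rfl | rfl | rfl | rfl | rfl | rfl
  · exact absurd he (by decide)
  · exact h2 (by simpa using heq)
  · exact absurd he (by decide)
  · exact h4 (by simpa using heq)
  · exact absurd he (by decide)
  · exact absurd he (by decide)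
  · exact absurd he (by decide)

theorem MtG_pos (c : ℕ × ℕ) (hc : c ∈ sevenClasses) : 1 ≤ c.1 ∧ 1 ≤ c.2 := by
  simp only [sevenClasses, mem_insert, mem_singleton] at hc
  rcases hc with rfl | rfl | rfl | rfl | rfl | rfl | rfl <;> exact ⟨by decide, by decide⟩

theorem pairs_final (ε : ℝ) (hε : 0 < ε) : ∃ C : ℝ, ∀ X : ℕ, 1 ≤ X →
    (Set.ncard {x : ℕ × ℕ | 1 ≤ x.1 ∧ x.1 ≤ X ∧ 1 ≤ x.2 ∧ x.2 ≤ X ∧ Par x.1 x.2 ∧
      x.1 ^ 2 ≠ x.2 + 1 ∧ x.2 ^ 2 ≠ x.1 + 1} : ℝ) ≤ C * (X : ℝ) ^ ((7 : ℝ) / 16 + ε) := by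
  classical
  have hδ : 0 < ε / 2 := by positivity
  have hex : ∀ c : ℕ × ℕ, ∃ C : ℝ, c ∈ sevenClasses → (0 < C ∧ ∀ X N Z : ℕ, 1 ≤ X → 1 ≤ N →
      1 ≤ Z → (Set.ncard {x : ℕ × ℕ | 1 ≤ x.1 ∧ x.1 ≤ X ∧ 1 ≤ x.2 ∧ x.2 ≤ N ∧ Par x.1 x.2 ∧
      ¬ (Even c.2 ∧ x.1 ^ c.2 = (x.2 + 1) ^ c.1) ∧
      rd x.1 ≤ Z * cls x.1 (x.2 + 1) c.1 c.2} : ℝ) ≤
      C * Z * ((X : ℝ) * N) ^ (ε / 2)) := by
    intro c
    by_cases hc : c ∈ sevenClasses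
    · obtain ⟨C, hC⟩ := class_count c.1 c.2 (MtG_pos c hc).1 (MtG_pos c hc).2 (ε / 2) hδ
      exact ⟨C, fun _ => hC⟩
    · exact ⟨0, fun h => absurd h hc⟩
  choose C hC using hex
  refine ⟨∑ c ∈ sevenClasses, 8 * C c, ?_⟩
  intro X hX
  have hX1 : (1 : ℝ) ≤ X := by exact_mod_cast hX
  have hX0 : (0 : ℝ) < X := by linarith
  let Z : ℕ := ⌈3 * (X : ℝ) ^ ((7 : ℝ) / 16)⌉₊
  have hpow1 : (1 : ℝ) ≤ (X : ℝ) ^ ((7 : ℝ) / 16) := Real.one_le_rpow hX1 (by norm_num)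
  have hZ1 : 1 ≤ Z := Nat.one_le_iff_ne_zero.2 (Nat.ceil_pos.2 (by positivity)).ne'
  have hZge : 3 * (X : ℝ) ^ ((7 : ℝ) / 16) ≤ (Z : ℝ) := Nat.le_ceil _
  have hZle : (Z : ℝ) ≤ 4 * (X : ℝ) ^ ((7 : ℝ) / 16) := by
    have h1 : (Z : ℝ) < 3 * (X : ℝ) ^ ((7 : ℝ) / 16) + 1 := Nat.ceil_lt_add_one (by positivity)
    linarith
  let B : Finset (ℕ × ℕ) := Icc 1 X ×ˢ Icc 1 X
  let P : ℕ × ℕ → Finset (ℕ × ℕ) := fun c => B.filter fun x => Par x.1 x.2 ∧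
      ¬ (Even c.2 ∧ x.1 ^ c.2 = (x.2 + 1) ^ c.1) ∧ rd x.1 ≤ Z * cls x.1 (x.2 + 1) c.1 c.2
  have hmemB : ∀ x : ℕ × ℕ, x ∈ B ↔ (1 ≤ x.1 ∧ x.1 ≤ X ∧ 1 ≤ x.2 ∧ x.2 ≤ X) := by
    intro x
    simp only [B, mem_product, mem_Icc]
    tauto
  have hPcard : ∀ c ∈ sevenClasses, ((P c).card : ℝ) ≤ C c * Z * ((X : ℝ) * X) ^ (ε / 2) := by
    intro c hc
    have h1 := (hC c hc).2 X X Z hX hX hZ1
    have h2 : {x : ℕ × ℕ | 1 ≤ x.1 ∧ x.1 ≤ X ∧ 1 ≤ x.2 ∧ x.2 ≤ X ∧ Par x.1 x.2 ∧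
      ¬ (Even c.2 ∧ x.1 ^ c.2 = (x.2 + 1) ^ c.1) ∧
      rd x.1 ≤ Z * cls x.1 (x.2 + 1) c.1 c.2} = ((P c : Finset (ℕ × ℕ)) : Set (ℕ × ℕ)) := by
      ext x
      simp only [P, Set.mem_ofPred_eq, mem_coe, mem_filter, hmemB]
      tauto
    rw [h2, Set.ncard_coe_finset] at h1
    exact h1
  have hS : {x : ℕ × ℕ | 1 ≤ x.1 ∧ x.1 ≤ X ∧ 1 ≤ x.2 ∧ x.2 ≤ X ∧ Par x.1 x.2 ∧
      x.1 ^ 2 ≠ x.2 + 1 ∧ x.2 ^ 2 ≠ x.1 + 1} ⊆
      ((sevenClasses.biUnion fun c => P c ∪ (P c).image Prod.swap : Finset (ℕ × ℕ)) :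
        Set (ℕ × ℕ)) := by
    rintro ⟨m, n⟩ ⟨hm1, hmX, hn1, hnX, hpar, h1, h2⟩
    simp only at hm1 hmX hn1 hnX hpar h1 h2
    obtain ⟨c, hc, hor⟩ := weights X m n hm1 hn1 hmX hnX hpar
    rw [mem_coe, mem_biUnion]
    refine ⟨c, hc, ?_⟩
    rcases hor with hor | hor
    · refine mem_union_left _ (mem_filter.2 ⟨(hmemB _).2 ⟨hm1, hmX, hn1, hnX⟩, hpar,
        MtG_excl m n hn1 hpar h1 c hc, ?_⟩)
      have h3 : (rd m : ℝ) ≤ (Z : ℝ) * cls m (n + 1) c.1 c.2 :=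
        hor.trans (mul_le_mul_of_nonneg_right hZge (Nat.cast_nonneg _))
      exact_mod_cast h3
    · refine mem_union_right _ (mem_image.2 ⟨(n, m), ?_, rfl⟩)
      have hpar' : Par n m := ⟨hpar.2, hpar.1⟩
      refine mem_filter.2 ⟨(hmemB _).2 ⟨hn1, hnX, hm1, hmX⟩, hpar',
        MtG_excl n m hm1 hpar' h2 c hc, ?_⟩
      have h3 : (rd n : ℝ) ≤ (Z : ℝ) * cls n (m + 1) c.1 c.2 :=
        hor.trans (mul_le_mul_of_nonneg_right hZge (Nat.cast_nonneg _))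
      exact_mod_cast h3
  have hcard : (Set.ncard {x : ℕ × ℕ | 1 ≤ x.1 ∧ x.1 ≤ X ∧ 1 ≤ x.2 ∧ x.2 ≤ X ∧ Par x.1 x.2 ∧
      x.1 ^ 2 ≠ x.2 + 1 ∧ x.2 ^ 2 ≠ x.1 + 1} : ℝ) ≤
      ∑ c ∈ sevenClasses, (2 * ((P c).card : ℝ)) := by
    have k1 := Set.ncard_le_ncard hS (finite_toSet _)
    rw [Set.ncard_coe_finset] at k1
    have k2 := card_biUnion_le (s := sevenClasses) (t := fun c => P c ∪ (P c).image Prod.swap)
    have k3 : ∑ c ∈ sevenClasses, (P c ∪ (P c).image Prod.swap).card ≤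
        ∑ c ∈ sevenClasses, 2 * (P c).card := by
      refine sum_le_sum fun c _ => ?_
      have k4 := card_union_le (P c) ((P c).image Prod.swap)
      have k5 : ((P c).image Prod.swap).card ≤ (P c).card := card_image_le
      omega
    have k6 := k1.trans (k2.trans k3)
    exact_mod_cast k6
  refine hcard.trans ?_
  rw [sum_mul]
  refine sum_le_sum fun c hc => ?_
  have hCc : 0 < C c := (hC c hc).1
  have hrp : ((X : ℝ) * X) ^ (ε / 2) = (X : ℝ) ^ ε := by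
    rw [Real.mul_rpow hX0.le hX0.le, ← Real.rpow_add hX0]
    congr 1
    ring
  have h5 : C c * Z * ((X : ℝ) * X) ^ (ε / 2) ≤
      C c * (4 * (X : ℝ) ^ ((7 : ℝ) / 16)) * (X : ℝ) ^ ε := by
    rw [hrp]
    refine mul_le_mul_of_nonneg_right ?_ (by positivity)
    exact mul_le_mul_of_nonneg_left hZle hCc.le
  rw [Real.rpow_add hX0]
  calc 2 * ((P c).card : ℝ) ≤ 2 * (C c * (4 * (X : ℝ) ^ ((7 : ℝ) / 16)) * (X : ℝ) ^ ε) := by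
        have := (hPcard c hc).trans h5
        linarith
    _ = 8 * C c * ((X : ℝ) ^ ((7 : ℝ) / 16) * (X : ℝ) ^ ε) := by ring

end Pool.Agent.MS
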