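import Pool.Agent.Lib.MP_31e8d2_nt.Defs

/-!
MP_31e8d2_nt, project MS2, module DH: a large class when the radical is large.
-/

namespace Pool.Agent.MS

open Finset

theorem MtH_split (m n' E : ℕ) (h : m.primeFactors = n'.primeFactors) :
    rd m = (∏ p ∈ m.primeFactors.filter fun p => 2 ≤ m.factorization p, p) *
      ((∏ p ∈ m.primeFactors.filter fun p => m.factorization p = 1 ∧ E < n'.factorization p, p) *
        ∏ e ∈ Icc 1 E, cls m n' 1 e) := by
  have hpos : ∀ p ∈ m.primeFactors, 1 ≤ m.factorization p ∧ 1 ≤ n'.factorization p := by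
    intro p hp
    have hp' : p ∈ n'.primeFactors := h ▸ hp
    rw [← Nat.support_factorization, Finsupp.mem_support_iff] at hp hp'
    omega
  have h1 : ∏ e ∈ Icc 1 E, cls m n' 1 e =
      ∏ p ∈ m.primeFactors.filter fun p => m.factorization p = 1 ∧ ¬ E < n'.factorization p, p := by
    rw [← Finset.prod_fiberwise_of_maps_to (s := m.primeFactors.filter fun p =>
      m.factorization p = 1 ∧ ¬ E < n'.factorization p) (t := Icc 1 E)
      (g := fun p => n'.factorization p)]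
    · refine Finset.prod_congr rfl fun e he => ?_
      unfold cls
      refine Finset.prod_congr ?_ fun _ _ => rfl
      ext p
      rw [Finset.mem_Icc] at he
      simp only [Finset.mem_filter]
      constructor
      · rintro ⟨hp, h1, h2⟩
        exact ⟨⟨hp, h1, by omega⟩, h2⟩
      · rintro ⟨⟨hp, h1, _⟩, h2⟩
        exact ⟨hp, h1, h2⟩
    · intro p hp
      rw [Finset.mem_filter] at hp
      rw [Finset.mem_Icc]
      exact ⟨(hpos p hp.1).2, by omega⟩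
  rw [h1, rd, ← Finset.prod_filter_mul_prod_filter_not m.primeFactors
    (fun p => 2 ≤ m.factorization p)]
  congr 1
  have h2 : (m.primeFactors.filter fun p => ¬ 2 ≤ m.factorization p) =
      m.primeFactors.filter fun p => m.factorization p = 1 := by
    ext p
    simp only [Finset.mem_filter]
    constructor
    · rintro ⟨hp, h3⟩
      have := (hpos p hp).1
      exact ⟨hp, by omega⟩
    · rintro ⟨hp, h3⟩
      exact ⟨hp, by omega⟩
  rw [h2, ← Finset.prod_filter_mul_prod_filter_not (m.primeFactors.filter fun p =>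
    m.factorization p = 1) (fun p => E < n'.factorization p), Finset.filter_filter,
    Finset.filter_filter]

theorem MtH_A (m : ℕ) (hm : m ≠ 0) :
    (∏ p ∈ m.primeFactors.filter fun p => 2 ≤ m.factorization p, p) * rd m ≤ m := by
  conv_rhs => rw [← Nat.prod_factorization_pow_eq_self hm]
  rw [Finset.prod_filter, rd, ← Finset.prod_mul_distrib]
  show _ ≤ ∏ p ∈ m.factorization.support, p ^ m.factorization p
  rw [Nat.support_factorization]
  refine Finset.prod_le_prod' fun p hp => ?_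
  have h1 : 1 ≤ p := (Nat.prime_of_mem_primeFactors hp).one_lt.le
  have h2 : 1 ≤ m.factorization p := by
    rw [← Nat.support_factorization, Finsupp.mem_support_iff] at hp
    omega
  split_ifs with h
  · calc p * p = p ^ 2 := (sq p).symm
      _ ≤ p ^ m.factorization p := Nat.pow_le_pow_right h1 h
  · calc 1 * p = p ^ 1 := by ring
      _ ≤ p ^ m.factorization p := Nat.pow_le_pow_right h1 h2

theorem MtH_B (m n' E : ℕ) (hn : n' ≠ 0) (h : m.primeFactors = n'.primeFactors) :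
    (∏ p ∈ m.primeFactors.filter fun p => m.factorization p = 1 ∧ E < n'.factorization p, p) ^
      (E + 1) ≤ n' := by
  conv_rhs => rw [← Nat.prod_factorization_pow_eq_self hn]
  show _ ≤ ∏ p ∈ n'.factorization.support, p ^ n'.factorization p
  rw [Nat.support_factorization, ← h, ← Finset.prod_pow]
  refine le_trans (Finset.prod_le_prod' fun p hp => ?_)
    (Finset.prod_le_prod_of_subset_of_one_le' (Finset.filter_subset (fun p =>
      m.factorization p = 1 ∧ E < n'.factorization p) _) fun p hp _ => ?_)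
  · rw [Finset.mem_filter] at hp
    exact Nat.pow_le_pow_right (Nat.prime_of_mem_primeFactors hp.1).one_lt.le hp.2.2
  · exact Nat.one_le_pow _ _ (Nat.prime_of_mem_primeFactors hp).pos

theorem big_class (K M m n : ℕ) (hK : 1 ≤ K) (hM : 1 ≤ M) (hm1 : 1 ≤ m) (hm : m ≤ M) (hn : 1 ≤ n)
    (hnK : n ≤ M ^ K) (h : Par m n) (hr : (M : ℝ) ^ ((3 : ℝ) / 4) ≤ rd m) :
    ∃ e : ℕ, 1 ≤ e ∧ e ≤ 8 * K ∧
      (rd m : ℝ) ≤ 2 * (M : ℝ) ^ (1 - 1 / (32 * K : ℝ)) * cls m (n + 1) 1 e := by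
  by_contra hcon
  push Not at hcon
  have hK0 : (0:ℝ) < K := by exact_mod_cast hK
  have hM0 : (0:ℝ) < M := by exact_mod_cast hM
  have hM1 : (1:ℝ) ≤ M := by exact_mod_cast hM
  have hsplit := MtH_split m (n + 1) (8 * K) h.1
  have hA := MtH_A m (by omega)
  have hB := MtH_B m (n + 1) (8 * K) (by omega) h.1
  obtain ⟨A, hAd⟩ : ∃ A, A = ∏ p ∈ m.primeFactors.filter fun p => 2 ≤ m.factorization p, p :=
    ⟨_, rfl⟩
  obtain ⟨B, hBd⟩ : ∃ B, B = ∏ p ∈ m.primeFactors.filter fun p =>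
    m.factorization p = 1 ∧ 8 * K < (n + 1).factorization p, p := ⟨_, rfl⟩
  rw [← hAd] at hsplit hA
  rw [← hBd] at hsplit hB
  have hrm : (rd m : ℝ) ≤ M := by
    have h1 : rd m ≤ m := by
      have hA1 : 1 ≤ A := by
        rw [hAd]
        exact Finset.one_le_prod' fun p hp =>
          (Nat.prime_of_mem_primeFactors (Finset.mem_filter.1 hp).1).pos
      calc rd m = 1 * rd m := (one_mul _).symm
        _ ≤ A * rd m := Nat.mul_le_mul_right _ hA1
        _ ≤ m := hA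
    exact_mod_cast h1.trans hm
  have hr0 : (0:ℝ) < rd m := lt_of_lt_of_le (Real.rpow_pos_of_pos hM0 _) hr
  -- `A ≤ M ^ (1/4)`
  have hA4 : (A : ℝ) ≤ (M : ℝ) ^ ((1:ℝ) / 4) := by
    have h1 : (A : ℝ) * rd m ≤ M := by exact_mod_cast hA.trans hm
    have h2 : (A : ℝ) * (M : ℝ) ^ ((3:ℝ) / 4) ≤ (M : ℝ) ^ ((1:ℝ) / 4) * (M : ℝ) ^ ((3:ℝ) / 4) := by
      rw [← Real.rpow_add hM0]
      norm_num
      exact le_trans (mul_le_mul_of_nonneg_left hr (Nat.cast_nonneg _)) h1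
    exact le_of_mul_le_mul_right h2 (Real.rpow_pos_of_pos hM0 _)
  -- `B ≤ 2 M ^ (1/8)`
  have hB8 : (B : ℝ) ≤ 2 * (M : ℝ) ^ ((1:ℝ) / 8) := by
    by_contra hc
    push Not at hc
    have hp : (0:ℝ) < (M : ℝ) ^ ((1:ℝ) / 8) := Real.rpow_pos_of_pos hM0 _
    have hp1 : (1:ℝ) ≤ (M : ℝ) ^ ((1:ℝ) / 8) := Real.one_le_rpow hM1 (by norm_num)
    have h1 : (2 * (M : ℝ) ^ ((1:ℝ) / 8)) ^ (8 * K) < (B : ℝ) ^ (8 * K) :=
      pow_lt_pow_left₀ hc (by positivity) (by omega)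
    have hB1 : (1:ℝ) ≤ B := by linarith
    have h2 : (B : ℝ) ^ (8 * K) ≤ (B : ℝ) ^ (8 * K + 1) := pow_le_pow_right₀ hB1 (by omega)
    have h3 : (B : ℝ) ^ (8 * K + 1) ≤ 2 * (M : ℝ) ^ K := by
      have h4 : B ^ (8 * K + 1) ≤ 2 * M ^ K := by
        have : 1 ≤ M ^ K := Nat.one_le_pow _ _ hM
        omega
      exact_mod_cast h4
    have h5 : (2 * (M : ℝ) ^ ((1:ℝ) / 8)) ^ (8 * K) = 2 ^ (8 * K) * (M : ℝ) ^ K := by
      rw [mul_pow, ← Real.rpow_natCast ((M : ℝ) ^ ((1:ℝ) / 8)), ← Real.rpow_mul hM0.le]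
      congr 1
      rw [show (1:ℝ) / 8 * ((8 * K : ℕ) : ℝ) = (K : ℝ) by push_cast; ring, Real.rpow_natCast]
    have h6 : (2:ℝ) ≤ 2 ^ (8 * K) := by
      calc (2:ℝ) = 2 ^ 1 := (pow_one _).symm
        _ ≤ 2 ^ (8 * K) := pow_le_pow_right₀ (by norm_num) (by omega)
    have h7 : 2 * (M : ℝ) ^ K ≤ 2 ^ (8 * K) * (M : ℝ) ^ K :=
      mul_le_mul_of_nonneg_right h6 (by positivity)
    rw [h5] at h1
    linarith
  -- the classes are small
  have hce : ∀ e ∈ Icc 1 (8 * K), (cls m (n + 1) 1 e : ℝ) ≤ (M : ℝ) ^ (1 / (32 * K : ℝ)) / 2 := by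
    intro e he
    rw [Finset.mem_Icc] at he
    have h1 := (hcon e he.1 he.2).trans_le hrm
    have h2 : (M : ℝ) ^ (1 - 1 / (32 * K : ℝ)) * (M : ℝ) ^ (1 / (32 * K : ℝ)) = M := by
      rw [← Real.rpow_add hM0, sub_add_cancel, Real.rpow_one]
    have hq : (0:ℝ) < (M : ℝ) ^ (1 - 1 / (32 * K : ℝ)) := Real.rpow_pos_of_pos hM0 _
    have h3 : (M : ℝ) ^ (1 - 1 / (32 * K : ℝ)) * (2 * cls m (n + 1) 1 e) <
        (M : ℝ) ^ (1 - 1 / (32 * K : ℝ)) * (M : ℝ) ^ (1 / (32 * K : ℝ)) := by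
      rw [h2]
      calc (M : ℝ) ^ (1 - 1 / (32 * K : ℝ)) * (2 * cls m (n + 1) 1 e)
          = 2 * (M : ℝ) ^ (1 - 1 / (32 * K : ℝ)) * cls m (n + 1) 1 e := by ring
        _ < M := h1
    have h4 := lt_of_mul_lt_mul_left h3 hq.le
    linarith
  have hprod : ((∏ e ∈ Icc 1 (8 * K), cls m (n + 1) 1 e : ℕ) : ℝ) ≤ (M : ℝ) ^ ((1:ℝ) / 4) / 2 := by
    push_cast
    refine (Finset.prod_le_prod (fun _ _ => Nat.cast_nonneg _) hce).trans ?_
    rw [Finset.prod_const, Nat.card_Icc, Nat.add_sub_cancel, div_pow]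
    have h1 : ((M : ℝ) ^ (1 / (32 * K : ℝ))) ^ (8 * K) = (M : ℝ) ^ ((1:ℝ) / 4) := by
      rw [← Real.rpow_natCast, ← Real.rpow_mul hM0.le]
      congr 1
      push_cast
      field_simp
      norm_num
    rw [h1]
    have h6 : (2:ℝ) ≤ 2 ^ (8 * K) := by
      calc (2:ℝ) = 2 ^ 1 := (pow_one _).symm
        _ ≤ 2 ^ (8 * K) := pow_le_pow_right₀ (by norm_num) (by omega)
    have hp : (0:ℝ) < (M : ℝ) ^ ((1:ℝ) / 4) := Real.rpow_pos_of_pos hM0 _
    exact div_le_div_of_nonneg_left hp.le (by norm_num) h6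
  have hfin : (rd m : ℝ) ≤ (M : ℝ) ^ ((1:ℝ) / 4) * (2 * (M : ℝ) ^ ((1:ℝ) / 8) *
      ((M : ℝ) ^ ((1:ℝ) / 4) / 2)) := by
    rw [hsplit]
    push_cast
    push_cast at hprod
    have hp : (0:ℝ) ≤ (M : ℝ) ^ ((1:ℝ) / 4) := by positivity
    refine mul_le_mul hA4 (mul_le_mul hB8 hprod (by positivity) (by positivity)) (by positivity) hp
  have h8 : (M : ℝ) ^ ((1:ℝ) / 4) * (2 * (M : ℝ) ^ ((1:ℝ) / 8) * ((M : ℝ) ^ ((1:ℝ) / 4) / 2)) =
      (M : ℝ) ^ ((5:ℝ) / 8) := by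
    calc (M : ℝ) ^ ((1:ℝ) / 4) * (2 * (M : ℝ) ^ ((1:ℝ) / 8) * ((M : ℝ) ^ ((1:ℝ) / 4) / 2))
        = (M : ℝ) ^ ((1:ℝ) / 4) * ((M : ℝ) ^ ((1:ℝ) / 8) * (M : ℝ) ^ ((1:ℝ) / 4)) := by ring
      _ = (M : ℝ) ^ ((5:ℝ) / 8) := by
          rw [← Real.rpow_add hM0, ← Real.rpow_add hM0]
          norm_num
  rw [h8] at hfin
  -- so `M = 1`, a contradiction with the bound of the classes
  have h9 : (M : ℝ) ^ ((3:ℝ) / 4) ≤ (M : ℝ) ^ ((5:ℝ) / 8) := hr.trans hfin
  have hM1' : (M : ℝ) = 1 := by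
    by_contra hne
    have hlt : (1:ℝ) < M := lt_of_le_of_ne hM1 (Ne.symm hne)
    exact absurd h9 (not_le.2 (Real.rpow_lt_rpow_of_exponent_lt hlt (by norm_num)))
  have h10 := hce 1 (Finset.mem_Icc.2 ⟨le_rfl, by omega⟩)
  rw [hM1', Real.one_rpow] at h10
  have h11 : 1 ≤ cls m (n + 1) 1 1 := by
    unfold cls
    exact Finset.one_le_prod' fun p hp =>
      (Nat.prime_of_mem_primeFactors (Finset.mem_filter.1 hp).1).pos
  have h12 : (1:ℝ) ≤ cls m (n + 1) 1 1 := by exact_mod_cast h11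
  linarith

end Pool.Agent.MS
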