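import Pool.Agent.Lib.MP_31e8d2_nt.Defs
import Pool.Agent.Lib.MP_31e8d2_nt.MtB
import Pool.Agent.Lib.MP_31e8d2_nt.MtD
import Pool.Agent.Lib.MP_31e8d2_nt.MtF
import Pool.Agent.Lib.MP_31e8d2_nt.MtH

/-!
# MP_31e8d2_nt, module MtI: partners up to a power of `M`
-/

namespace Pool.Agent.MS

open Finset

/-- the number of `m ≤ M` of the form `2 ^ k + 1` -/
theorem MtI_family_count (M : ℕ) (hM : 1 ≤ M) (δ : ℝ) (hδ : (1 : ℝ) / 2 ≤ δ) :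
    ((((range (Nat.log 2 M + 1)).image fun k => 2 ^ k + 1).card : ℕ) : ℝ) ≤
      5 * (M : ℝ) ^ δ := by
  have hM1 : (1 : ℝ) ≤ (M : ℝ) := by exact_mod_cast hM
  have h1 : (((range (Nat.log 2 M + 1)).image fun k => 2 ^ k + 1).card : ℝ) ≤
      (Nat.log 2 M : ℝ) + 1 := by
    have := card_image_le (s := range (Nat.log 2 M + 1)) (f := fun k => 2 ^ k + 1)
    rw [card_range] at this
    exact_mod_cast this
  have h2 : (Nat.log 2 M : ℝ) ≤ 4 * (M : ℝ) ^ ((1 : ℝ) / 2) := by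
    have ha : (Nat.log 2 M : ℝ) ≤ Real.logb 2 M := by
      have := Real.natLog_le_logb M 2
      exact_mod_cast this
    have hb : Real.log M ≤ (M : ℝ) ^ ((1 : ℝ) / 2) / (1 / 2) :=
      Real.log_le_rpow_div (by positivity) (by norm_num)
    have hc : (1 : ℝ) / 2 ≤ Real.log 2 := by
      have := Real.log_two_gt_d9
      linarith
    have hd : 0 ≤ (M : ℝ) ^ ((1 : ℝ) / 2) := by positivity
    calc (Nat.log 2 M : ℝ) ≤ Real.logb 2 M := ha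
      _ = Real.log M / Real.log 2 := rfl
      _ ≤ Real.log M / (1 / 2) := by
          apply div_le_div_of_nonneg_left (Real.log_nonneg hM1) (by norm_num) hc
      _ ≤ 4 * (M : ℝ) ^ ((1 : ℝ) / 2) := by
          rw [div_le_iff₀ (by norm_num)]
          linarith
  have h3 : (1 : ℝ) ≤ (M : ℝ) ^ ((1 : ℝ) / 2) := Real.one_le_rpow hM1 (by norm_num)
  have h4 : (M : ℝ) ^ ((1 : ℝ) / 2) ≤ (M : ℝ) ^ δ := Real.rpow_le_rpow_of_exponent_le hM1 hδ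
  linarith

theorem poly_final (K : ℕ) (hK : 1 ≤ K) : ∃ C : ℝ, ∀ M : ℕ, 1 ≤ M →
    (Set.ncard {m : ℕ | 1 ≤ m ∧ m ≤ M ∧ ∃ n : ℕ, 1 ≤ n ∧ n ≤ M ^ K ∧ Par m n} : ℝ) ≤
      C * (M : ℝ) ^ (1 - 1 / (40 * K : ℝ)) := by
  have hK1 : (1 : ℝ) ≤ (K : ℝ) := by exact_mod_cast hK
  have hK0 : (0 : ℝ) < (K : ℝ) := by linarith
  obtain ⟨ε, hεdef⟩ : ∃ ε : ℝ, ε = 1 / (160 * K * (K + 1)) := ⟨_, rfl⟩
  have hε : 0 < ε := by rw [hεdef]; positivity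
  have hε1 : ε ≤ 1 / 160 := by
    rw [hεdef]
    apply div_le_div_of_nonneg_left (by norm_num) (by norm_num)
    nlinarith
  have hε2 : 1 - 1 / (32 * K : ℝ) + (K + 1) * ε = 1 - 1 / (40 * K : ℝ) := by
    rw [hεdef]
    field_simp
    ring
  have hδ : (31 : ℝ) / 40 ≤ 1 - 1 / (40 * K : ℝ) := by
    have : 1 / (40 * K : ℝ) ≤ 1 / 40 := by
      apply div_le_div_of_nonneg_left (by norm_num) (by norm_num)
      linarith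
    linarith
  have hβ : 0 ≤ 1 - 1 / (32 * K : ℝ) := by
    have : 1 / (32 * K : ℝ) ≤ 1 / 32 := by
      apply div_le_div_of_nonneg_left (by norm_num) (by norm_num)
      linarith
    linarith
  obtain ⟨C0, hC0, hrad⟩ := rad_count ε hε
  have hcl : ∀ e : ℕ, ∃ C : ℝ, 0 < C ∧ (1 ≤ e → ∀ X N Z : ℕ, 1 ≤ X → 1 ≤ N → 1 ≤ Z →
    (Set.ncard {x : ℕ × ℕ | 1 ≤ x.1 ∧ x.1 ≤ X ∧ 1 ≤ x.2 ∧ x.2 ≤ N ∧ Par x.1 x.2 ∧
      ¬ (Even e ∧ x.1 ^ e = (x.2 + 1) ^ 1) ∧ rd x.1 ≤ Z * cls x.1 (x.2 + 1) 1 e} : ℝ) ≤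
      C * Z * ((X : ℝ) * N) ^ ε) := by
    intro e
    by_cases he : 1 ≤ e
    · obtain ⟨C, hC, h⟩ := class_count 1 e le_rfl he ε hε
      exact ⟨C, hC, fun _ => h⟩
    · exact ⟨1, one_pos, fun h => absurd h he⟩
  choose Ce hCe hclass using hcl
  refine ⟨2 * C0 + 5 + ∑ e ∈ Icc 1 (8 * K), 3 * Ce e, ?_⟩
  intro M hM
  have hM1 : (1 : ℝ) ≤ (M : ℝ) := by exact_mod_cast hM
  have hM0 : (0 : ℝ) < (M : ℝ) := by linarith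
  obtain ⟨T, hT⟩ : ∃ T : ℝ, T = (M : ℝ) ^ (1 - 1 / (40 * K : ℝ)) := ⟨_, rfl⟩
  have hT0 : 0 ≤ T := by rw [hT]; positivity
  rw [← hT]
  -- the three families
  obtain ⟨Z0, hZ0⟩ : ∃ Z0 : ℕ, Z0 = ⌈(M : ℝ) ^ ((3 : ℝ) / 4)⌉₊ := ⟨_, rfl⟩
  obtain ⟨Z1, hZ1⟩ : ∃ Z1 : ℕ, Z1 = ⌈2 * (M : ℝ) ^ (1 - 1 / (32 * K : ℝ))⌉₊ := ⟨_, rfl⟩
  have h34 : (1 : ℝ) ≤ (M : ℝ) ^ ((3 : ℝ) / 4) := Real.one_le_rpow hM1 (by norm_num)
  have h32 : (1 : ℝ) ≤ (M : ℝ) ^ (1 - 1 / (32 * K : ℝ)) := Real.one_le_rpow hM1 hβ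
  have hZ0a : (M : ℝ) ^ ((3 : ℝ) / 4) ≤ Z0 := by rw [hZ0]; exact Nat.le_ceil _
  have hZ0b : (Z0 : ℝ) ≤ 2 * (M : ℝ) ^ ((3 : ℝ) / 4) := by
    have := Nat.ceil_lt_add_one (a := (M : ℝ) ^ ((3 : ℝ) / 4)) (by positivity)
    rw [← hZ0] at this
    linarith
  have hZ1a : 2 * (M : ℝ) ^ (1 - 1 / (32 * K : ℝ)) ≤ Z1 := by rw [hZ1]; exact Nat.le_ceil _
  have hZ1b : (Z1 : ℝ) ≤ 3 * (M : ℝ) ^ (1 - 1 / (32 * K : ℝ)) := by
    have := Nat.ceil_lt_add_one (a := 2 * (M : ℝ) ^ (1 - 1 / (32 * K : ℝ))) (by positivity)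
    rw [← hZ1] at this
    linarith
  have hZ01 : 1 ≤ Z0 := by
    have : (1 : ℝ) ≤ (Z0 : ℝ) := h34.trans hZ0a
    exact_mod_cast this
  have hZ11 : 1 ≤ Z1 := by
    have : (1 : ℝ) ≤ (Z1 : ℝ) := by linarith
    exact_mod_cast this
  have hfin : ∀ e : ℕ, {x : ℕ × ℕ | 1 ≤ x.1 ∧ x.1 ≤ M ∧ 1 ≤ x.2 ∧ x.2 ≤ M ^ K ∧ Par x.1 x.2 ∧
      ¬ (Even e ∧ x.1 ^ e = (x.2 + 1) ^ 1) ∧ rd x.1 ≤ Z1 * cls x.1 (x.2 + 1) 1 e}.Finite := by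
    intro e
    apply Set.Finite.subset ((Icc 1 M ×ˢ Icc 1 (M ^ K)).finite_toSet)
    rintro ⟨a, b⟩ ⟨h1, h2, h3, h4, -⟩
    simp only [coe_product, Set.mem_prod, mem_coe, mem_Icc]
    exact ⟨⟨h1, h2⟩, h3, h4⟩
  have hsub : {m : ℕ | 1 ≤ m ∧ m ≤ M ∧ ∃ n : ℕ, 1 ≤ n ∧ n ≤ M ^ K ∧ Par m n} ⊆
      (((((Icc 1 M).filter fun m => rd m ≤ Z0) ∪
        ((range (Nat.log 2 M + 1)).image fun k => 2 ^ k + 1)) ∪
        (Icc 1 (8 * K)).biUnion fun e => (hfin e).toFinset.image Prod.fst : Finset ℕ) : Set ℕ) := by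
    rintro m ⟨hm1, hm, n, hn, hnK, hP⟩
    rw [mem_coe, mem_union, mem_union]
    by_cases hr : rd m ≤ Z0
    · exact Or.inl (Or.inl (mem_filter.2 ⟨mem_Icc.2 ⟨hm1, hm⟩, hr⟩))
    · have hr' : (M : ℝ) ^ ((3 : ℝ) / 4) ≤ rd m := by
        have : (Z0 : ℝ) ≤ (rd m : ℝ) := by exact_mod_cast (not_le.1 hr).le
        exact hZ0a.trans this
      obtain ⟨e, he1, he8, hre⟩ := big_class K M m n hK hM hm1 hm hn hnK hP hr'
      by_cases hev : Even e ∧ m ^ e = (n + 1) ^ 1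
      · left; right
        obtain ⟨⟨j, hj⟩, hpow⟩ := hev
        have hj1 : 1 ≤ j := by omega
        rw [pow_one, hj, ← two_mul] at hpow
        obtain ⟨k, hk⟩ := family m n j hj1 hn hP hpow
        rw [mem_image]
        refine ⟨k, ?_, hk.symm⟩
        rw [mem_range, Nat.lt_succ_iff]
        apply Nat.le_log_of_pow_le (by norm_num)
        omega
      · right
        rw [mem_biUnion]
        refine ⟨e, mem_Icc.2 ⟨he1, he8⟩, ?_⟩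
        rw [mem_image]
        refine ⟨(m, n), ?_, rfl⟩
        rw [Set.Finite.mem_toFinset]
        refine ⟨hm1, hm, hn, hnK, hP, hev, ?_⟩
        have : (rd m : ℝ) ≤ ((Z1 * cls m (n + 1) 1 e : ℕ) : ℝ) := by
          push_cast
          refine hre.trans ?_
          exact mul_le_mul_of_nonneg_right hZ1a (Nat.cast_nonneg _)
        exact_mod_cast this
  have hcard : (Set.ncard {m : ℕ | 1 ≤ m ∧ m ≤ M ∧ ∃ n : ℕ, 1 ≤ n ∧ n ≤ M ^ K ∧ Par m n} : ℝ) ≤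
      (((Icc 1 M).filter fun m => rd m ≤ Z0).card : ℝ) +
      (((range (Nat.log 2 M + 1)).image fun k => 2 ^ k + 1).card : ℝ) +
      ∑ e ∈ Icc 1 (8 * K), (Set.ncard {x : ℕ × ℕ | 1 ≤ x.1 ∧ x.1 ≤ M ∧ 1 ≤ x.2 ∧ x.2 ≤ M ^ K ∧
        Par x.1 x.2 ∧ ¬ (Even e ∧ x.1 ^ e = (x.2 + 1) ^ 1) ∧
        rd x.1 ≤ Z1 * cls x.1 (x.2 + 1) 1 e} : ℝ) := by
    have h1 := Set.ncard_le_ncard hsub (Finset.finite_toSet _)
    rw [Set.ncard_coe_finset] at h1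
    have h2 := h1.trans ((card_union_le _ _).trans (Nat.add_le_add (card_union_le _ _)
      (card_biUnion_le)))
    have h3 : (∑ e ∈ Icc 1 (8 * K), ((hfin e).toFinset.image Prod.fst).card) ≤
        ∑ e ∈ Icc 1 (8 * K), Set.ncard {x : ℕ × ℕ | 1 ≤ x.1 ∧ x.1 ≤ M ∧ 1 ≤ x.2 ∧ x.2 ≤ M ^ K ∧
        Par x.1 x.2 ∧ ¬ (Even e ∧ x.1 ^ e = (x.2 + 1) ^ 1) ∧
        rd x.1 ≤ Z1 * cls x.1 (x.2 + 1) 1 e} := by
      apply sum_le_sum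
      intro e _
      rw [Set.ncard_eq_toFinset_card _ (hfin e)]
      exact card_image_le
    have h4 := h2.trans (Nat.add_le_add_left h3 _)
    exact_mod_cast h4
  have hA : (((Icc 1 M).filter fun m => rd m ≤ Z0).card : ℝ) ≤ 2 * C0 * T := by
    refine (hrad M Z0 hM hZ01).trans ?_
    calc C0 * (Z0 : ℝ) * (M : ℝ) ^ ε ≤ C0 * (2 * (M : ℝ) ^ ((3 : ℝ) / 4)) * (M : ℝ) ^ ε := by
          gcongr
      _ = 2 * C0 * (M : ℝ) ^ ((3 : ℝ) / 4 + ε) := by rw [Real.rpow_add hM0]; ring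
      _ ≤ 2 * C0 * T := by
          rw [hT]
          apply mul_le_mul_of_nonneg_left _ (by positivity)
          apply Real.rpow_le_rpow_of_exponent_le hM1
          linarith
  have hF : (((range (Nat.log 2 M + 1)).image fun k => 2 ^ k + 1).card : ℝ) ≤ 5 * T := by
    rw [hT]
    exact MtI_family_count M hM _ (by linarith)
  have hB : ∀ e ∈ Icc 1 (8 * K), (Set.ncard {x : ℕ × ℕ | 1 ≤ x.1 ∧ x.1 ≤ M ∧ 1 ≤ x.2 ∧
        x.2 ≤ M ^ K ∧ Par x.1 x.2 ∧ ¬ (Even e ∧ x.1 ^ e = (x.2 + 1) ^ 1) ∧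
        rd x.1 ≤ Z1 * cls x.1 (x.2 + 1) 1 e} : ℝ) ≤ 3 * Ce e * T := by
    intro e he
    refine (hclass e (mem_Icc.1 he).1 M (M ^ K) Z1 hM (Nat.one_le_pow _ _ hM) hZ11).trans ?_
    have hpow : ((M : ℝ) * ((M ^ K : ℕ) : ℝ)) ^ ε = (M : ℝ) ^ (((K : ℝ) + 1) * ε) := by
      rw [Real.rpow_mul hM0.le]
      congr 1
      rw [Real.rpow_add hM0, Real.rpow_one, Real.rpow_natCast]
      push_cast
      ring
    rw [hpow]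
    have hCe' := hCe e
    calc Ce e * (Z1 : ℝ) * (M : ℝ) ^ (((K : ℝ) + 1) * ε)
        ≤ Ce e * (3 * (M : ℝ) ^ (1 - 1 / (32 * K : ℝ))) * (M : ℝ) ^ (((K : ℝ) + 1) * ε) := by
          gcongr
      _ = 3 * Ce e * (M : ℝ) ^ (1 - 1 / (32 * K : ℝ) + (K + 1) * ε) := by
          rw [Real.rpow_add hM0]; ring
      _ = 3 * Ce e * T := by rw [hε2, hT]
  calc (Set.ncard {m : ℕ | 1 ≤ m ∧ m ≤ M ∧ ∃ n : ℕ, 1 ≤ n ∧ n ≤ M ^ K ∧ Par m n} : ℝ)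
      ≤ _ := hcard
    _ ≤ 2 * C0 * T + 5 * T + ∑ e ∈ Icc 1 (8 * K), 3 * Ce e * T := by
        gcongr with e he
        exact hB e he
    _ = (2 * C0 + 5 + ∑ e ∈ Icc 1 (8 * K), 3 * Ce e) * T := by
        rw [← sum_mul]; ring

end Pool.Agent.MS
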